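import Pool.Agent.Work.MP_03d391_lt2.Interface

/-! Block CA. -/

set_option autoImplicit false

noncomputable section

namespace Pool.LT2

open MvPolynomial Pool.LTO

theorem CA_two {k : Type} [Field k] {c n : ℕ} {E : Submodule (Polynomial (Sx k)) (Fr k)}
    (hn : 1 ≤ n) (hE : BundleC k c n E) {p : Ideal (Sx k)} (hp : p.IsPrime)
    (hpi : ∃ i : Fin 4, (X i : Sx k) ∉ p) (h0 : ∀ e ∈ E, (e 0).coeff 0 ∈ p)
    (h1 : ∀ e ∈ E, (e 1).coeff 0 ∈ p) : 2 ≤ n := by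
  by_contra hlt
  have hn1 : n = 1 := by omega
  subst hn1
  obtain ⟨v, hv, w, hw, h, u, -, hu, -, hdet⟩ := hE.loc p hp hpi
  apply hu
  have h2 : (Polynomial.X ^ 1 * u : Polynomial (Sx k)).coeff 1 = u.coeff 0 := by
    rw [pow_one]; exact Polynomial.coeff_X_mul u 0
  rw [← hdet, Polynomial.coeff_sub, Polynomial.mul_coeff_one, Polynomial.mul_coeff_one] at h2
  rw [← h2]
  exact Ideal.sub_mem _
    (Ideal.add_mem _ (Ideal.mul_mem_right _ _ (h0 v hv)) (Ideal.mul_mem_left _ _ (h1 w hw)))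
    (Ideal.add_mem _ (Ideal.mul_mem_right _ _ (h1 v hv)) (Ideal.mul_mem_left _ _ (h0 w hw)))

theorem p_CA : Stmt_CA := by
  intro k _ c n E B D' N M hS π p hπ hπB hp hpi hπp hDp
  have hBβ : ∀ e ∈ E, B ∣ (e 0).coeff 0 := by
    intro e he
    have h1 := hS.r0 e he
    have h2 : B ∣ D' * (e 0).coeff 0 := ⟨(e 1).coeff 0, by rw [← h1]; ring⟩
    exact hS.rel.dvd_of_dvd_mul_left h2
  have hBp : ∀ x : Sx k, B ∣ x → x ∈ p := by
    intro x hx
    obtain ⟨y, hy⟩ := hπB.trans hx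
    rw [hy]
    exact Ideal.mul_mem_right _ _ hπp
  have hβ : ∀ e ∈ E, (e 0).coeff 0 ∈ p := fun e he => hBp _ (hBβ e he)
  have hδ : ∀ e ∈ E, (e 1).coeff 0 ∈ p := by
    intro e he
    obtain ⟨g, hg⟩ := hBβ e he
    have h1 := hS.r0 e he
    have h2 : B * (e 1).coeff 0 = B * (D' * g) := by
      rw [hg] at h1
      linear_combination h1
    rw [mul_left_cancel₀ hS.B0 h2]
    exact Ideal.mul_mem_right _ _ hDp
  have hn2 : 2 ≤ n := CA_two hS.n1 hS.bun hp hpi hβ hδ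
  by_contra hN
  obtain ⟨e, he, a, ha⟩ := hS.typ p hp hpi
  have hr1 := hS.r1 hn2 e he
  have hd1 : (e 1).coeff 1 ∈ p := by
    have h2 : D' ∣ B * (N * (e 1).coeff 1) := ⟨N * (e 0).coeff 1 - M * (e 0).coeff 0, by
      rw [← hr1]; ring⟩
    have h3 : D' ∣ N * (e 1).coeff 1 := hS.rel.symm.dvd_of_dvd_mul_left h2
    obtain ⟨y, hy⟩ := h3
    have h4 : N * (e 1).coeff 1 ∈ p := by
      rw [hy]
      exact Ideal.mul_mem_right _ _ hDp
    exact (hp.mem_or_mem h4).resolve_left hN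
  have hb1 : (e 0).coeff 1 ∈ p := by
    have h2 : B ∣ D' * (N * (e 0).coeff 1 - M * (e 0).coeff 0) := ⟨N * (e 1).coeff 1, by
      rw [← hr1]; ring⟩
    have h3 : B ∣ N * (e 0).coeff 1 - M * (e 0).coeff 0 := hS.rel.dvd_of_dvd_mul_left h2
    have h4 : B ∣ N * (e 0).coeff 1 := by
      have h5 : B ∣ M * (e 0).coeff 0 := Dvd.dvd.mul_left (hBβ e he) M
      have h6 := dvd_add h3 h5
      rwa [sub_add_cancel] at h6
    exact (hp.mem_or_mem (hBp _ h4)).resolve_left hN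
  fin_cases a
  · rcases ha with ha | ha
    · exact ha (hβ e he)
    · exact ha hb1
  · rcases ha with ha | ha
    · exact ha (hδ e he)
    · exact ha hd1

end Pool.LT2
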