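import Pool.Agent.Work.MP_03d391_lt2.Interface

set_option autoImplicit false

noncomputable section

namespace Pool.LT2

open MvPolynomial Pool.LTO

/-- The homogenized value of the polynomial `P` at the pair N, M. -/
def CB_hv {k : Type} [Field k] (N M : Sx k) (L : ℕ) (P : Polynomial (Sx k)) : Sx k :=
  ∑ i ∈ Finset.range (L + 1), P.coeff i * N ^ i * M ^ (L - i)

theorem CB_hv_eq {k : Type} [Field k] (N M : Sx k) (hM : M ≠ 0) (L : ℕ) (P : Polynomial (Sx k))
    (hL : P.natDegree ≤ L) :
    io (CB_hv N M L P) = io M ^ L * Polynomial.aeval (io N / io M) P := by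
  have hι : Function.Injective (io : Sx k →+* Kx k) := IsFractionRing.injective (Sx k) (Kx k)
  have hM' : (io M : Kx k) ≠ 0 := fun h => hM (hι (by rw [h, map_zero]))
  unfold CB_hv
  rw [Polynomial.aeval_eq_sum_range' (Nat.lt_succ_of_le hL), map_sum, Finset.mul_sum]
  refine Finset.sum_congr rfl fun i hi => ?_
  have hiL : i ≤ L := Nat.lt_succ_iff.1 (Finset.mem_range.1 hi)
  obtain ⟨r, rfl⟩ := Nat.exists_eq_add_of_le hiL
  have h1 : i + r - i = r := by omega
  rw [h1, Algebra.smul_def, map_mul, map_mul, map_pow, map_pow, div_pow, pow_add]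
  field_simp

theorem p_CB : Stmt_CB := by
  classical
  intro k _ B D' N M hB hM hBD hRel π p hπ hπB hp hπp hNp hMp
  have hι : Function.Injective (io : Sx k →+* Kx k) := IsFractionRing.injective (Sx k) (Kx k)
  have hB' : (io B : Kx k) ≠ 0 := fun h => hB (hι (by rw [h, map_zero]))
  have hM' : (io M : Kx k) ≠ 0 := fun h => hM (hι (by rw [h, map_zero]))
  obtain ⟨J, s, W, hs, hrel⟩ := hRel
  -- a bound for all degrees
  obtain ⟨L, hLs, hLW⟩ : ∃ L : ℕ, s.natDegree ≤ L ∧ ∀ j ∈ Finset.range (J + 1), (W j).natDegree ≤ L := by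
    refine ⟨s.natDegree + ∑ j ∈ Finset.range (J + 1), (W j).natDegree, Nat.le_add_right _ _, fun j hj => ?_⟩
    exact le_trans (Finset.single_le_sum (f := fun j => (W j).natDegree) (fun _ _ => Nat.zero_le _) hj)
      (Nat.le_add_left _ _)
  have hs0 : s ≠ 0 := by
    rintro rfl
    exact hs (by simp)
  set sC : Polynomial (Sx k) := s.map (C : k →+* Sx k) with hsC
  have hsCdeg : sC.natDegree ≤ L := le_trans Polynomial.natDegree_map_le hLs
  have hsCev : Polynomial.aeval (io N / io M) sC = Polynomial.aeval (io N / io M : Kx k) s := by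
    have h1 : sC = s.map (algebraMap k (Sx k)) := rfl
    rw [h1, Polynomial.aeval_map_algebraMap]
  -- the equation in `S`
  have key : CB_hv N M L sC * D' ^ (J + 1) =
      ∑ j ∈ Finset.range (J + 1), CB_hv N M L (W j) * D' ^ j * B ^ (J + 1 - j) := by
    apply hι
    rw [map_mul, map_pow, map_sum, CB_hv_eq N M hM L sC hsCdeg, hsCev]
    have h2 : io M ^ L * Polynomial.aeval (io N / io M : Kx k) s * io D' ^ (J + 1) =
        io M ^ L * io B ^ (J + 1) *
          (Polynomial.aeval (io N / io M : Kx k) s * (io D' / io B) ^ (J + 1)) := by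
      rw [div_pow]
      field_simp
    rw [h2, hrel, Finset.mul_sum]
    refine Finset.sum_congr rfl fun j hj => ?_
    rw [map_mul, map_mul, map_pow, map_pow, CB_hv_eq N M hM L (W j) (hLW j hj)]
    have hjJ : j ≤ J + 1 := le_of_lt (Finset.mem_range.1 hj)
    obtain ⟨r, hr⟩ := Nat.exists_eq_add_of_le hjJ
    have h3 : J + 1 - j = r := by omega
    rw [h3, hr, div_pow, pow_add]
    field_simp
  have hπD : ¬ π ∣ D' := fun h => hπ.not_isUnit (hBD hπB h)
  have hπs : π ∣ CB_hv N M L sC := by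
    have h1 : π ∣ CB_hv N M L sC * D' ^ (J + 1) := by
      rw [key]
      refine Finset.dvd_sum fun j hj => ?_
      have h2 : J + 1 - j ≠ 0 := by
        have := Finset.mem_range.1 hj
        omega
      exact Dvd.dvd.mul_left (dvd_pow hπB h2) _
    rcases hπ.dvd_or_dvd h1 with h | h
    · exact h
    · exact absurd (hπ.dvd_of_dvd_pow h) hπD
  by_contra hπN
  set a := s.natTrailingDegree with ha
  have haL : a ≤ L := le_trans (Polynomial.natTrailingDegree_le_natDegree s) hLs
  have hsa : s.coeff a ≠ 0 := by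
    have := Polynomial.trailingCoeff_nonzero_iff_nonzero.2 hs0
    exact this
  obtain ⟨r, hr⟩ := Nat.exists_eq_add_of_le haL
  have hfac : CB_hv N M L sC = N ^ a * ∑ i ∈ Finset.range (r + 1), C (s.coeff (a + i)) * N ^ i * M ^ (r - i) := by
    unfold CB_hv
    rw [hr, add_assoc, Finset.sum_range_add, Finset.mul_sum]
    have h0 : ∑ i ∈ Finset.range a, sC.coeff i * N ^ i * M ^ (a + r - i) = 0 := by
      refine Finset.sum_eq_zero fun i hi => ?_
      have h1 : s.coeff i = 0 := Polynomial.coeff_eq_zero_of_lt_natTrailingDegree (Finset.mem_range.1 hi)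
      rw [hsC, Polynomial.coeff_map, h1, map_zero, zero_mul, zero_mul]
    rw [h0, zero_add]
    refine Finset.sum_congr rfl fun i _ => ?_
    have h2 : a + r - (a + i) = r - i := by omega
    rw [h2, hsC, Polynomial.coeff_map, pow_add]
    ring
  rw [hfac] at hπs
  have hπT : π ∣ ∑ i ∈ Finset.range (r + 1), C (s.coeff (a + i)) * N ^ i * M ^ (r - i) := by
    rcases hπ.dvd_or_dvd hπs with h | h
    · exact absurd (hπ.dvd_of_dvd_pow h) hπN
    · exact h
  have hTp : ∑ i ∈ Finset.range (r + 1), C (s.coeff (a + i)) * N ^ i * M ^ (r - i) ∈ p :=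
    Ideal.mem_of_dvd _ hπT hπp
  rw [Finset.sum_range_succ'] at hTp
  have h1 : ∑ i ∈ Finset.range r, C (s.coeff (a + (i + 1))) * N ^ (i + 1) * M ^ (r - (i + 1)) ∈ p := by
    refine Ideal.sum_mem _ fun i _ => ?_
    have h2 : C (s.coeff (a + (i + 1))) * N ^ (i + 1) * M ^ (r - (i + 1)) =
        (C (s.coeff (a + (i + 1))) * N ^ i * M ^ (r - (i + 1))) * N := by
      rw [pow_succ]
      ring
    rw [h2]
    exact Ideal.mul_mem_left _ _ hNp
  have h3 := (Ideal.add_mem_iff_right p h1).1 hTp
  rw [add_zero, pow_zero, mul_one, Nat.sub_zero] at h3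
  have h4 : M ^ r ∈ p := by
    have h5 : M ^ r = C (s.coeff a)⁻¹ * (C (s.coeff a) * M ^ r) := by
      rw [← mul_assoc, ← C_mul, inv_mul_cancel₀ hsa, C_1, one_mul]
    rw [h5]
    exact Ideal.mul_mem_left _ _ h3
  exact hMp (hp.mem_of_pow_mem r h4)

end Pool.LT2
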