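import Pool.Agent.Work.MP_03d391_lt2.Interface

/-! # MP_03d391_ag, THEOREM T2: block CC -/

set_option autoImplicit false

noncomputable section

namespace Pool.LT2

open MvPolynomial Pool.LTO

theorem CC_dvd0 {k : Type} [Field k] {c n : ℕ} {E : Submodule (Polynomial (Sx k)) (Fr k)}
    {B D' N M : Sx k} (h : Sit k c n E B D' N M) (e : Fr k) (he : e ∈ E) :
    B ∣ (e 0).coeff 0 := by
  have h1 : B ∣ D' * (e 0).coeff 0 := by
    rw [← h.r0 e he]
    exact Dvd.intro_left _ rfl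
  exact h.rel.dvd_of_dvd_mul_left h1

theorem CC_notdvd {k : Type} [Field k] {c n : ℕ} {E : Submodule (Polynomial (Sx k)) (Fr k)}
    {B D' N M : Sx k} (h : Sit k c n E B D' N M) {π : Sx k} (hπ : Prime π) (hB : π ∣ B) :
    ¬ π ∣ D' := by
  intro hD
  exact hπ.not_isUnit (h.rel hB hD)

theorem p_CC (hKRU : Stmt_KRU) (hPT : Stmt_PT) (hCA : Stmt_CA) (hCB : Stmt_CB) : Stmt_CC := by
  intro k _ c n E B D' N M hS hNM hN hM hRel π hπ hπB hπ0 hD0
  obtain ⟨p, hp, hπp, hDp, hX⟩ := hKRU k π D' hπ0 hD0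
  have hNp : N ∈ p := hCA k c n E B D' N M hS π p hπ hπB hp hX hπp hDp
  by_cases hMp : M ∈ p
  · obtain ⟨h2, e, he, _, he1⟩ := hPT k c n E B D' N M hS hNM hN hM hRel π p hπ hπB hp hX hπp hNp hMp
    by_contra hπN
    have hβ0 : π ∣ (e 0).coeff 0 := hπB.trans (CC_dvd0 hS e he)
    have hr := hS.r1 h2 e he
    have hD : ¬ π ∣ D' := CC_notdvd hS hπ hπB
    have h3 : π ∣ N * (D' * (e 0).coeff 1) := by
      have h4 : N * (D' * (e 0).coeff 1) = B * (N * (e 1).coeff 1) + (e 0).coeff 0 * (D' * M) := by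
        linear_combination -hr
      rw [h4]
      exact dvd_add (hπB.mul_right _) (hβ0.mul_right _)
    have h5 : π ∣ (e 0).coeff 1 := by
      rcases hπ.dvd_or_dvd h3 with h6 | h6
      · exact absurd h6 hπN
      · rcases hπ.dvd_or_dvd h6 with h7 | h7
        · exact absurd h7 hD
        · exact h7
    exact he1 (p.mem_of_dvd h5 hπp)
  · exact hCB k B D' N M hS.B0 hM hS.rel hRel π p hπ hπB hp hπp hNp hMp

end Pool.LT2
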