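import Pool.Agent.Work.MP_03d391_lt2.Interface

/-!
# MP_03d391_ag, THEOREM T2: block CD (helper48)
-/

set_option autoImplicit false

noncomputable section

namespace Pool.LT2

open MvPolynomial Pool.LTO

theorem p_CD (hPT : Stmt_PT) : Stmt_CD := by
  intro k _ c n E B D' N M hS hNM hN0 hM0 hRel π N1 l hπ hπB hl hN hπM p hp hX
  by_cases hMp : M ∈ p
  swap
  · exact ⟨M, hMp, Ideal.mul_mem_right _ _ (Ideal.subset_span (by simp))⟩
  by_cases hπp : π ∈ p
  swap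
  · exact ⟨π, hπp, Ideal.mul_mem_right _ _ (Ideal.subset_span (by simp))⟩
  have hNp : N ∈ p := by
    rw [hN]
    exact Ideal.mul_mem_right _ _ (Ideal.pow_mem_of_mem _ hπp l (by omega))
  obtain ⟨hn, e, heE, he0, he1⟩ := hPT k c n E B D' N M hS hNM hN0 hM0 hRel π p hπ hπB hp hX hπp hNp hMp
  have hπD : ¬ π ∣ D' := fun h => hπ.not_unit (hS.rel hπB h)
  have h1 := hS.r1 hn e heE
  have h2 : D' * M * (e 0).coeff 0 = π ^ l * (N1 * (D' * (e 0).coeff 1 - B * (e 1).coeff 1)) := by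
    have h3 : D' * M * (e 0).coeff 0 = N * (D' * (e 0).coeff 1 - B * (e 1).coeff 1) := by
      linear_combination h1
    rw [h3, hN]
    ring
  have hπDM : ¬ π ∣ D' * M := fun h => (hπ.dvd_or_dvd h).elim hπD hπM
  have h4 : π ^ l ∣ (e 0).coeff 0 := by
    apply hπ.pow_dvd_of_dvd_mul_left l hπDM
    exact ⟨_, h2⟩
  obtain ⟨β', hβ'⟩ := h4
  have h5 : D' * M * β' = N1 * (D' * (e 0).coeff 1 - B * (e 1).coeff 1) := by
    have h6 : π ^ l ≠ 0 := pow_ne_zero _ hπ.ne_zero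
    apply mul_left_cancel₀ h6
    rw [← h2, hβ']
    ring
  have h7 : π ∣ D' * (M * β' - N1 * (e 0).coeff 1) := by
    have h8 : D' * (M * β' - N1 * (e 0).coeff 1) = B * (-(N1 * (e 1).coeff 1)) := by
      linear_combination h5
    rw [h8]
    exact Dvd.dvd.mul_right hπB _
  have h9 : π ∣ M * β' - N1 * (e 0).coeff 1 := (hπ.dvd_or_dvd h7).resolve_left hπD
  obtain ⟨κ, hκ⟩ := h9
  refine ⟨(e 0).coeff 1, he1, ?_⟩
  have h10 : (e 0).coeff 1 * N1 = β' * M + (-κ) * π := by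
    linear_combination -hκ
  rw [h10]
  exact Ideal.mem_span_pair.mpr ⟨β', -κ, rfl⟩

end Pool.LT2
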