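import Pool.Agent.Work.MP_03d391_lt2.Interface

/-!
# Block CHA of THEOREM T2: change of the lattice, first case
-/

set_option autoImplicit false

noncomputable section

namespace Pool.LT2

open MvPolynomial Pool.LTO

theorem CHA_inj {k : Type} [Field k] {x y : Fr k} (h : Ta x = Ta y) : x = y := by
  funext a
  fin_cases a
  · have h0 : Polynomial.X * x 0 = Polynomial.X * y 0 := congrFun h 0
    exact mul_left_cancel₀ Polynomial.X_ne_zero h0
  · exact congrFun h 1

theorem CHA_lift {k : Type} [Field k] (e : Fr k) (h : (e 0).coeff 0 = 0) :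
    Ta (![(e 0).divX, e 1] : Fr k) = e := by
  funext a
  fin_cases a
  · show Polynomial.X * (e 0).divX = e 0
    have h1 := Polynomial.X_mul_divX_add (e 0)
    rw [h, map_zero, add_zero] at h1
    exact h1
  · rfl

theorem CHA_Ta0 {k : Type} [Field k] (e : Fr k) : Ta e 0 = Polynomial.X * e 0 := rfl

theorem CHA_Ta1 {k : Type} [Field k] (e : Fr k) : Ta e 1 = e 1 := rfl

theorem p_CHA : Stmt_CHA := by
  intro k _ c n E hE h0
  have hlift : ∀ e ∈ E, ∃ e' : Fr k, Ta e' = e := fun e he => ⟨_, CHA_lift e (h0 e he)⟩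
  refine ⟨⟨?_, ?_, ?_, ?_⟩, ?_, ?_⟩
  · -- hom
    intro e he m
    have he' : Ta e ∈ E := he
    obtain ⟨f, hf, hfj⟩ := hE.hom _ he' m
    obtain ⟨f', rfl⟩ := hlift f hf
    refine ⟨f', hf, fun j => ⟨?_, ?_⟩⟩
    · have h1 := (hfj (j + 1)).1
      rw [CHA_Ta0, CHA_Ta0, Polynomial.coeff_X_mul, Polynomial.coeff_X_mul] at h1
      exact h1
    · have h1 := (hfj j).2
      rw [CHA_Ta1, CHA_Ta1] at h1
      exact h1
  · -- pow
    obtain ⟨N, hN⟩ := hE.pow
    refine ⟨N, fun e => ?_⟩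
    show Ta ((Polynomial.X : Polynomial (Sx k)) ^ N • e) ∈ E
    rw [map_smul]
    exact hN _
  · -- sat
    intro e he
    show Ta e ∈ E
    refine hE.sat _ fun i => ?_
    obtain ⟨N, hN⟩ := he i
    refine ⟨N, ?_⟩
    have h1 : Ta ((Polynomial.C (X i ^ N : Sx k)) • e) ∈ E := hN
    rwa [map_smul] at h1
  · -- loc
    intro p hp hx
    obtain ⟨v, hv, w, hw, h, u, hh, hu, hgen, hdet⟩ := hE.loc p hp hx
    obtain ⟨v', rfl⟩ := hlift v hv
    obtain ⟨w', rfl⟩ := hlift w hw
    refine ⟨v', hv, w', hw, h, u, hh, hu, fun e he => ?_, ?_⟩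
    · obtain ⟨a, b, hab⟩ := hgen (Ta e) he
      refine ⟨a, b, CHA_inj ?_⟩
      rw [map_smul, map_add, map_smul, map_smul]
      exact hab
    · have h1 : Polynomial.X * (v' 0 * w' 1 - v' 1 * w' 0) =
          Polynomial.X * (Polynomial.X ^ n * u) := by
        have h2 : Ta v' 0 * Ta w' 1 - Ta v' 1 * Ta w' 0 = Polynomial.X ^ (n + 1) * u := hdet
        rw [CHA_Ta0, CHA_Ta0, CHA_Ta1, CHA_Ta1] at h2
        linear_combination h2
      exact mul_left_cancel₀ Polynomial.X_ne_zero h1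
  · -- type
    intro hT p hp hx
    obtain ⟨e, he, a, ha⟩ := hT p hp hx
    obtain ⟨e', rfl⟩ := hlift e he
    refine ⟨e', he, a, ?_⟩
    have h01 : a = 0 ∨ a = 1 := by
      fin_cases a
      · exact Or.inl rfl
      · exact Or.inr rfl
    rcases h01 with rfl | rfl
    · rw [CHA_Ta0, Polynomial.coeff_X_mul_zero] at ha
      have h1 : (Polynomial.X * e' 0).coeff 1 = (e' 0).coeff 0 := Polynomial.coeff_X_mul _ 0
      rw [h1] at ha
      rcases ha with ha | ha
      · exact absurd p.zero_mem ha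
      · exact Or.inl ha
    · rwa [CHA_Ta1] at ha
  · -- map
    apply le_antisymm
    · intro e he
      obtain ⟨e', rfl⟩ := hlift e he
      exact ⟨e', he, rfl⟩
    · exact Submodule.map_comap_le _ _

end Pool.LT2
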