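import Pool.Agent.Work.MP_03d391_lt2.Interface

/-! Block CHB: change of the lattice, second case. -/

set_option autoImplicit false

noncomputable section

namespace Pool.LT2

open MvPolynomial Pool.LTO

attribute [local instance] MvPolynomial.gradedAlgebra

theorem chb_comp_mul {k : Type} [Field k] (c : ℕ) (h f : Sx k) (hh : h.IsHomogeneous c) (m : ℤ) :
    comp (m + c) (h * f) = h * comp m f := by
  unfold comp
  by_cases hm : 0 ≤ m
  · have hm' : 0 ≤ m + c := by omega
    rw [if_pos hm, if_pos hm']
    have e : (m + c).toNat = m.toNat + c := by omega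
    rw [e, mul_comm h f]
    have h1 := DirectSum.coe_decompose_mul_add_of_right_mem (homogeneousSubmodule (Fin 4) k) (a := f) (i := m.toNat)
      (j := c) (b := h) ((mem_homogeneousSubmodule _ _).2 hh)
    have e1 := decomposition.decompose'_apply (f * h) (m.toNat + c)
    have e2 := decomposition.decompose'_apply f m.toNat
    rw [← e1, ← e2, mul_comm h]
    exact h1
  · rw [if_neg hm, mul_zero]
    by_cases hm' : 0 ≤ m + c
    · rw [if_pos hm']
      have h1 := DirectSum.coe_decompose_mul_of_left_mem_of_not_le (homogeneousSubmodule (Fin 4) k) (a := h) (b := f)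
        (i := c) (n := (m + c).toNat) ((mem_homogeneousSubmodule _ _).2 hh) (by omega)
      have e1 := decomposition.decompose'_apply (h * f) (m + c).toNat
      rw [← e1]
      exact h1
    · rw [if_neg hm']

theorem chb_comp_add {k : Type} [Field k] (m : ℤ) (f g : Sx k) : comp m (f + g) = comp m f + comp m g := by
  unfold comp
  split_ifs
  · rw [map_add]
  · rw [add_zero]

theorem chb_apply0 {k : Type} [Field k] (h : Sx k) (e : Fr k) : Tb h e 0 = e 0 := rfl

theorem chb_apply1 {k : Type} [Field k] (h : Sx k) (e : Fr k) :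
    Tb h e 1 = Polynomial.C h * e 0 + Polynomial.X * e 1 := rfl

theorem chb_coeff {k : Type} [Field k] (h : Sx k) (e : Fr k) (j : ℕ) :
    (Tb h e 1).coeff j = h * (e 0).coeff j + (Polynomial.X * e 1).coeff j := by
  rw [chb_apply1, Polynomial.coeff_add, Polynomial.coeff_C_mul]

theorem chb_inj {k : Type} [Field k] (h : Sx k) (e e' : Fr k) (he : Tb h e = Tb h e') : e = e' := by
  have h0 := congrFun he 0
  have h1 := congrFun he 1
  rw [chb_apply0, chb_apply0] at h0
  rw [chb_apply1, chb_apply1, h0] at h1
  have h2 := mul_left_cancel₀ Polynomial.X_ne_zero (add_left_cancel h1)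
  funext a
  fin_cases a
  · exact h0
  · exact h2

theorem chb_surj {k : Type} [Field k] (h : Sx k) (e : Fr k) (he : (e 1).coeff 0 = h * (e 0).coeff 0) :
    ∃ e' : Fr k, Tb h e' = e := by
  set γ : Polynomial (Sx k) := e 1 - Polynomial.C h * e 0 with hγ
  have hγ0 : γ.coeff 0 = 0 := by
    rw [hγ, Polynomial.coeff_sub, Polynomial.coeff_C_mul, he]
    ring
  have hX : Polynomial.X * γ.divX = γ := by
    have := Polynomial.X_mul_divX_add γ
    rw [hγ0, Polynomial.C_0, add_zero] at this
    exact this
  refine ⟨![e 0, γ.divX], ?_⟩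
  funext a
  fin_cases a
  · rfl
  · show Polynomial.C h * e 0 + Polynomial.X * γ.divX = e 1
    rw [hX, hγ]
    ring

theorem p_CHB : Stmt_CHB := by
  intro k _ c n E h hh hE hc
  have hsurj : ∀ e ∈ E, ∃ e' : Fr k, Tb h e' = e := fun e he => chb_surj h e (hc e he)
  refine ⟨?_, ?_, ?_⟩
  · refine ⟨?_, ?_, ?_, ?_⟩
    · intro e' he' m
      obtain ⟨e2, he2, hco⟩ := hE.hom _ he' m
      obtain ⟨e3, he3⟩ := hsurj e2 he2
      refine ⟨e3, ?_, ?_⟩
      · rw [Submodule.mem_comap, he3]
        exact he2
      · have hA : ∀ j, (e3 0).coeff j = comp m ((e' 0).coeff j) := by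
          intro j
          have h1 := (hco j).1
          rw [← he3, chb_apply0, chb_apply0] at h1
          exact h1
        have hB : ∀ j, (Polynomial.X * e3 1).coeff j = comp (m + c) ((Polynomial.X * e' 1).coeff j) := by
          intro j
          have h1 := (hco j).2
          rw [← he3, chb_coeff, chb_coeff, chb_comp_add, chb_comp_mul c h _ hh, hA j] at h1
          exact add_left_cancel h1
        intro j
        refine ⟨hA j, ?_⟩
        have h2 := hB (j + 1)
        rw [Polynomial.coeff_X_mul, Polynomial.coeff_X_mul] at h2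
        exact h2
    · obtain ⟨N, hN⟩ := hE.pow
      refine ⟨N, fun e' => ?_⟩
      rw [Submodule.mem_comap, map_smul]
      exact hN _
    · intro e' he'
      rw [Submodule.mem_comap]
      apply hE.sat
      intro i
      obtain ⟨N, hN⟩ := he' i
      refine ⟨N, ?_⟩
      rw [Submodule.mem_comap, map_smul] at hN
      exact hN
    · intro p hp hi
      obtain ⟨v, hv, w, hw, g, u, hg, hu, hgen, hdet⟩ := hE.loc p hp hi
      obtain ⟨v', hv'⟩ := hsurj v hv
      obtain ⟨w', hw'⟩ := hsurj w hw
      refine ⟨v', ?_, w', ?_, g, u, hg, hu, ?_, ?_⟩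
      · rw [Submodule.mem_comap, hv']
        exact hv
      · rw [Submodule.mem_comap, hw']
        exact hw
      · intro e' he'
        obtain ⟨a, b, hab⟩ := hgen _ he'
        refine ⟨a, b, chb_inj h _ _ ?_⟩
        rw [map_smul, hab, map_add, map_smul, map_smul, hv', hw']
      · have h1 : (Polynomial.X : Polynomial (Sx k)) * (v' 0 * w' 1 - v' 1 * w' 0) =
            Polynomial.X * (Polynomial.X ^ n * u) := by
          rw [← hv', ← hw'] at hdet
          rw [chb_apply0, chb_apply0, chb_apply1, chb_apply1, pow_succ] at hdet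
          linear_combination hdet
        exact mul_left_cancel₀ Polynomial.X_ne_zero h1
  · intro hT p hp hi
    obtain ⟨e, he, a, hea⟩ := hT p hp hi
    obtain ⟨e', he'⟩ := hsurj e he
    refine ⟨e', ?_, ?_⟩
    · rw [Submodule.mem_comap, he']
      exact he
    · by_contra hcon
      push Not at hcon
      have h00 := (hcon 0).1
      have h01 := (hcon 0).2
      have h10 := (hcon 1).1
      have key : (e 0).coeff 0 ∈ p ∧ (e 0).coeff 1 ∈ p ∧ (e 1).coeff 0 ∈ p ∧ (e 1).coeff 1 ∈ p := by
        rw [← he', chb_apply0]
        refine ⟨h00, h01, ?_, ?_⟩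
        · rw [chb_coeff, Polynomial.coeff_X_mul_zero, add_zero]
          exact p.mul_mem_left _ h00
        · rw [chb_coeff, Polynomial.coeff_X_mul]
          exact p.add_mem (p.mul_mem_left _ h01) h10
      obtain ⟨k1, k2, k3, k4⟩ := key
      fin_cases a
      · rcases hea with h | h
        · exact h k1
        · exact h k2
      · rcases hea with h | h
        · exact h k3
        · exact h k4
  · rw [Submodule.map_comap_eq_of_le]
    intro e he
    obtain ⟨e', he'⟩ := hsurj e he
    exact ⟨e', he'⟩

end Pool.LT2
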