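import Pool.Agent.Work.MP_03d391_lt2.Interface

/-! Block DIRC: the direction, for `c ≥ 1`. -/

set_option autoImplicit false

noncomputable section

namespace Pool.LT2

open MvPolynomial Pool.LTO

theorem DIRC_comp_hom {k : Type} [Field k] (m : ℤ) (d : ℕ) (hm : m = d) (f : Sx k) :
    (comp m f).IsHomogeneous d := by
  subst hm
  unfold comp
  rw [if_pos (Int.natCast_nonneg d), Int.toNat_natCast]
  exact homogeneousComponent_isHomogeneous d f

/-- reduced factors of two forms are forms -/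
theorem DIRC_red (hFAC : Stmt_FAC) {k : Type} [Field k] {f g : Sx k} {m n : ℕ}
    (hf : f.IsHomogeneous m) (hg : g.IsHomogeneous n) (f0 : f ≠ 0) (g0 : g ≠ 0) :
    ∃ (G f' g' : Sx k) (d i j : ℕ), f = G * f' ∧ g = G * g' ∧ IsRelPrime f' g' ∧ G ≠ 0 ∧
      f' ≠ 0 ∧ g' ≠ 0 ∧ f'.IsHomogeneous i ∧ g'.IsHomogeneous j ∧ d + i = m ∧ d + j = n := by
  obtain ⟨f', g', G, hrel, h1, h2⟩ :=
    UniqueFactorizationMonoid.exists_reduced_factors' f g g0
  have hG : G ≠ 0 := by
    rintro rfl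
    apply f0
    rw [← h1, zero_mul]
  have hf' : f' ≠ 0 := by
    rintro rfl
    apply f0
    rw [← h1, mul_zero]
  have hg' : g' ≠ 0 := by
    rintro rfl
    apply g0
    rw [← h2, mul_zero]
  obtain ⟨d, i, hd, hi, hdi⟩ := hFAC k G f' m (by rw [h1]; exact hf) (by rw [h1]; exact f0)
  obtain ⟨d', j, hd', hj, hdj⟩ := hFAC k G g' n (by rw [h2]; exact hg) (by rw [h2]; exact g0)
  have hdd : d = d' := hd.inj_right hd' hG
  subst hdd
  exact ⟨G, f', g', d, i, j, h1.symm, h2.symm, hrel, hG, hf', hg', hi, hj, hdi, hdj⟩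

/-- a form of positive degree has constant coefficient zero -/
theorem DIRC_cc {k : Type} [Field k] {f : Sx k} {n : ℕ} (hf : f.IsHomogeneous n) (hn : n ≠ 0) :
    constantCoeff f = 0 := by
  rw [constantCoeff_eq]
  apply hf.coeff_eq_zero
  intro h
  apply hn
  rw [← h]
  simp

/-- a nonzero form of degree zero is a unit -/
theorem DIRC_unit {k : Type} [Field k] {f : Sx k} (hf : f.IsHomogeneous 0) (f0 : f ≠ 0) :
    IsUnit f := by
  have h1 : f.totalDegree = 0 := Nat.le_zero.mp hf.totalDegree_le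
  have h2 := totalDegree_eq_zero_iff_eq_C.mp h1
  have h3 : coeff 0 f ≠ 0 := by
    intro h
    apply f0
    rw [h2, h, C_0]
  rw [h2]
  exact (IsUnit.mk0 _ h3).map C

theorem DIRC_alg0 {R : Type} [CommRing R] {e00 e01 e10 e11 z00 z01 z10 z11 : R}
    (h0 : e00 * z10 - e10 * z00 = 0)
    (h1 : e00 * z11 + e01 * z10 - (e10 * z01 + e11 * z00) = 0) :
    z00 ^ 2 * e11 = z00 * z10 * e01 - (z01 * z10 - z00 * z11) * e00 := by
  linear_combination (-z00) * h1 + z01 * h0

theorem DIRC_alg1 {R : Type} [CommRing R] [IsDomain R] {e00 e01 e11 b D q G B D' N M : R}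
    (hb : b = G * B) (hD : D = G * D') (hG : G ≠ 0) (hB : B ≠ 0)
    (h : b ^ 2 * e11 = b * D * e01 - q * e00) (hq : N * q = M * (b * D)) :
    B * N * e11 = D' * (N * e01 - M * e00) := by
  have hc : G ^ 2 * B ≠ 0 := mul_ne_zero (pow_ne_zero 2 hG) hB
  apply mul_left_cancel₀ hc
  subst hb hD
  linear_combination N * h - e00 * hq

/-- `r0` and `r1` -/
theorem DIRC_sit (hDET : Stmt_DETC) {k : Type} [Field k] {c n : ℕ}
    {E : Submodule (Polynomial (Sx k)) (Fr k)} (hn : 1 ≤ n) (hE : BundleC k c n E)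
    (hT : TypeLeOne k E) {z : Fr k} (hz : z ∈ E) {G B D' N M : Sx k}
    (hb : (z 0).coeff 0 = G * B) (hD : (z 1).coeff 0 = G * D') (hG : G ≠ 0) (hB : B ≠ 0)
    (hrel : IsRelPrime B D') (hq : N * Qd z = M * ((z 0).coeff 0 * (z 1).coeff 0)) :
    Sit k c n E B D' N M := by
  have key0 : ∀ e ∈ E, (e 0).coeff 0 * (z 1).coeff 0 - (e 1).coeff 0 * (z 0).coeff 0 = 0 := by
    intro e he
    have h := hDET k c n E hE e he z hz 0 (by omega)
    rw [Polynomial.coeff_sub, Polynomial.mul_coeff_zero, Polynomial.mul_coeff_zero] at h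
    exact h
  refine ⟨hn, hE, hT, hrel, hB, ?_, ?_⟩
  · intro e he
    have h := key0 e he
    rw [hb, hD] at h
    apply mul_left_cancel₀ hG
    linear_combination (-1 : Sx k) * h
  · intro h2 e he
    have h := hDET k c n E hE e he z hz 1 (by omega)
    rw [Polynomial.coeff_sub, Polynomial.mul_coeff_one, Polynomial.mul_coeff_one] at h
    have h3 := DIRC_alg0 (key0 e he) h
    exact DIRC_alg1 hb hD hG hB h3 hq

/-- `B` is a unit -/
theorem DIRC_isUnit (hDET : Stmt_DETC) (hFAC : Stmt_FAC) (hKRU : Stmt_KRU) (hCA : Stmt_CA)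
    (hRLA : Stmt_RLA) (hSF : Stmt_SF) {k : Type} [Field k] [CharZero k] {c n m : ℕ}
    {E : Submodule (Polynomial (Sx k)) (Fr k)} (hc : 1 ≤ c) (hn : 1 ≤ n)
    (hE : BundleC k c n E) (hT : TypeLeOne k E) {z : Fr k} (hz : z ∈ E)
    (hz0 : ∀ j, ((z 0).coeff j).IsHomogeneous m) (hz1 : ∀ j, ((z 1).coeff j).IsHomogeneous (m + c))
    (b0 : (z 0).coeff 0 ≠ 0) (D0 : (z 1).coeff 0 ≠ 0) {G B D' : Sx k} {d i j : ℕ}
    (hb : (z 0).coeff 0 = G * B) (hD : (z 1).coeff 0 = G * D') (hrel : IsRelPrime B D')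
    (hG : G ≠ 0) (hB : B ≠ 0) (hBi : B.IsHomogeneous i)
    (hDj : D'.IsHomogeneous j) (hdi : d + i = m) (hdj : d + j = m + c) : IsUnit B := by
  have hj : j = i + c := by omega
  subst hj
  by_cases hq : Qd z = 0
  · have hS : Sit k c n E B D' 1 0 :=
      DIRC_sit hDET hn hE hT hz hb hD hG hB hrel (by rw [hq, mul_zero, zero_mul])
    by_contra hnu
    obtain ⟨π, hπ, hπB⟩ := WfDvdMonoid.exists_irreducible_factor hnu hB
    have hπp : Prime π := hπ.prime
    obtain ⟨t, ht⟩ := hπB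
    obtain ⟨i1, i2, h1, -, -⟩ := hFAC k π t i (by rw [← ht]; exact hBi) (by rw [← ht]; exact hB)
    have hi1 : i1 ≠ 0 := by
      rintro rfl
      exact hπp.not_unit (DIRC_unit h1 hπp.ne_zero)
    obtain ⟨p, hp, hπ', hD'', hX⟩ := hKRU k π D' (DIRC_cc h1 hi1) (DIRC_cc hDj (by omega))
    have h2 := hCA k c n E B D' 1 0 hS π p hπp ⟨t, ht⟩ hp hX hπ' hD''
    exact hp.ne_top ((Ideal.eq_top_iff_one p).mpr h2)
  · have hqh : (Qd z).IsHomogeneous (2 * m + c) := by
      have e1 : m + (m + c) = 2 * m + c := by ring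
      unfold Qd
      rw [← e1]
      exact ((hz0 1).mul (hz1 0)).sub ((hz0 0).mul (hz1 1))
    have hbD : ((z 0).coeff 0 * (z 1).coeff 0).IsHomogeneous (2 * m + c) := by
      have e1 : m + (m + c) = 2 * m + c := by ring
      rw [← e1]
      exact (hz0 0).mul (hz1 0)
    obtain ⟨G2, N, M, d2, i2, j2, e1, e2, hNM, hG2, hN, hM, hNi, hMj, f1, f2⟩ :=
      DIRC_red hFAC hbD hqh (mul_ne_zero b0 D0) hq
    have hij : j2 = i2 := by omega
    subst hij
    have hS : Sit k c n E B D' N M := by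
      refine DIRC_sit hDET hn hE hT hz hb hD hG hB hrel ?_
      rw [e1, e2]
      ring
    have hR := hRLA k c n m E hc hn hE hT z hz b0 D0 hq (hz0 0) (hz1 0) hqh
    have hioG : (io G : Kx k) ≠ 0 := by
      rw [Ne, FaithfulSMul.algebraMap_eq_zero_iff (Sx k) (Kx k)]
      exact hG
    have hioG2 : (io G2 : Kx k) ≠ 0 := by
      rw [Ne, FaithfulSMul.algebraMap_eq_zero_iff (Sx k) (Kx k)]
      exact hG2
    have hR2 : Rel (io D' / io B) (io N / io M) := by
      have g1 : (io ((z 1).coeff 0) / io ((z 0).coeff 0) : Kx k) = io D' / io B := by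
        rw [hb, hD, map_mul, map_mul, mul_div_mul_left _ _ hioG]
      have g2 : (io ((z 0).coeff 0 * (z 1).coeff 0) / io (Qd z) : Kx k) = io N / io M := by
        rw [e1, e2, map_mul, map_mul, mul_div_mul_left _ _ hioG2]
      rw [g1, g2] at hR
      exact hR
    exact hSF k c n i j2 E B D' N M hc hS hBi hDj hNi hMj hNM hN hM hR2

theorem p_DIRC (hDET : Stmt_DETC) (hFAC : Stmt_FAC) (hKRU : Stmt_KRU) (hCA : Stmt_CA)
    (hRLA : Stmt_RLA) (hSF : Stmt_SF) : Stmt_DIRC := by
  intro k _ _ c n E hc hn hE hT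
  by_cases hall : ∀ e ∈ E, (e 0).coeff 0 = 0
  · exact Or.inl hall
  · right
    push Not at hall
    obtain ⟨e, he, hea⟩ := hall
    obtain ⟨m, hm⟩ : ∃ m, homogeneousComponent m ((e 0).coeff 0) ≠ 0 := by
      by_contra hcon
      push Not at hcon
      apply hea
      rw [← sum_homogeneousComponent ((e 0).coeff 0)]
      exact Finset.sum_eq_zero (fun m _ => hcon m)
    obtain ⟨z, hz, hze⟩ := hE.hom e he (m : ℤ)
    have hz0 : ∀ j, ((z 0).coeff j).IsHomogeneous m := by
      intro j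
      rw [(hze j).1]
      exact DIRC_comp_hom _ m rfl _
    have hz1 : ∀ j, ((z 1).coeff j).IsHomogeneous (m + c) := by
      intro j
      rw [(hze j).2]
      exact DIRC_comp_hom _ (m + c) (by push_cast; ring) _
    have b0 : (z 0).coeff 0 ≠ 0 := by
      rw [(hze 0).1]
      unfold comp
      rw [if_pos (Int.natCast_nonneg m), Int.toNat_natCast]
      exact hm
    have key0 : ∀ e ∈ E, (e 0).coeff 0 * (z 1).coeff 0 = (e 1).coeff 0 * (z 0).coeff 0 := by
      intro e he
      have h := hDET k c n E hE e he z hz 0 (by omega)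
      rw [Polynomial.coeff_sub, Polynomial.mul_coeff_zero, Polynomial.mul_coeff_zero] at h
      exact sub_eq_zero.mp h
    by_cases D0 : (z 1).coeff 0 = 0
    · refine ⟨0, isHomogeneous_zero _ _ _, ?_⟩
      intro x hx
      have h := key0 x hx
      rw [D0, mul_zero] at h
      rw [zero_mul]
      exact (mul_eq_zero.mp h.symm).resolve_right b0
    · obtain ⟨G, B, D', d, i, j, hb, hD, hrel, hG, hB, hD', hBi, hDj, hdi, hdj⟩ :=
        DIRC_red hFAC (hz0 0) (hz1 0) b0 D0
      have hU := DIRC_isUnit hDET hFAC hKRU hCA hRLA hSF hc hn hE hT hz hz0 hz1 b0 D0 hb hD hrel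
        hG hB hBi hDj hdi hdj
      obtain ⟨u, hu⟩ := isUnit_iff_exists_inv.mp hU
      have hbh : (z 0).coeff 0 * (u * D') = (z 1).coeff 0 := by
        rw [hb, hD]
        linear_combination (G * D') * hu
      have hh : (u * D').IsHomogeneous c := by
        obtain ⟨i', j', h1, h2, h3⟩ := hFAC k ((z 0).coeff 0) (u * D') (m + c)
          (by rw [hbh]; exact hz1 0) (by rw [hbh]; exact D0)
        have h4 : i' = m := h1.inj_right (hz0 0) b0
        have h5 : j' = c := by omega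
        rw [← h5]
        exact h2
      refine ⟨u * D', hh, ?_⟩
      intro x hx
      have h := key0 x hx
      apply mul_right_cancel₀ b0
      rw [← h, ← hbh]
      ring

end Pool.LT2
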