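import Pool.Agent.Work.MP_03d391_lt2.Interface

/-!
# Block FAC of THEOREM T2: factors of forms are forms
-/

set_option autoImplicit false

noncomputable section

namespace Pool.LT2

open MvPolynomial Pool.LTO

/-- The scaling `x_i ↦ x_i T`. -/
def FAC_phi (k : Type) [Field k] : Sx k →ₐ[k] Polynomial (Sx k) :=
  aeval fun i => Polynomial.C (X i : Sx k) * Polynomial.X

theorem FAC_phi_monomial {k : Type} [Field k] (d : Fin 4 →₀ ℕ) (a : k) :
    FAC_phi k (monomial d a) = Polynomial.monomial d.degree (monomial d a : Sx k) := by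
  rw [FAC_phi, aeval_monomial, ← Polynomial.C_mul_X_pow_eq_monomial, monomial_eq (s := d) (a := a)]
  rw [map_mul, Finsupp.prod, Finsupp.prod, map_prod, mul_assoc]
  congr 1
  rw [Finsupp.degree_apply, ← Finset.prod_pow_eq_pow_sum, ← Finset.prod_mul_distrib]
  refine Finset.prod_congr rfl fun i _ => ?_
  rw [mul_pow, map_pow]

theorem FAC_coeff {k : Type} [Field k] (f : Sx k) (j : ℕ) :
    (FAC_phi k f).coeff j = homogeneousComponent j f := by
  induction f using MvPolynomial.induction_on' with
  | monomial d a =>
    rw [FAC_phi_monomial, Polynomial.coeff_monomial,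
      homogeneousComponent_of_mem ((mem_homogeneousSubmodule _ _).2 (isHomogeneous_monomial a rfl))]
    by_cases h : d.degree = j
    · rw [if_pos h, if_pos h.symm]
    · rw [if_neg h, if_neg fun h' => h h'.symm]
  | add p q hp hq => rw [map_add, Polynomial.coeff_add, hp, hq, map_add]

theorem FAC_mono {k : Type} [Field k] {f : Sx k} {i : ℕ} (h : (FAC_phi k f).natTrailingDegree = i)
    (h' : (FAC_phi k f).natDegree = i) : f.IsHomogeneous i := by
  have h1 : f = homogeneousComponent i f := by
    conv_lhs => rw [← sum_homogeneousComponent f]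
    rw [Finset.sum_eq_single i]
    · intro j _ hj
      rw [← FAC_coeff]
      rcases lt_or_gt_of_ne hj with hlt | hgt
      · exact Polynomial.coeff_eq_zero_of_lt_natTrailingDegree (h ▸ hlt)
      · exact Polynomial.coeff_eq_zero_of_natDegree_lt (h' ▸ hgt)
    · intro hi
      apply homogeneousComponent_eq_zero
      rw [Finset.mem_range, not_lt] at hi
      omega
  rw [h1]
  exact homogeneousComponent_isHomogeneous i f

theorem p_FAC : Stmt_FAC := by
  intro k _ f g n hfg h0
  have hmul : FAC_phi k f * FAC_phi k g = Polynomial.monomial n (f * g) := by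
    rw [← map_mul]
    ext1 j
    rw [FAC_coeff, homogeneousComponent_of_mem ((mem_homogeneousSubmodule _ _).2 hfg), Polynomial.coeff_monomial]
    by_cases h : n = j
    · rw [if_pos h.symm, if_pos h]
    · rw [if_neg fun h' => h h'.symm, if_neg h]
  have hne : FAC_phi k f * FAC_phi k g ≠ 0 := by
    rw [hmul]
    exact fun h => h0 ((Polynomial.monomial_eq_zero_iff _ _).1 h)
  have hf : FAC_phi k f ≠ 0 := left_ne_zero_of_mul hne
  have hg : FAC_phi k g ≠ 0 := right_ne_zero_of_mul hne
  have e1 : (FAC_phi k f).natDegree + (FAC_phi k g).natDegree = n := by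
    rw [← Polynomial.natDegree_mul hf hg, hmul, Polynomial.natDegree_monomial_eq n h0]
  have e2 : (FAC_phi k f).natTrailingDegree + (FAC_phi k g).natTrailingDegree = n := by
    rw [← Polynomial.natTrailingDegree_mul hf hg, hmul, Polynomial.natTrailingDegree_monomial h0]
  have l1 := Polynomial.natTrailingDegree_le_natDegree (FAC_phi k f)
  have l2 := Polynomial.natTrailingDegree_le_natDegree (FAC_phi k g)
  refine ⟨(FAC_phi k f).natDegree, (FAC_phi k g).natDegree, FAC_mono ?_ rfl, FAC_mono ?_ rfl, e1⟩
  · omega
  · omega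

end Pool.LT2
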