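import Pool.Agent.Work.MP_03d391_lt2.Interface

/-! # MP_03d391_ag, THEOREM T2: block FINC -/

set_option autoImplicit false

noncomputable section

namespace Pool.LT2

open MvPolynomial Pool.LTO

theorem FINC_comp_zero {k : Type} [Field k] (m : ℤ) : comp m (0 : Sx k) = 0 := by
  unfold comp
  split_ifs
  · simp
  · rfl

theorem FINC_comp_mul {k : Type} [Field k] (c : ℕ) (h : Sx k) (hh : h.IsHomogeneous c) (m : ℤ)
    (f : Sx k) (hf : comp m f = f) : comp (m + c) (h * f) = h * f := by
  by_cases hm : 0 ≤ m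
  · have hf' : f.IsHomogeneous m.toNat := by
      unfold comp at hf
      rw [if_pos hm] at hf
      rw [← hf]
      exact homogeneousComponent_isHomogeneous _ _
    have h1 : (h * f).IsHomogeneous (c + m.toNat) := hh.mul hf'
    unfold comp
    have h2 : (0 : ℤ) ≤ m + c := by omega
    rw [if_pos h2]
    have h3 : (m + (c : ℤ)).toNat = c + m.toNat := by omega
    rw [h3]
    rw [homogeneousComponent_of_mem ((mem_homogeneousSubmodule _ _).mpr h1)]
    simp
  · have hf' : f = 0 := by
      unfold comp at hf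
      rw [if_neg hm] at hf
      exact hf.symm
    rw [hf', mul_zero]
    exact FINC_comp_zero _

theorem FINC_comp_add {k : Type} [Field k] (m : ℤ) (f g : Sx k) :
    comp m (f + g) = comp m f + comp m g := by
  unfold comp
  split_ifs
  · exact map_add _ _ _
  · simp

theorem FINC_Ta {k : Type} [Field k] (c : ℕ) (v : Fr k) (hv : Homog c v) : Homog c (Ta v) := by
  obtain ⟨m, hm⟩ := hv
  refine ⟨m, fun j => ⟨?_, ?_⟩⟩
  · show comp m ((Polynomial.X * v 0).coeff j) = (Polynomial.X * v 0).coeff j
    cases j with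
    | zero =>
      rw [Polynomial.coeff_X_mul_zero]
      exact FINC_comp_zero _
    | succ j =>
      rw [Polynomial.coeff_X_mul]
      exact (hm j).1
  · show comp (m + c) ((v 1).coeff j) = (v 1).coeff j
    exact (hm j).2

theorem FINC_Tb {k : Type} [Field k] (c : ℕ) (h : Sx k) (hh : h.IsHomogeneous c) (v : Fr k)
    (hv : Homog c v) : Homog c (Tb h v) := by
  obtain ⟨m, hm⟩ := hv
  refine ⟨m, fun j => ⟨?_, ?_⟩⟩
  · show comp m ((v 0).coeff j) = (v 0).coeff j
    exact (hm j).1
  · show comp (m + c) ((Polynomial.C h * v 0 + Polynomial.X * v 1).coeff j) =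
      (Polynomial.C h * v 0 + Polynomial.X * v 1).coeff j
    rw [Polynomial.coeff_add, Polynomial.coeff_C_mul, FINC_comp_add,
      FINC_comp_mul c h hh m _ (hm j).1]
    congr 1
    cases j with
    | zero =>
      rw [Polynomial.coeff_X_mul_zero]
      exact FINC_comp_zero _
    | succ j =>
      rw [Polynomial.coeff_X_mul]
      exact (hm j).2

theorem FINC_one {k : Type} [Field k] (c : ℕ) : Homog c (![1, 0] : Fr k) := by
  refine ⟨0, fun j => ⟨?_, ?_⟩⟩
  · show comp 0 ((1 : Polynomial (Sx k)).coeff j) = (1 : Polynomial (Sx k)).coeff j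
    rw [Polynomial.coeff_one]
    split_ifs with hj
    · unfold comp
      rw [if_pos le_rfl]
      have h1 : (1 : Sx k).IsHomogeneous 0 := isHomogeneous_one _ _
      rw [homogeneousComponent_of_mem ((mem_homogeneousSubmodule _ _).mpr h1)]
      simp
    · exact FINC_comp_zero _
  · show comp (0 + c) ((0 : Polynomial (Sx k)).coeff j) = (0 : Polynomial (Sx k)).coeff j
    rw [Polynomial.coeff_zero]
    exact FINC_comp_zero _

theorem FINC_two {k : Type} [Field k] (c : ℕ) : Homog c (![0, 1] : Fr k) := by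
  refine ⟨-c, fun j => ⟨?_, ?_⟩⟩
  · show comp (-c) ((0 : Polynomial (Sx k)).coeff j) = (0 : Polynomial (Sx k)).coeff j
    rw [Polynomial.coeff_zero]
    exact FINC_comp_zero _
  · show comp (-c + c) ((1 : Polynomial (Sx k)).coeff j) = (1 : Polynomial (Sx k)).coeff j
    rw [neg_add_cancel, Polynomial.coeff_one]
    split_ifs with hj
    · unfold comp
      rw [if_pos le_rfl]
      have h1 : (1 : Sx k).IsHomogeneous 0 := isHomogeneous_one _ _
      rw [homogeneousComponent_of_mem ((mem_homogeneousSubmodule _ _).mpr h1)]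
      simp
    · exact FINC_comp_zero _

theorem p_FINC (hDIRC : Stmt_DIRC) (hZERC : Stmt_ZERC) (hCHA : Stmt_CHA) (hCHB : Stmt_CHB) :
    Stmt_FINC := by
  intro k _ _ c n
  induction n with
  | zero =>
    intro E _ hE _
    refine ⟨![1, 0], ![0, 1], FINC_one c, FINC_two c, ?_⟩
    rw [hZERC k c E hE]
    symm
    rw [eq_top_iff]
    intro e _
    rw [Submodule.mem_span_pair]
    refine ⟨e 0, e 1, ?_⟩
    funext a
    fin_cases a
    · simp
    · simp
  | succ n ih =>
    intro E hc hE hT
    rcases hDIRC k c (n + 1) E hc (by omega) hE hT with h0 | ⟨h, hh, hhE⟩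
    · obtain ⟨hB, hTy, hEq⟩ := hCHA k c n E hE h0
      obtain ⟨v, w, hv, hw, hvw⟩ := ih _ hc hB (hTy hT)
      refine ⟨Ta v, Ta w, FINC_Ta c v hv, FINC_Ta c w hw, ?_⟩
      rw [hEq, hvw, Submodule.map_span, Set.image_pair]
    · obtain ⟨hB, hTy, hEq⟩ := hCHB k c n E h hh hE hhE
      obtain ⟨v, w, hv, hw, hvw⟩ := ih _ hc hB (hTy hT)
      refine ⟨Tb h v, Tb h w, FINC_Tb c h hh v hv, FINC_Tb c h hh w hw, ?_⟩
      rw [hEq, hvw, Submodule.map_span, Set.image_pair]

end Pool.LT2
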