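import Pool.Agent.Work.MP_03d391_lt2.Interface

/-!
Block KO.
-/

set_option autoImplicit false

noncomputable section

namespace Pool.LT2

open MvPolynomial Pool.LTO

theorem p_KO (h1 : Stmt_KZ) : Stmt_KO := by
  intro k _ B D' N M p hB hNM hN hM hrel hp hNp hMp a c1 c2 hc1 hc2 heq
  obtain ⟨J, s, W, hs, hW⟩ := hrel
  set la : Kx k := io N / io M with hla
  set y : Kx k := io D' / io B with hy
  have hinj : Function.Injective (io : Sx k →+* Kx k) := IsFractionRing.injective _ _
  have hB' : (io B : Kx k) ≠ 0 := fun h => hB (hinj (by rw [h, map_zero]))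
  have hM' : (io M : Kx k) ≠ 0 := fun h => hM (hinj (by rw [h, map_zero]))
  have heq' : (io a : Kx k) * io B * io N = io D' * (io c1 * io N - io c2 * io M) := by
    have := congrArg (io : Sx k →+* Kx k) heq
    simpa only [map_mul, map_sub] using this
  have hkey : (io a : Kx k) * la = y * (io c1 * la - io c2) := by
    rw [hla, hy]
    field_simp
    linear_combination heq'
  let T1 : Polynomial (Sx k) := s.map (MvPolynomial.C : k →+* Sx k) * (Polynomial.C a * Polynomial.X) ^ (J + 1)
  let T2 : Polynomial (Sx k) := ∑ j ∈ Finset.range (J + 1), W j * (Polynomial.C a * Polynomial.X) ^ j *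
    (Polynomial.C c1 * Polynomial.X - Polynomial.C c2) ^ (J + 1 - j)
  have haX : Polynomial.aeval la (Polynomial.C a * Polynomial.X : Polynomial (Sx k)) = y * (io c1 * la - io c2) := by
    rw [map_mul, Polynomial.aeval_C, Polynomial.aeval_X]
    exact hkey
  have hcX : Polynomial.aeval la (Polynomial.C c1 * Polynomial.X - Polynomial.C c2 : Polynomial (Sx k)) =
      io c1 * la - io c2 := by
    rw [map_sub, map_mul, Polynomial.aeval_C, Polynomial.aeval_C, Polynomial.aeval_X]
  have hsm : Polynomial.aeval la (s.map (MvPolynomial.C : k →+* Sx k)) = Polynomial.aeval la s := by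
    rw [← MvPolynomial.algebraMap_eq]
    exact Polynomial.aeval_map_algebraMap (Sx k) la s
  have hP : Polynomial.aeval la (T1 - T2) = 0 := by
    rw [map_sub, sub_eq_zero]
    show Polynomial.aeval la (s.map (MvPolynomial.C : k →+* Sx k) * (Polynomial.C a * Polynomial.X) ^ (J + 1)) =
      Polynomial.aeval la (∑ j ∈ Finset.range (J + 1), W j * (Polynomial.C a * Polynomial.X) ^ j *
        (Polynomial.C c1 * Polynomial.X - Polynomial.C c2) ^ (J + 1 - j))
    rw [map_mul, map_pow, haX, hsm, mul_pow, ← mul_assoc, hW, Finset.sum_mul, map_sum]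
    apply Finset.sum_congr rfl
    intro j hj
    have hj' : j < J + 1 := Finset.mem_range.1 hj
    rw [map_mul, map_mul, map_pow, map_pow, haX, hcX, mul_pow]
    have h2 : (io c1 * la - io c2 : Kx k) ^ (J + 1) =
        (io c1 * la - io c2) ^ j * (io c1 * la - io c2) ^ (J + 1 - j) := by
      rw [← pow_add]
      congr 1
      omega
    rw [h2]
    ring
  have hcoef := h1 k N M p hNM hM hp hNp hMp (T1 - T2) hP
  have hT2 : T2 ∈ Ideal.map (Polynomial.C : Sx k →+* Polynomial (Sx k)) p := by
    apply Ideal.sum_mem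
    intro j hj
    have hj' : j < J + 1 := Finset.mem_range.1 hj
    apply Ideal.mul_mem_left
    have h3 : (Polynomial.C c1 * Polynomial.X - Polynomial.C c2 : Polynomial (Sx k)) ∈
        Ideal.map (Polynomial.C : Sx k →+* Polynomial (Sx k)) p :=
      Ideal.sub_mem _ (Ideal.mul_mem_right _ _ (Ideal.mem_map_of_mem _ hc1)) (Ideal.mem_map_of_mem _ hc2)
    exact Ideal.pow_mem_of_mem _ h3 _ (by omega)
  have hT1 : T1 ∈ Ideal.map (Polynomial.C : Sx k →+* Polynomial (Sx k)) p := by
    have h3 : T1 - T2 ∈ Ideal.map (Polynomial.C : Sx k →+* Polynomial (Sx k)) p :=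
      Ideal.mem_map_C_iff.2 hcoef
    have h4 := Ideal.add_mem _ h3 hT2
    rwa [sub_add_cancel] at h4
  have hs0 : s ≠ 0 := by
    rintro rfl
    exact hs (by simp)
  obtain ⟨i, hi⟩ : ∃ i, s.coeff i ≠ 0 := by
    by_contra hcon
    apply hs0
    ext i
    by_contra hne
    exact hcon ⟨i, by simpa using hne⟩
  have h5 := Ideal.mem_map_C_iff.1 hT1 (i + (J + 1))
  have h6 : T1.coeff (i + (J + 1)) = MvPolynomial.C (s.coeff i) * a ^ (J + 1) := by
    show (s.map (MvPolynomial.C : k →+* Sx k) * (Polynomial.C a * Polynomial.X) ^ (J + 1)).coeff (i + (J + 1)) = _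
    rw [mul_pow, ← Polynomial.C_pow, mul_left_comm, Polynomial.coeff_C_mul, Polynomial.coeff_mul_X_pow,
      Polynomial.coeff_map]
    ring
  rw [h6] at h5
  have hu : IsUnit (MvPolynomial.C (s.coeff i) : Sx k) := (IsUnit.mk0 _ hi).map _
  rcases hp.mem_or_mem h5 with h7 | h7
  · exact absurd (Ideal.eq_top_of_isUnit_mem _ h7 hu) hp.ne_top
  · exact hp.mem_of_pow_mem _ h7

end Pool.LT2
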