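import Pool.Agent.Work.MP_03d391_lt2.Interface

/-!
# MP_03d391_ag, THEOREM T2: block KRA (Krull intersection).
-/

set_option autoImplicit false

noncomputable section

namespace Pool.LT2

open MvPolynomial Pool.LTO

/-- The image of `S` lies in the algebra `A'`. -/
theorem KRA_io {k : Type} [Field k] (u la : Kx k) (f : Sx k) :
    io f ∈ Algebra.adjoin (IntermediateField.adjoin k {la}) (Set.range (fun i : Fin 4 => io (X i : Sx k)) ∪ {u}) := by
  induction f using MvPolynomial.induction_on with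
  | C a =>
    have h : (io (C a : Sx k) : Kx k) = algebraMap (IntermediateField.adjoin k {la}) (Kx k)
        (algebraMap k (IntermediateField.adjoin k {la}) a) := by
      rw [← IsScalarTower.algebraMap_apply k (IntermediateField.adjoin k {la}) (Kx k)]
      rw [IsScalarTower.algebraMap_apply k (Sx k) (Kx k)]
      rfl
    rw [h]
    exact Subalgebra.algebraMap_mem _ _
  | add p q hp hq =>
    rw [map_add]
    exact Subalgebra.add_mem _ hp hq
  | mul_X p i hp =>
    rw [map_mul]
    exact Subalgebra.mul_mem _ hp (Algebra.subset_adjoin (Or.inl ⟨i, rfl⟩))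

/-- The inverse of `la` lies in the algebra `A'`. -/
theorem KRA_inv {k : Type} [Field k] (u la : Kx k) :
    la⁻¹ ∈ Algebra.adjoin (IntermediateField.adjoin k {la}) (Set.range (fun i : Fin 4 => io (X i : Sx k)) ∪ {u}) := by
  have h1 : la ∈ IntermediateField.adjoin k {la} := IntermediateField.mem_adjoin_simple_self k la
  have h2 : la⁻¹ ∈ IntermediateField.adjoin k {la} := inv_mem h1
  have h3 := Subalgebra.algebraMap_mem
    (Algebra.adjoin (IntermediateField.adjoin k {la}) (Set.range (fun i : Fin 4 => io (X i : Sx k)) ∪ {u})) ⟨la⁻¹, h2⟩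
  exact h3

/-- Elements of `Sp` are divisible by a high power of `u`. -/
theorem KRA_div {k : Type} [Field k] (c l t : ℕ) (u w la : Kx k) (hc : 1 ≤ c) (hw : w = u * la⁻¹)
    (x : Kx k) (hx : x ∈ Sp u w c l (l + c * t)) :
    ∃ y ∈ Algebra.adjoin (IntermediateField.adjoin k {la}) (Set.range (fun i : Fin 4 => io (X i : Sx k)) ∪ {u}),
      x = u ^ (l + c * t + t) * y := by
  unfold Sp at hx
  induction hx using Submodule.span_induction with
  | mem x hx =>
    obtain ⟨i, j, hij, rfl⟩ := hx
    have h1 : (l + c * t + t) * c ≤ (i + j) * c := by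
      have : (l + c * t) * (c + 1) = (l + c * t + t) * c + l := by ring
      omega
    have h2 : l + c * t + t ≤ i + j := Nat.le_of_mul_le_mul_right h1 (by omega)
    refine ⟨u ^ (i + j - (l + c * t + t)) * la⁻¹ ^ j, ?_, ?_⟩
    · have hu1 : u ∈ Algebra.adjoin (IntermediateField.adjoin k {la})
          (Set.range (fun i : Fin 4 => io (X i : Sx k)) ∪ {u}) :=
        Algebra.subset_adjoin (Set.mem_union_right _ (Set.mem_singleton u))
      exact Subalgebra.mul_mem _ (Subalgebra.pow_mem _ hu1 _) (Subalgebra.pow_mem _ (KRA_inv u la) _)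
    · have h3 : u ^ (i + j) = u ^ (l + c * t + t) * u ^ (i + j - (l + c * t + t)) := by
        rw [← pow_add, Nat.add_sub_cancel' h2]
      rw [← mul_assoc, ← h3, hw, mul_pow, pow_add, mul_assoc]
  | zero => exact ⟨0, Subalgebra.zero_mem _, by simp⟩
  | add x y _ _ hx hy =>
    obtain ⟨a, ha, rfl⟩ := hx
    obtain ⟨b, hb, rfl⟩ := hy
    exact ⟨a + b, Subalgebra.add_mem _ ha hb, by ring⟩
  | smul a x _ hx =>
    obtain ⟨b, hb, rfl⟩ := hx
    refine ⟨io a * b, Subalgebra.mul_mem _ (KRA_io u la a) hb, ?_⟩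
    rw [Algebra.smul_def]
    ring

theorem p_KRA : Stmt_KRA := by
  intro k _ c l u w la s' hc hu hw hs hM
  set A := Algebra.adjoin (IntermediateField.adjoin k {la}) (Set.range (fun i : Fin 4 => io (X i : Sx k)) ∪ {u}) with hA
  have hfin : (Set.range (fun i : Fin 4 => (io (X i : Sx k) : Kx k)) ∪ {u}).Finite :=
    (Set.finite_range _).union (Set.finite_singleton u)
  have hfg : A.FG := by
    rw [Subalgebra.fg_def]
    exact ⟨_, hfin, rfl⟩
  have : Algebra.FiniteType (IntermediateField.adjoin k {la}) A := (Subalgebra.fg_iff_finiteType A).mp hfg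
  have : IsNoetherianRing A := Algebra.FiniteType.isNoetherianRing (IntermediateField.adjoin k {la}) A
  have huA : u ∈ A := Algebra.subset_adjoin (Or.inr rfl)
  have hsA : io s' ∈ A := KRA_io u la s'
  have hs0 : io s' ≠ (0 : Kx k) := by
    intro h
    exact hs ((map_eq_zero_iff (algebraMap (Sx k) (Kx k)) (IsFractionRing.injective (Sx k) (Kx k))).mp h)
  have hmem : ∀ t : ℕ, (⟨io s', hsA⟩ : A) ∈ (Ideal.span {(⟨u, huA⟩ : A)}) ^ t := by
    intro t
    obtain ⟨y, hy, hxy⟩ := KRA_div c l t u w la hc hw _ (hM (l + c * t))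
    rw [Ideal.span_singleton_pow, Ideal.mem_span_singleton]
    refine ⟨⟨y, hy⟩, ?_⟩
    apply Subtype.ext
    change io s' = u ^ t * y
    have h1 : io s' * u ^ (l + c * t) = (u ^ t * y) * u ^ (l + c * t) := by
      rw [hxy, pow_add]
      ring
    exact mul_right_cancel₀ (pow_ne_zero _ hu) h1
  have htop : Ideal.span {(⟨u, huA⟩ : A)} = ⊤ := by
    by_contra hne
    have h1 := Ideal.iInf_pow_eq_bot_of_isDomain (Ideal.span {(⟨u, huA⟩ : A)}) hne
    have h2 : (⟨io s', hsA⟩ : A) ∈ (⨅ i : ℕ, (Ideal.span {(⟨u, huA⟩ : A)}) ^ i) := by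
      rw [Submodule.mem_iInf]
      exact hmem
    rw [h1] at h2
    have h3 : (⟨io s', hsA⟩ : A) = 0 := by simpa using h2
    exact hs0 (congrArg Subtype.val h3)
  have h1 : (1 : A) ∈ Ideal.span {(⟨u, huA⟩ : A)} := by rw [htop]; exact Submodule.mem_top
  rw [Ideal.mem_span_singleton] at h1
  obtain ⟨v, hv⟩ := h1
  have h2 : (1 : Kx k) = u * v.val := congrArg Subtype.val hv
  have h3 : u⁻¹ = v.val := inv_eq_of_mul_eq_one_right h2.symm
  rw [h3]
  exact v.property

end Pool.LT2
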