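import Pool.Agent.Work.MP_03d391_lt2.Interface

/-!
# KRB: from `A'` to `Rel`
-/

set_option autoImplicit false

noncomputable section

namespace Pool.LT2

open MvPolynomial Pool.LTO

section

variable {k : Type} [Field k]

/-- `x` is a quotient of a polynomial in `la` with coefficients in `S` by one with coefficients in `k` -/
def KRB_P (la x : Kx k) : Prop :=
  ∃ (s : Polynomial k) (V : Polynomial (Sx k)), Polynomial.aeval la s ≠ 0 ∧
    Polynomial.aeval la s * x = Polynomial.aeval la V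

theorem KRB_map (la : Kx k) (s : Polynomial k) :
    Polynomial.aeval la (s.map (algebraMap k (Sx k))) = Polynomial.aeval la s :=
  Polynomial.aeval_map_algebraMap _ _ _

theorem KRB_add (la x y : Kx k) (hx : KRB_P la x) (hy : KRB_P la y) : KRB_P la (x + y) := by
  obtain ⟨s, V, hs, hV⟩ := hx
  obtain ⟨t, U, ht, hU⟩ := hy
  refine ⟨s * t, t.map (algebraMap k (Sx k)) * V + s.map (algebraMap k (Sx k)) * U, ?_, ?_⟩
  · rw [map_mul]
    exact mul_ne_zero hs ht
  · rw [map_add, map_mul, map_mul, map_mul, KRB_map, KRB_map, ← hV, ← hU]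
    ring

theorem KRB_mul (la x y : Kx k) (hx : KRB_P la x) (hy : KRB_P la y) : KRB_P la (x * y) := by
  obtain ⟨s, V, hs, hV⟩ := hx
  obtain ⟨t, U, ht, hU⟩ := hy
  refine ⟨s * t, V * U, ?_, ?_⟩
  · rw [map_mul]
    exact mul_ne_zero hs ht
  · rw [map_mul, map_mul, ← hV, ← hU]
    ring

theorem KRB_alg (la : Kx k) (κ : IntermediateField.adjoin k {la}) :
    KRB_P la (algebraMap (IntermediateField.adjoin k {la}) (Kx k) κ) := by
  obtain ⟨x, hx⟩ := κ
  obtain ⟨r, s, h⟩ := (IntermediateField.mem_adjoin_simple_iff k x).1 hx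
  show KRB_P la x
  by_cases hs : Polynomial.aeval la s = 0
  · refine ⟨1, 0, ?_, ?_⟩
    · rw [map_one]
      exact one_ne_zero
    · rw [h, hs, div_zero, mul_zero, map_zero]
  · refine ⟨s, r.map (algebraMap k (Sx k)), hs, ?_⟩
    rw [KRB_map, h]
    field_simp

theorem KRB_io (la : Kx k) (f : Sx k) : KRB_P la (io f) := by
  refine ⟨1, Polynomial.C f, ?_, ?_⟩
  · rw [map_one]
    exact one_ne_zero
  · rw [map_one, one_mul, Polynomial.aeval_C]

/-- the algebra of all these elements -/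
def KRB_W (la : Kx k) : Subalgebra (IntermediateField.adjoin k {la}) (Kx k) where
  carrier := {x | KRB_P la x}
  mul_mem' := fun {x y} hx hy => KRB_mul la x y hx hy
  add_mem' := fun {x y} hx hy => KRB_add la x y hx hy
  algebraMap_mem' := fun κ => KRB_alg la κ

theorem KRB_common (la : Kx k) (x : ℕ → Kx k) (hx : ∀ j, KRB_P la (x j)) (n : ℕ) :
    ∃ s : Polynomial k, Polynomial.aeval la s ≠ 0 ∧ ∀ j < n, ∃ V : Polynomial (Sx k),
      Polynomial.aeval la s * x j = Polynomial.aeval la V := by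
  induction n with
  | zero =>
    refine ⟨1, ?_, fun j hj => absurd hj (Nat.not_lt_zero j)⟩
    rw [map_one]
    exact one_ne_zero
  | succ n ih =>
    obtain ⟨s, hs, h⟩ := ih
    obtain ⟨t, U, ht, hU⟩ := hx n
    refine ⟨s * t, ?_, fun j hj => ?_⟩
    · rw [map_mul]
      exact mul_ne_zero hs ht
    · rcases Nat.lt_succ_iff_lt_or_eq.1 hj with hj' | rfl
      · obtain ⟨V, hV⟩ := h j hj'
        refine ⟨t.map (algebraMap k (Sx k)) * V, ?_⟩
        rw [map_mul, map_mul, KRB_map, ← hV]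
        ring
      · refine ⟨s.map (algebraMap k (Sx k)) * U, ?_⟩
        rw [map_mul, map_mul, KRB_map, ← hU]
        ring

end

theorem p_KRB : Stmt_KRB := by
  intro k _ u la hu hmem
  have h1 : Algebra.adjoin (IntermediateField.adjoin k {la})
      (Set.range (fun i : Fin 4 => io (X i : Sx k)) ∪ {u}) ≤
      (Algebra.adjoin (KRB_W la) {u}).restrictScalars (IntermediateField.adjoin k {la}) := by
    refine Algebra.adjoin_le ?_
    rintro x (⟨i, rfl⟩ | hx)
    · have h2 : (io (X i : Sx k)) ∈ KRB_W la := KRB_io la (X i)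
      exact (Algebra.adjoin (KRB_W la) {u}).algebraMap_mem ⟨io (X i : Sx k), h2⟩
    · exact Algebra.subset_adjoin hx
  have h2 : u⁻¹ ∈ Algebra.adjoin (KRB_W la) {u} := h1 hmem
  rw [Algebra.adjoin_singleton_eq_range_aeval] at h2
  obtain ⟨f, hf⟩ := h2
  have hf' : ∑ j ∈ Finset.range (f.natDegree + 1), (f.coeff j : Kx k) * u ^ j = u⁻¹ := by
    rw [← hf]
    show _ = Polynomial.aeval u f
    rw [Polynomial.aeval_eq_sum_range]
    exact Finset.sum_congr rfl fun j _ => rfl
  obtain ⟨s, hs, hV⟩ := KRB_common la (fun j => (f.coeff j : Kx k)) (fun j => (f.coeff j).2)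
    (f.natDegree + 1)
  choose! V hV using hV
  refine ⟨f.natDegree, s, fun j => V (f.natDegree - j), hs, ?_⟩
  set J := f.natDegree with hJ
  have h3 : ∑ j ∈ Finset.range (J + 1), Polynomial.aeval la (V (J - j)) * u⁻¹ ^ j =
      ∑ j ∈ Finset.range (J + 1), Polynomial.aeval la (V j) * u⁻¹ ^ (J - j) := by
    rw [← Finset.sum_range_reflect]
    refine Finset.sum_congr rfl fun j hj => ?_
    have hj' : j ≤ J := Nat.lt_succ_iff.1 (Finset.mem_range.1 hj)
    have h4 : J + 1 - 1 - j = J - j := by omega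
    have h5 : J - (J - j) = j := by omega
    rw [h4, h5]
  rw [h3, pow_succ]
  rw [show Polynomial.aeval la s * (u⁻¹ ^ J * u⁻¹) = Polynomial.aeval la s * (u⁻¹ ^ J *
    ∑ j ∈ Finset.range (J + 1), (f.coeff j : Kx k) * u ^ j) by rw [hf']]
  rw [Finset.mul_sum, Finset.mul_sum]
  refine Finset.sum_congr rfl fun j hj => ?_
  have hj' : j < J + 1 := Finset.mem_range.1 hj
  have hj'' : j ≤ J := Nat.lt_succ_iff.1 hj'
  rw [← hV j hj']
  have h6 : u⁻¹ ^ J = u⁻¹ ^ (J - j) * u⁻¹ ^ j := by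
    rw [← pow_add, Nat.sub_add_cancel hj'']
  have h7 : u⁻¹ ^ j * u ^ j = 1 := by
    rw [← mul_pow, inv_mul_cancel₀ hu, one_pow]
  calc Polynomial.aeval la s * (u⁻¹ ^ J * ((f.coeff j : Kx k) * u ^ j))
      = Polynomial.aeval la s * (f.coeff j : Kx k) * u⁻¹ ^ (J - j) * (u⁻¹ ^ j * u ^ j) := by
        rw [h6]; ring
    _ = Polynomial.aeval la s * (f.coeff j : Kx k) * u⁻¹ ^ (J - j) := by rw [h7, mul_one]

end Pool.LT2
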