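import Pool.Agent.Work.MP_03d391_lt2.Interface

/-! Block KRU of THEOREM T2 (MP_03d391_ag). -/

set_option autoImplicit false

noncomputable section

namespace Pool.LT2

open MvPolynomial Pool.LTO

/-- The first `i` variables are replaced by zero. -/
def KRU_phi (k : Type) [Field k] (i : ℕ) : Sx k →ₐ[k] Sx k :=
  aeval (fun j : Fin 4 => if j.val < i then (0 : Sx k) else X j)

theorem KRU_phi_X (k : Type) [Field k] (i : ℕ) (j : Fin 4) :
    KRU_phi k i (X j) = if j.val < i then (0 : Sx k) else X j := by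
  simp [KRU_phi]

/-- The kernel. -/
def KRU_K (k : Type) [Field k] (i : ℕ) : Ideal (Sx k) := RingHom.ker (KRU_phi k i)

instance KRU_prime (k : Type) [Field k] (i : ℕ) : (KRU_K k i).IsPrime :=
  RingHom.ker_isPrime (KRU_phi k i)

theorem KRU_comp (k : Type) [Field k] (i : ℕ) (f : Sx k) :
    KRU_phi k (i + 1) (KRU_phi k i f) = KRU_phi k (i + 1) f := by
  have h : (KRU_phi k (i + 1)).comp (KRU_phi k i) = KRU_phi k (i + 1) := by
    refine MvPolynomial.algHom_ext fun j => ?_
    rw [AlgHom.comp_apply, KRU_phi_X, KRU_phi_X]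
    by_cases h1 : j.val < i
    · rw [if_pos h1, if_pos (Nat.lt_succ_of_lt h1), map_zero]
    · rw [if_neg h1, KRU_phi_X]
  exact congrArg (fun φ : Sx k →ₐ[k] Sx k => φ f) h

theorem KRU_lt (k : Type) [Field k] (i : ℕ) (hi : i < 4) : KRU_K k i < KRU_K k (i + 1) := by
  refine lt_of_le_of_ne ?_ ?_
  · intro f hf
    have h1 : KRU_phi k i f = 0 := hf
    show KRU_phi k (i + 1) f = 0
    rw [← KRU_comp, h1, map_zero]
  · intro h
    have h1 : (X ⟨i, hi⟩ : Sx k) ∈ KRU_K k (i + 1) := by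
      show KRU_phi k (i + 1) (X ⟨i, hi⟩) = 0
      rw [KRU_phi_X, if_pos (Nat.lt_succ_self i)]
    rw [← h] at h1
    have h2 : KRU_phi k i (X ⟨i, hi⟩) = 0 := h1
    rw [KRU_phi_X, if_neg (lt_irrefl i)] at h2
    exact X_ne_zero _ h2

theorem KRU_height (k : Type) [Field k] (i : ℕ) (hi : i ≤ 4) : (i : ℕ∞) ≤ (KRU_K k i).height := by
  induction i with
  | zero => simp
  | succ i ih =>
    have h1 := Ideal.height_add_one_le_of_lt_of_isPrime (KRU_lt k i (by omega))
    refine le_trans ?_ h1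
    push_cast
    exact add_le_add_left (ih (by omega)) 1

theorem KRU_le (k : Type) [Field k] (i : ℕ) (p : Ideal (Sx k)) (hp : ∀ j : Fin 4, (X j : Sx k) ∈ p) :
    KRU_K k i ≤ p := by
  intro f hf
  have h : (Ideal.Quotient.mkₐ k p).comp (KRU_phi k i) = Ideal.Quotient.mkₐ k p := by
    refine MvPolynomial.algHom_ext fun j => ?_
    rw [AlgHom.comp_apply, KRU_phi_X]
    by_cases h1 : j.val < i
    · rw [if_pos h1, map_zero]
      exact (Ideal.Quotient.eq_zero_iff_mem.2 (hp j)).symm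
    · rw [if_neg h1]
  have h1 : KRU_phi k i f = 0 := hf
  have h2 : Ideal.Quotient.mkₐ k p (KRU_phi k i f) = Ideal.Quotient.mkₐ k p f :=
    congrArg (fun φ : Sx k →ₐ[k] (Sx k ⧸ p) => φ f) h
  rw [h1, map_zero] at h2
  exact Ideal.Quotient.eq_zero_iff_mem.1 h2.symm

theorem p_KRU : Stmt_KRU := by
  intro k _ f g hf hg
  have hm : (RingHom.ker (constantCoeff : Sx k →+* k)).IsPrime := RingHom.ker_isPrime _
  have hle : Ideal.span {f, g} ≤ RingHom.ker (constantCoeff : Sx k →+* k) := by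
    rw [Ideal.span_le]
    rintro x (rfl | rfl)
    · exact hf
    · exact hg
  obtain ⟨p, hp, _⟩ := Ideal.exists_minimalPrimes_le hle
  have hpp : p.IsPrime := hp.1.1
  have hsp : Ideal.span {f, g} ≤ p := hp.1.2
  refine ⟨p, hpp, hsp (Ideal.subset_span (by simp)), hsp (Ideal.subset_span (by simp)), ?_⟩
  by_contra hcon
  have hcon2 : ∀ j : Fin 4, (X j : Sx k) ∈ p := fun j => by
    by_contra h
    exact hcon ⟨j, h⟩
  have h1 := KRU_height k 3 (by norm_num)
  have h2 := Ideal.height_mono (KRU_le k 3 p hcon2)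
  have hfin : ({f, g} : Set (Sx k)).Finite := Set.toFinite _
  have h3 := Ideal.height_le_card_of_mem_minimalPrimes_span hfin hp
  have h4 : ({f, g} : Set (Sx k)).ncard ≤ 2 := Set.ncard_insert_le f {g} |>.trans (by simp)
  have h5 : (3 : ℕ∞) ≤ (({f, g} : Set (Sx k)).ncard : ℕ∞) := h1.trans (h2.trans h3)
  have h6 : 3 ≤ ({f, g} : Set (Sx k)).ncard := by exact_mod_cast h5
  omega

end Pool.LT2
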