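import Pool.Agent.Work.MP_03d391_lt2.Interface

set_option autoImplicit false

noncomputable section

namespace Pool.LT2

open MvPolynomial Pool.LTO

lemma KZ_core {k : Type} [Field k] (N M : Sx k) (p : Ideal (Sx k)) (hrel : IsRelPrime N M) (hM0 : M ≠ 0)
    (hN : N ∈ p) (hM : M ∈ p) : ∀ (d : ℕ) (F : ℕ → Sx k),
    ∑ i ∈ Finset.range (d + 1), F i * N ^ i * M ^ (d - i) = 0 → ∀ i ≤ d, F i ∈ p := by
  intro d
  induction d with
  | zero =>
    intro F h i hi
    have hi0 : i = 0 := Nat.le_zero.1 hi
    subst hi0
    simp at h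
    rw [h]
    exact p.zero_mem
  | succ d ih =>
    intro F h i hi
    rw [Finset.sum_range_succ] at h
    have h1 : ∑ i ∈ Finset.range (d + 1), F i * N ^ i * M ^ (d + 1 - i)
        = M * ∑ i ∈ Finset.range (d + 1), F i * N ^ i * M ^ (d - i) := by
      rw [Finset.mul_sum]
      refine Finset.sum_congr rfl (fun j hj => ?_)
      have hj' : j ≤ d := Nat.lt_succ_iff.1 (Finset.mem_range.1 hj)
      have e1 : d + 1 - j = (d - j) + 1 := by omega
      rw [e1, pow_succ]
      ring
    rw [h1, Nat.sub_self, pow_zero, mul_one] at h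
    have hdvd : M ∣ F (d + 1) * N ^ (d + 1) := by
      have h2 : F (d + 1) * N ^ (d + 1)
          = M * (-(∑ i ∈ Finset.range (d + 1), F i * N ^ i * M ^ (d - i))) := by
        linear_combination h
      exact ⟨_, h2⟩
    have hrel2 : IsRelPrime M (N ^ (d + 1)) := (IsRelPrime.pow_left (m := d + 1) hrel).symm
    obtain ⟨Q, hQ⟩ := hrel2.dvd_of_dvd_mul_right hdvd
    have h3 : ∑ i ∈ Finset.range (d + 1), F i * N ^ i * M ^ (d - i) + Q * N ^ (d + 1) = 0 := by
      have h4 : M * (∑ i ∈ Finset.range (d + 1), F i * N ^ i * M ^ (d - i) + Q * N ^ (d + 1)) = 0 := by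
        rw [hQ] at h
        linear_combination h
      exact (mul_eq_zero.1 h4).resolve_left hM0
    have h5 := ih (fun j => if j = d then F d + Q * N else F j) (by
      rw [Finset.sum_range_succ] at h3 ⊢
      have e2 : ∑ x ∈ Finset.range d, (if x = d then F d + Q * N else F x) * N ^ x * M ^ (d - x)
          = ∑ x ∈ Finset.range d, F x * N ^ x * M ^ (d - x) := by
        refine Finset.sum_congr rfl (fun j hj => ?_)
        have hj' : j ≠ d := (Finset.mem_range.1 hj).ne
        rw [if_neg hj']
      rw [e2, if_pos rfl]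
      rw [Nat.sub_self, pow_zero] at h3 ⊢
      rw [← h3, pow_succ]
      ring)
    rcases Nat.lt_or_ge i d with hlt | hge
    · have h6 := h5 i hlt.le
      simp only [hlt.ne, if_false] at h6
      exact h6
    · rcases Nat.eq_or_lt_of_le hge with he | hlt
      · subst he
        have h6 := h5 d le_rfl
        simp only [if_true] at h6
        have h7 : Q * N ∈ p := p.mul_mem_left Q hN
        have h8 : F d = (F d + Q * N) - Q * N := by ring
        rw [h8]
        exact p.sub_mem h6 h7
      · have he : i = d + 1 := by omega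
        subst he
        rw [hQ]
        exact p.mul_mem_right Q hM

theorem p_KZ : Stmt_KZ := by
  intro k _ N M p hrel hM0 _ hN hM P hP i
  have hio : (io M : Kx k) ≠ 0 := by
    intro h
    exact hM0 ((IsFractionRing.injective (Sx k) (Kx k)) (by rw [h, map_zero]))
  rcases Nat.lt_or_ge P.natDegree i with hlt | hge
  · rw [Polynomial.coeff_eq_zero_of_natDegree_lt hlt]
    exact p.zero_mem
  · refine KZ_core N M p hrel hM0 hN hM P.natDegree (fun j => P.coeff j) ?_ i hge
    apply IsFractionRing.injective (Sx k) (Kx k)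
    rw [map_zero, map_sum]
    rw [Polynomial.aeval_eq_sum_range] at hP
    have h1 : ∑ j ∈ Finset.range (P.natDegree + 1),
        (algebraMap (Sx k) (Kx k)) (P.coeff j * N ^ j * M ^ (P.natDegree - j))
        = (io M) ^ P.natDegree * ∑ j ∈ Finset.range (P.natDegree + 1), P.coeff j • (io N / io M : Kx k) ^ j := by
      rw [Finset.mul_sum]
      refine Finset.sum_congr rfl (fun j hj => ?_)
      have hj' : j ≤ P.natDegree := Nat.lt_succ_iff.1 (Finset.mem_range.1 hj)
      rw [Algebra.smul_def, map_mul, map_mul, map_pow, map_pow, div_pow]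
      have e1 : (io M : Kx k) ^ P.natDegree = io M ^ (P.natDegree - j) * io M ^ j := by
        rw [← pow_add]
        congr 1
        omega
      rw [e1]
      field_simp
    rw [h1, hP, mul_zero]

end Pool.LT2
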