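import Pool.Agent.Work.MP_03d391_lt2.Interface

set_option autoImplicit false

namespace Pool.LT2

open Pool.LTO

theorem LOWC_coeff {R : Type} [CommRing R] (p : Ideal R) (f g : Polynomial R) (hf0 : f.coeff 0 ∈ p) (hf1 : f.coeff 1 ∈ p)
    (hg0 : g.coeff 0 ∈ p) (hg1 : g.coeff 1 ∈ p) (n : ℕ) (hn : n ≤ 3) : (f * g).coeff n ∈ p := by
  rw [Polynomial.coeff_mul]
  refine Ideal.sum_mem p ?_
  intro x hx
  rw [Finset.HasAntidiagonal.mem_antidiagonal] at hx
  rcases Nat.lt_or_ge x.1 2 with h | h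
  · have : x.1 = 0 ∨ x.1 = 1 := by omega
    rcases this with h | h
    · rw [h]; exact p.mul_mem_right _ hf0
    · rw [h]; exact p.mul_mem_right _ hf1
  · have : x.2 = 0 ∨ x.2 = 1 := by omega
    rcases this with h | h
    · rw [h]; exact p.mul_mem_left _ hg0
    · rw [h]; exact p.mul_mem_left _ hg1

theorem p_LOWC : Stmt_LOWC := by
  intro k _ c n E hE hn p hp hx
  obtain ⟨v, hv, w, hw, h, u, hh, hu, -, hdet⟩ := hE.loc p hp hx
  by_contra hcon
  push Not at hcon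
  have hv0 := fun a => (hcon v hv a)
  have hw0 := fun a => (hcon w hw a)
  have h1 : (v 0 * w 1 - v 1 * w 0).coeff n ∈ p := by
    rw [Polynomial.coeff_sub]
    exact p.sub_mem (LOWC_coeff p _ _ (hv0 0).1 (hv0 0).2 (hw0 1).1 (hw0 1).2 n hn)
      (LOWC_coeff p _ _ (hv0 1).1 (hv0 1).2 (hw0 0).1 (hw0 0).2 n hn)
  rw [hdet, Polynomial.coeff_X_pow_mul'] at h1
  simp at h1
  exact hu h1

end Pool.LT2
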