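import Pool.Agent.Work.MP_03d391_lt2.Interface

set_option autoImplicit false

noncomputable section

namespace Pool.LT2

open MvPolynomial Pool.LTO

section

attribute [local instance] MvPolynomial.gradedAlgebra

/-- The graded component of a product with a form. -/
theorem NEG_hc {k : Type} [Field k] {n m : ℕ} (s q : Sx k) (hq : q.IsHomogeneous m) :
    homogeneousComponent (n + m) (s * q) = homogeneousComponent n s * q := by
  have h := DirectSum.coe_decompose_mul_add_of_right_mem (homogeneousSubmodule (Fin 4) k)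
    (a := s) (i := n) (j := m) (b := q) ((mem_homogeneousSubmodule _ _).2 hq)
  have e1 := decomposition.decompose'_apply (s * q) (n + m)
  have e2 := decomposition.decompose'_apply s n
  rw [← e1, ← e2]
  exact h

end

theorem NEG_mem {k : Type} [Field k] (I : Ideal (Sx k)) (N1 : Sx k) (K n : ℕ)
    (hK : ∀ j : Fin 4, (X j : Sx k) ^ K * N1 ∈ I) (hn : 4 * K ≤ n) (s : Sx k)
    (hs : s.IsHomogeneous n) : s * N1 ∈ I := by
  have e := s.as_sum
  rw [e, Finset.sum_mul]
  refine Ideal.sum_mem _ fun d hd => ?_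
  have hdeg : d.degree = n := by
    have h1 := hs (mem_support_iff.1 hd)
    rw [Finsupp.degree_eq_weight_one]
    exact h1
  have h4 : d 0 + d 1 + d 2 + d 3 = n := by
    rw [← hdeg, Finsupp.degree_eq_sum, Fin.sum_univ_four]
  obtain ⟨j, hj⟩ : ∃ j, K ≤ d j := by
    by_contra hno
    push Not at hno
    have h0 := hno 0
    have h1 := hno 1
    have h2 := hno 2
    have h3 := hno 3
    omega
  have hle : Finsupp.single j K ≤ d := by
    rw [Finsupp.single_le_iff]
    exact hj
  have hm : monomial d (coeff d s) =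
      monomial (d - Finsupp.single j K) (coeff d s) * (X j : Sx k) ^ K := by
    rw [X_pow_eq_monomial, monomial_mul, mul_one, tsub_add_cancel_of_le hle]
  rw [hm, mul_assoc]
  exact Ideal.mul_mem_left _ _ (hK j)

theorem NEG_it {k : Type} [Field k] (π M N1 : Sx k) (e r r1 K : ℕ) (hπ : π.IsHomogeneous e)
    (hM : M.IsHomogeneous r) (hN1 : N1.IsHomogeneous r1) (hr : r1 < r)
    (hK : ∀ j : Fin 4, (X j : Sx k) ^ K * N1 ∈ Ideal.span {M, π}) :
    ∀ (i : ℕ) (s : Sx k), s.IsHomogeneous (4 * K + e + i * (r - r1)) →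
      ∃ t : Sx k, t.IsHomogeneous (4 * K + e) ∧ π ∣ s * N1 ^ i - t * M ^ i := by
  intro i
  induction i with
  | zero =>
    intro s hs
    refine ⟨s, by simpa using hs, ?_⟩
    simp
  | succ i ih =>
    intro s hs
    obtain ⟨a, b, hab⟩ := Ideal.mem_span_pair.1 (NEG_mem _ N1 K _ hK (by omega) s hs)
    have hd1 : 4 * K + e + (i + 1) * (r - r1) + r1 = 4 * K + e + i * (r - r1) + r := by
      have : (i + 1) * (r - r1) = i * (r - r1) + (r - r1) := by ring
      omega
    have hd2 : 4 * K + e + i * (r - r1) + r = 4 * K + i * (r - r1) + r + e := by ring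
    have hsN : (s * N1).IsHomogeneous (4 * K + e + i * (r - r1) + r) := by
      rw [← hd1]
      exact hs.mul hN1
    have e1 := congrArg (homogeneousComponent (4 * K + e + i * (r - r1) + r)) hab
    rw [homogeneousComponent_of_mem hsN, if_pos rfl, map_add, NEG_hc a M hM] at e1
    have e2 : homogeneousComponent (4 * K + e + i * (r - r1) + r) (b * π) =
        homogeneousComponent (4 * K + i * (r - r1) + r) b * π := by
      rw [hd2, NEG_hc b π hπ]
    rw [e2] at e1
    obtain ⟨t, ht, htd⟩ := ih (homogeneousComponent (4 * K + e + i * (r - r1)) a)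
      (homogeneousComponent_isHomogeneous _ _)
    refine ⟨t, ht, ?_⟩
    obtain ⟨c, hc⟩ := htd
    refine ⟨M * c + homogeneousComponent (4 * K + i * (r - r1) + r) b * N1 ^ i, ?_⟩
    linear_combination (-N1 ^ i) * e1 + M * hc

theorem p_NEG : Stmt_NEG := by
  classical
  intro k _ π M N1 e r r1 hpr hπ hM hN1 hr hπM hJ
  by_contra hN
  -- a common exponent
  choose Kj hKj using hJ
  obtain ⟨K, hK⟩ : ∃ K : ℕ, ∀ j : Fin 4, (X j : Sx k) ^ K * N1 ∈ Ideal.span {M, π} := by
    refine ⟨∑ j, Kj j, fun j => ?_⟩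
    have h1 : Kj j ≤ ∑ j, Kj j :=
      Finset.single_le_sum (fun _ _ => Nat.zero_le _) (Finset.mem_univ j)
    obtain ⟨c, hc⟩ := Nat.exists_eq_add_of_le h1
    rw [hc, pow_add, mul_comm ((X j : Sx k) ^ Kj j), mul_assoc]
    exact Ideal.mul_mem_left _ _ (hKj j)
  -- a variable occurring in `π`
  obtain ⟨l, hl⟩ : ∃ l : Fin 4, degreeOf l π ≠ 0 := by
    by_contra hno
    push Not at hno
    have h0 : π.totalDegree = 0 := by
      rw [totalDegree_eq_zero_iff]
      intro m hm x
      have h1 : degreeOf x π ≤ 0 := (hno x).le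
      rw [degreeOf_le_iff] at h1
      exact Nat.le_zero.1 (h1 m hm)
    rw [totalDegree_eq_zero_iff_eq_C] at h0
    have hc : coeff 0 π ≠ 0 := by
      intro hc
      rw [hc, map_zero] at h0
      exact hpr.ne_zero h0
    exact hpr.not_isUnit (by rw [h0]; exact (isUnit_iff_ne_zero.2 hc).map C)
  have hdec : ∀ l : Fin 4, ∃ i j : Fin 4, i ≠ j ∧ i ≠ l ∧ j ≠ l := by decide
  obtain ⟨i1, i2, h12, h1l, h2l⟩ := hdec l
  -- dimensions
  obtain ⟨V, hV⟩ : ∃ V : Submodule k (Sx k), V = homogeneousSubmodule (Fin 4) k (4 * K + e) :=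
    ⟨_, rfl⟩
  have hVfg : V.FG := by
    rw [hV]
    exact homogeneousSubmodule_fg (Fin 4) k _
  have : Module.Finite k V := Module.Finite.iff_fg.2 hVfg
  obtain ⟨d, hd⟩ : ∃ d : ℕ, d = Module.finrank k V := ⟨_, rfl⟩
  obtain ⟨n, hn⟩ : ∃ n : ℕ, n = 4 * K + e + d * (r - r1) := ⟨_, rfl⟩
  have hnd : d < n + 1 := by
    have h1 : d * 1 ≤ d * (r - r1) := Nat.mul_le_mul_left d (by omega)
    omega
  let E : Fin (n + 1) → (Fin 4 →₀ ℕ) := fun a =>
    Finsupp.single i1 (a : ℕ) + Finsupp.single i2 (n - (a : ℕ))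
  have hE1 : ∀ a, (E a) i1 = a := by
    intro a
    simp [E, h12]
  have hEl : ∀ a, (E a) l = 0 := by
    intro a
    simp [E, h1l, h2l]
  have hEinj : ∀ a b, E a = E b → a = b := by
    intro a b hab
    apply Fin.ext
    rw [← hE1 a, ← hE1 b, hab]
  have hEd : ∀ a, (E a).degree = n := by
    intro a
    have ha : (a : ℕ) ≤ n := Nat.lt_succ_iff.1 a.2
    simp only [E, map_add, Finsupp.degree_single]
    omega
  have hs : ∀ a, (monomial (E a) (1 : k)).IsHomogeneous (4 * K + e + d * (r - r1)) := by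
    intro a
    rw [← hn]
    exact isHomogeneous_monomial _ (hEd a)
  choose t ht htd using fun a => NEG_it π M N1 e r r1 K hπ hM hN1 hr hK d (monomial (E a) 1) (hs a)
  have hnli : ¬ LinearIndependent k (fun a => (⟨t a, by
      rw [hV, mem_homogeneousSubmodule]
      exact ht a⟩ : V)) := by
    intro hli
    have h1 := hli.fintype_card_le_finrank
    rw [Fintype.card_fin, ← hd] at h1
    omega
  rw [Fintype.not_linearIndependent_iff] at hnli
  obtain ⟨g, hg, a0, ha0⟩ := hnli
  have hg' : ∑ a, g a • t a = 0 := by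
    have h1 := congrArg (Subtype.val) hg
    simpa using h1
  obtain ⟨P, hP⟩ : ∃ P : Sx k, P = ∑ a, g a • monomial (E a) (1 : k) := ⟨_, rfl⟩
  have hco : ∀ m, coeff m P = ∑ a, g a * (if E a = m then 1 else 0) := by
    intro m
    rw [hP, coeff_sum]
    refine Finset.sum_congr rfl fun a _ => ?_
    rw [coeff_smul, coeff_monomial, smul_eq_mul]
  have hP0 : P ≠ 0 := by
    intro h0
    have h1 := hco (E a0)
    rw [h0, coeff_zero, Finset.sum_eq_single a0] at h1
    · rw [if_pos rfl, mul_one] at h1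
      exact ha0 h1.symm
    · intro b _ hb
      rw [if_neg (fun h => hb (hEinj _ _ h)), mul_zero]
    · intro h
      exact absurd (Finset.mem_univ _) h
  have hPl : degreeOf l P ≤ 0 := by
    rw [degreeOf_le_iff]
    intro m hm
    rw [mem_support_iff, hco m] at hm
    obtain ⟨a, _, ha⟩ := Finset.exists_ne_zero_of_sum_ne_zero hm
    have hEa : E a = m := by
      by_contra hne
      rw [if_neg hne, mul_zero] at ha
      exact ha rfl
    rw [← hEa, hEl a]
  have hdiv : π ∣ P * N1 ^ d := by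
    have h1 : P * N1 ^ d = ∑ a, g a • (monomial (E a) (1 : k) * N1 ^ d - t a * M ^ d) := by
      have h2 : ∑ a, g a • (monomial (E a) (1 : k) * N1 ^ d - t a * M ^ d) =
          (∑ a, g a • monomial (E a) (1 : k)) * N1 ^ d - (∑ a, g a • t a) * M ^ d := by
        rw [Finset.sum_mul, Finset.sum_mul, ← Finset.sum_sub_distrib]
        refine Finset.sum_congr rfl fun a _ => ?_
        rw [smul_sub, smul_mul_assoc, smul_mul_assoc]
      rw [h2, hg', zero_mul, sub_zero, hP]
    rw [h1]
    refine Finset.dvd_sum fun a _ => ?_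
    rw [smul_eq_C_mul]
    exact Dvd.dvd.mul_left (htd a) _
  have hπP : π ∣ P := by
    rcases hpr.dvd_or_dvd hdiv with h | h
    · exact h
    · exact absurd (hpr.dvd_of_dvd_pow h) hN
  obtain ⟨Q, hQ⟩ := hπP
  have hQ0 : Q ≠ 0 := by
    rintro rfl
    exact hP0 (by rw [hQ, mul_zero])
  have h3 := degreeOf_mul_eq (n := l) hpr.ne_zero hQ0
  rw [← hQ] at h3
  omega

end Pool.LT2
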