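import Pool.Agent.Work.MP_03d391_lt2.Interface

/-! Block PT. -/

set_option autoImplicit false

noncomputable section

namespace Pool.LT2

open MvPolynomial Pool.LTO

theorem PT_two {k : Type} [Field k] {c n : ℕ} {E : Submodule (Polynomial (Sx k)) (Fr k)}
    (hn : 1 ≤ n) (hE : BundleC k c n E) {p : Ideal (Sx k)} (hp : p.IsPrime)
    (hpi : ∃ i : Fin 4, (X i : Sx k) ∉ p) (h0 : ∀ e ∈ E, (e 0).coeff 0 ∈ p)
    (h1 : ∀ e ∈ E, (e 1).coeff 0 ∈ p) : 2 ≤ n := by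
  by_contra hlt
  have hn1 : n = 1 := by omega
  subst hn1
  obtain ⟨v, hv, w, hw, h, u, -, hu, -, hdet⟩ := hE.loc p hp hpi
  apply hu
  have h2 : (Polynomial.X ^ 1 * u : Polynomial (Sx k)).coeff 1 = u.coeff 0 := by
    rw [pow_one]; exact Polynomial.coeff_X_mul u 0
  rw [← hdet, Polynomial.coeff_sub, Polynomial.mul_coeff_one, Polynomial.mul_coeff_one] at h2
  rw [← h2]
  exact Ideal.sub_mem _
    (Ideal.add_mem _ (Ideal.mul_mem_right _ _ (h0 v hv)) (Ideal.mul_mem_left _ _ (h1 w hw)))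
    (Ideal.add_mem _ (Ideal.mul_mem_right _ _ (h1 v hv)) (Ideal.mul_mem_left _ _ (h0 w hw)))

theorem p_PT (hKO : Stmt_KO) : Stmt_PT := by
  intro k _ c n E B D' N M hS hNM hN hM hRel π p hπ hπB hp hpi hπp hNp hMp
  have hβ : ∀ e ∈ E, (e 0).coeff 0 ∈ p := by
    intro e he
    have h1 := hS.r0 e he
    have h2 : B ∣ D' * (e 0).coeff 0 := ⟨(e 1).coeff 0, by rw [← h1]; ring⟩
    have h3 : B ∣ (e 0).coeff 0 := hS.rel.dvd_of_dvd_mul_left h2
    obtain ⟨x, hx⟩ := hπB.trans h3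
    rw [hx]
    exact Ideal.mul_mem_right _ _ hπp
  have hδ : ∀ e ∈ E, (e 1).coeff 0 ∈ p := by
    intro e he
    refine hKO k B D' N M p hS.B0 hNM hN hM hRel hp hNp hMp _ ((e 0).coeff 0) 0 (hβ e he)
      p.zero_mem ?_
    have h1 := hS.r0 e he
    linear_combination N * h1
  have hn2 : 2 ≤ n := PT_two hS.n1 hS.bun hp hpi hβ hδ
  refine ⟨hn2, ?_⟩
  obtain ⟨e, he, a, ha⟩ := hS.typ p hp hpi
  refine ⟨e, he, hβ e he, ?_⟩
  intro hb
  have h3 : (e 1).coeff 1 ∈ p := by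
    refine hKO k B D' N M p hS.B0 hNM hN hM hRel hp hNp hMp _ ((e 0).coeff 1) ((e 0).coeff 0)
      hb (hβ e he) ?_
    have h1 := hS.r1 hn2 e he
    linear_combination h1
  fin_cases a
  · rcases ha with ha | ha
    · exact ha (hβ e he)
    · exact ha hb
  · rcases ha with ha | ha
    · exact ha (hδ e he)
    · exact ha h3

end Pool.LT2
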