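import Pool.Agent.Work.MP_03d391_lt2.Interface

/-! Block RLA: the relation of integral dependence. -/

set_option autoImplicit false

noncomputable section

namespace Pool.LT2

open MvPolynomial Pool.LTO

theorem RLA_pow (h1 : Stmt_CLMC) {k : Type} [Field k] {c n : ℕ}
    {E : Submodule (Polynomial (Sx k)) (Fr k)} (hn : 1 ≤ n) (hE : BundleC k c n E)
    (hT : TypeLeOne k E) {z : Fr k} (hz : z ∈ E)
    (hb : (z 0).coeff 0 ≠ 0) (hD : (z 1).coeff 0 ≠ 0) (i j : Fin 4) :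
    ∃ N : ℕ, (X j : Sx k) ^ N * Pd i z ∈ Jd z := by
  obtain ⟨I, hI⟩ : ∃ I : Ideal (Sx k), ∀ s, s ∈ I ↔ s * Pd i z ∈ Jd z :=
    ⟨Submodule.comap (LinearMap.toSpanSingleton (Sx k) (Sx k) (Pd i z)) (Jd z), fun s => by
      rw [Submodule.mem_comap, LinearMap.toSpanSingleton_apply, smul_eq_mul]⟩
  have hrad : (X j : Sx k) ∈ I.radical := by
    rw [Ideal.radical_eq_sInf, Submodule.mem_sInf]
    intro p hp
    obtain ⟨hIp, hpp⟩ := hp
    by_contra hj
    obtain ⟨s, hs, hs2⟩ := h1 k c n E hn hE hT z hz hb hD p hpp ⟨j, hj⟩ i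
    exact hs (hIp ((hI s).mpr hs2))
  obtain ⟨N, hN⟩ := Ideal.mem_radical_iff.mp hrad
  exact ⟨N, (hI _).mp hN⟩

theorem RLA_Jd {k : Type} [Field k] (z : Fr k) (hD : (z 1).coeff 0 ≠ 0) (g : Sx k)
    (hg : g ∈ Jd z) :
    io g / io ((z 1).coeff 0) ^ 2 ∈ Algebra.adjoin (Sx k)
      {io ((z 0).coeff 0) / io ((z 1).coeff 0), io (Qd z) / io ((z 1).coeff 0) ^ 2} := by
  have hD' : (io ((z 1).coeff 0) : Kx k) ≠ 0 := by
    intro h
    exact hD ((IsFractionRing.injective (Sx k) (Kx k)) (h.trans (map_zero _).symm))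
  obtain ⟨D, hDd⟩ : ∃ D, D = (z 1).coeff 0 := ⟨_, rfl⟩
  obtain ⟨b, hbd⟩ : ∃ b, b = (z 0).coeff 0 := ⟨_, rfl⟩
  unfold Jd at hg
  rw [← hDd, ← hbd] at hg ⊢
  rw [← hDd] at hD'
  have hu : io b / io D ∈ Algebra.adjoin (Sx k)
      ({io b / io D, io (Qd z) / io D ^ 2} : Set (Kx k)) :=
    Algebra.subset_adjoin (Set.mem_insert _ _)
  have hw : io (Qd z) / io D ^ 2 ∈ Algebra.adjoin (Sx k)
      ({io b / io D, io (Qd z) / io D ^ 2} : Set (Kx k)) :=
    Algebra.subset_adjoin (Set.mem_insert_of_mem _ rfl)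
  refine Submodule.span_induction (p := fun g _ => io g / io D ^ 2 ∈ Algebra.adjoin (Sx k)
      ({io b / io D, io (Qd z) / io D ^ 2} : Set (Kx k))) ?_ ?_ ?_ ?_ hg
  · intro x hx
    rcases hx with rfl | rfl | rfl | rfl
    · exact hw
    · have : (io (D ^ 2) : Kx k) / io D ^ 2 = 1 := by
        rw [map_pow]
        exact div_self (pow_ne_zero 2 hD')
      rw [this]
      exact one_mem _
    · have : (io (D * b) : Kx k) / io D ^ 2 = io b / io D := by
        rw [map_mul]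
        field_simp
      rw [this]
      exact hu
    · have : (io (b ^ 2) : Kx k) / io D ^ 2 = (io b / io D) ^ 2 := by
        rw [map_pow, div_pow]
      rw [this]
      exact pow_mem hu 2
  · have : (io (0 : Sx k) : Kx k) / io D ^ 2 = 0 := by
      rw [map_zero, zero_div]
    rw [this]
    exact zero_mem _
  · intro x y _ _ hx hy
    have : (io (x + y) : Kx k) / io D ^ 2 = io x / io D ^ 2 + io y / io D ^ 2 := by
      rw [map_add, add_div]
    rw [this]
    exact add_mem hx hy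
  · intro a x _ hx
    have : (io (a • x) : Kx k) / io D ^ 2 = a • (io x / io D ^ 2) := by
      rw [smul_eq_mul, map_mul, mul_div_assoc, Algebra.smul_def]
    rw [this]
    exact Subalgebra.smul_mem _ hx a

theorem RLA_hom {k : Type} [Field k] {c m : ℕ} (hc : 1 ≤ c) (z : Fr k)
    (hb : ((z 0).coeff 0).IsHomogeneous m) (hD : ((z 1).coeff 0).IsHomogeneous (m + c))
    (i : Fin 4) : (Pd i z).IsHomogeneous (2 * m + c - 1) := by
  unfold Pd
  have e2 : m + (m + c - 1) = 2 * m + c - 1 := by omega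
  have h2 : ((z 0).coeff 0 * pderiv i ((z 1).coeff 0)).IsHomogeneous (2 * m + c - 1) := by
    rw [← e2]
    exact hb.mul hD.pderiv
  rcases Nat.eq_zero_or_pos m with hm | hm
  · have h3 : pderiv i ((z 0).coeff 0) = 0 := by
      subst hm
      have h1 : ((z 0).coeff 0).totalDegree = 0 := Nat.le_zero.mp hb.totalDegree_le
      rw [totalDegree_eq_zero_iff_eq_C.mp h1, pderiv_C]
    rw [h3, mul_zero, zero_sub]
    exact h2.neg
  · have e1 : (m + c) + (m - 1) = 2 * m + c - 1 := by omega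
    have h1 : ((z 1).coeff 0 * pderiv i ((z 0).coeff 0)).IsHomogeneous (2 * m + c - 1) := by
      rw [← e1]
      exact hD.mul hb.pderiv
    exact h1.sub h2

/-- Block RLA. -/
theorem p_RLA (h1 : Stmt_CLMC) (h2 : Stmt_UNI) (h3 : Stmt_GRD) (h4 : Stmt_EUL) (h5 : Stmt_KRA)
    (h6 : Stmt_KRB) : Stmt_RLA := by
  intro k _ _ c n m E hc hn hE hT z hz hb hD hq hbh hDh hqh
  have hinj := IsFractionRing.injective (Sx k) (Kx k)
  have hb' : (io ((z 0).coeff 0) : Kx k) ≠ 0 := fun h => hb (hinj (h.trans (map_zero _).symm))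
  have hD' : (io ((z 1).coeff 0) : Kx k) ≠ 0 := fun h => hD (hinj (h.trans (map_zero _).symm))
  have hq' : (io (Qd z) : Kx k) ≠ 0 := fun h => hq (hinj (h.trans (map_zero _).symm))
  obtain ⟨s, hs0, hs⟩ := h2 k (io ((z 0).coeff 0) / io ((z 1).coeff 0))
    (io (Qd z) / io ((z 1).coeff 0) ^ 2)
  have hA : ∀ (M : ℕ) (α : Fin M → Fin 4),
      io s * ∏ j, (io (Pd (α j) z) / io ((z 1).coeff 0) ^ 2) ∈ Algebra.adjoin (Sx k)
        {io ((z 0).coeff 0) / io ((z 1).coeff 0), io (Qd z) / io ((z 1).coeff 0) ^ 2} := by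
    intro M α
    apply hs
    intro j
    choose Nf hNf using fun i => RLA_pow h1 hn hE hT hz hb hD i j
    refine ⟨∑ t, Nf (α t), ?_⟩
    rw [← Finset.prod_pow_eq_pow_sum, map_prod, ← Finset.prod_mul_distrib]
    refine prod_mem fun t _ => ?_
    have h7 := RLA_Jd z hD _ (hNf (α t))
    rw [map_mul, mul_div_assoc] at h7
    exact h7
  obtain ⟨l, s', hs', hG⟩ := h3 k c m ((z 0).coeff 0) ((z 1).coeff 0) (Qd z) s
    (fun i => Pd i z) hc hbh hDh hqh (fun i => RLA_hom hc z hbh hDh i) hD hs0 hA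
  have hEu := h4 k c m l ((z 0).coeff 0) ((z 1).coeff 0) s' (io (Qd z) / io ((z 1).coeff 0) ^ 2)
    hc hbh hDh hD hG
  have hu : (io ((z 0).coeff 0) : Kx k) / io ((z 1).coeff 0) ≠ 0 := div_ne_zero hb' hD'
  have hK := h5 k c l (io ((z 0).coeff 0) / io ((z 1).coeff 0))
    (io (Qd z) / io ((z 1).coeff 0) ^ 2)
    (io ((z 0).coeff 0 * (z 1).coeff 0) / io (Qd z)) s' hc hu (by
      rw [map_mul]
      field_simp) hs' hEu
  have hR := h6 k _ _ hu hK
  rw [inv_div] at hR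
  exact hR

end Pool.LT2
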