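import Pool.Agent.Work.MP_03d391_lt2.Interface

set_option autoImplicit false

namespace Pool.LT2

open MvPolynomial Pool.LTO

/-- Three elements of `MvPolynomial (Fin 2) k` are algebraically dependent. -/
theorem UNA_dep (k : Type) [Field k] (P : Fin 3 → MvPolynomial (Fin 2) k) : ∃ Q : MvPolynomial (Fin 3) k, Q ≠ 0 ∧ aeval P Q = 0 := by
  by_contra hcon
  push Not at hcon
  have hai : AlgebraicIndependent k P := by
    rw [algebraicIndependent_iff]
    intro p hp
    by_contra hne
    exact hcon p hne hp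
  have h1 := hai.cardinalMk_le_trdeg
  rw [MvPolynomial.trdeg_of_isDomain] at h1
  simp only [Cardinal.mk_fin, Cardinal.lift_natCast] at h1
  have h2 : (3 : ℕ) ≤ 2 := by exact_mod_cast h1
  omega

/-- A polynomial which is zero in all degrees is a constant. -/
theorem UNA_const (k : Type) [Field k] (r : ℕ) (ρ : MvPolynomial (Fin r) k) (h : ∀ l, degreeOf l ρ = 0) : ρ = C (ρ.coeff 0) := by
  classical
  rw [← vars_eq_empty_iff_eq_C]
  ext l
  constructor
  · intro hl
    have h1 : l ∈ ρ.degrees := by
      rw [vars_def] at hl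
      simpa using hl
    have h2 := h l
    rw [degreeOf_def, Multiset.count_eq_zero] at h2
    exact absurd h1 h2
  · intro hl
    simp at hl

theorem p_UNA : Stmt_UNA := by
  intro k _ r A _ _ g I a b hr hP ρ hρ hle
  classical
  have hρ0 : ρ ≠ 0 := hρ.ne_zero
  have hex : ∃ l, degreeOf l ρ ≠ 0 := by
    by_contra hcon
    push Not at hcon
    have h1 := UNA_const k r ρ hcon
    apply hρ.not_isUnit
    rw [h1]
    apply IsUnit.map
    rw [isUnit_iff_ne_zero]
    intro h0
    rw [h0, map_zero] at h1
    exact hρ0 h1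
  obtain ⟨l, hl⟩ := hex
  have hcard : Fintype.card (Fin 3) ≤ Fintype.card {i : Fin r // i ≠ l} := by
    rw [Fintype.card_subtype_compl, Fintype.card_fin, Fintype.card_fin, Fintype.card_unique]
    omega
  obtain ⟨τ⟩ := Function.Embedding.nonempty_of_card_le hcard
  let σ : Fin 3 → Fin r := fun i => (τ i).1
  have hσ : Function.Injective σ := fun i j hij => τ.injective (Subtype.ext hij)
  have hσl : ∀ i, σ i ≠ l := fun i => (τ i).2
  choose P hPs using fun i : Fin 3 => hP (g (X (σ i)))
  obtain ⟨Q, hQ0, hQ⟩ := UNA_dep k P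
  have hmem : rename σ Q ∈ I.comap (g : MvPolynomial (Fin r) k →+* A) := by
    rw [Ideal.mem_comap]
    show g (rename σ Q) ∈ I
    rw [← Ideal.Quotient.eq_zero_iff_mem]
    have e1 : (Ideal.Quotient.mk I) (g (rename σ Q)) = (aeval fun i => (Ideal.Quotient.mkₐ k I) (g (X (σ i)))) Q := by
      have h1 : ((Ideal.Quotient.mkₐ k I).comp (g.comp (rename σ))) = (aeval fun i => (Ideal.Quotient.mkₐ k I) (g (X (σ i)))) := by
        apply MvPolynomial.algHom_ext
        intro i
        simp
      rw [← h1]
      rfl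
    have e2 : (fun i => (Ideal.Quotient.mkₐ k I) (g (X (σ i)))) = fun i => (Ideal.Quotient.mkₐ k I) (aeval ![a, b] (P i)) := by
      funext i
      exact (Ideal.Quotient.eq).mpr (hPs i)
    have e3 : (aeval fun i => (Ideal.Quotient.mkₐ k I) (aeval ![a, b] (P i))) = ((Ideal.Quotient.mkₐ k I).comp ((aeval ![a, b]).comp (aeval P))) := by
      apply MvPolynomial.algHom_ext
      intro i
      simp
    rw [e1, e2, e3]
    show (Ideal.Quotient.mkₐ k I) (aeval ![a, b] (aeval P Q)) = 0
    rw [hQ, map_zero, map_zero]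
  have hd := hle hmem
  rw [Ideal.mem_span_singleton] at hd
  obtain ⟨c, hc⟩ := hd
  have hne : rename σ Q ≠ 0 := by
    intro h0
    apply hQ0
    apply rename_injective σ hσ
    rw [h0, map_zero]
  have hc0 : c ≠ 0 := by
    rintro rfl
    rw [mul_zero] at hc
    exact hne hc
  have hdeg : degreeOf l (rename σ Q) = 0 := by
    rw [degreeOf_def, Multiset.count_eq_zero]
    intro hmem2
    have h3 := degrees_rename σ Q hmem2
    rw [Multiset.mem_map] at h3
    obtain ⟨i, _, hi⟩ := h3
    exact hσl i hi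
  rw [hc, degreeOf_mul_eq hρ0 hc0] at hdeg
  omega

end Pool.LT2
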