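import Pool.Agent.Work.MP_03d391_lt2.Interface

set_option autoImplicit false

noncomputable section

namespace Pool.LT2

open MvPolynomial Pool.LTO

theorem p_UNB (h1 : Stmt_UNC) : Stmt_UNB := by
  intro k _ r A _ _ _ g I hr hg hfin hJ
  let alg : Algebra (MvPolynomial (Fin r) k) A := (g : MvPolynomial (Fin r) k →+* A).toAlgebra
  have hmod : Module.Finite (MvPolynomial (Fin r) k) A := hfin
  have hsm : ∀ (c : MvPolynomial (Fin r) k) (a : A), c • a = g c * a := fun c a => rfl
  obtain ⟨d, e, s1, he, hs1, hspan⟩ := h1 (MvPolynomial (Fin r) k) A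
  have hgne : ∀ c : MvPolynomial (Fin r) k, c ≠ 0 → g c ≠ 0 := by
    intro c hc h0
    exact hc (hg (by rw [h0, map_zero]))
  refine ⟨g s1, hgne s1 hs1, ?_⟩
  intro x y hy hN
  obtain ⟨N, hN⟩ := hN
  have h2 : ∀ h : MvPolynomial (Fin r) k, g h ∈ I → ∃ c : Fin d → MvPolynomial (Fin r) k,
      g s1 * (g h ^ N * x) = (∑ i, c i • e i) * y := by
    intro h hh
    obtain ⟨a, ha⟩ := hN (g h ^ N) (Ideal.pow_mem_pow hh N)
    obtain ⟨c, hc⟩ := (Submodule.mem_span_range_iff_exists_fun (MvPolynomial (Fin r) k)).1 (hspan a)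
    refine ⟨c, ?_⟩
    rw [hc, hsm, ha, mul_assoc]
  obtain ⟨h0, h0J, h0ne⟩ : ∃ h : MvPolynomial (Fin r) k, g h ∈ I ∧ h ≠ 0 := by
    by_contra hcon
    push Not at hcon
    apply hJ (X ⟨0, hr⟩) (MvPolynomial.X_prime)
    intro h hh
    have : h = 0 := hcon h (by simpa [Ideal.mem_comap] using hh)
    rw [this]
    exact Ideal.zero_mem _
  obtain ⟨c0, hc0⟩ := h2 h0 h0J
  have h3 : ∀ i, h0 ^ N ∣ c0 i := by
    intro i
    obtain ⟨a', b', t, hrel, ha', hb'⟩ :=
      UniqueFactorizationMonoid.exists_reduced_factors' (c0 i) (h0 ^ N) (pow_ne_zero N h0ne)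
    have htne : t ≠ 0 := by
      rintro rfl
      rw [zero_mul] at hb'
      exact pow_ne_zero N h0ne hb'.symm
    have hbne : b' ≠ 0 := by
      rintro rfl
      rw [mul_zero] at hb'
      exact pow_ne_zero N h0ne hb'.symm
    have h4 : ∀ h : MvPolynomial (Fin r) k, g h ∈ I → b' ∣ h ^ N * a' := by
      intro h hh
      obtain ⟨c, hc⟩ := h2 h hh
      have h5 : (g h0 ^ N * (∑ i, c i • e i)) * y = (g h ^ N * (∑ i, c0 i • e i)) * y := by
        have e1 : (g h0 ^ N * (∑ i, c i • e i)) * y = g h0 ^ N * (g s1 * (g h ^ N * x)) := by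
          rw [hc, mul_assoc]
        have e2 : (g h ^ N * (∑ i, c0 i • e i)) * y = g h ^ N * (g s1 * (g h0 ^ N * x)) := by
          rw [hc0, mul_assoc]
        rw [e1, e2]
        ring
      have h6 : g h0 ^ N * (∑ i, c i • e i) = g h ^ N * (∑ i, c0 i • e i) := mul_right_cancel₀ hy h5
      have h7 : ∑ j, (h0 ^ N * c j - h ^ N * c0 j) • e j = 0 := by
        have e3 : ∑ j, (h0 ^ N * c j - h ^ N * c0 j) • e j
            = g h0 ^ N * (∑ i, c i • e i) - g h ^ N * (∑ i, c0 i • e i) := by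
          rw [Finset.mul_sum, Finset.mul_sum, ← Finset.sum_sub_distrib]
          refine Finset.sum_congr rfl fun j _ => ?_
          rw [hsm, hsm, hsm, map_sub, map_mul, map_mul, map_pow, map_pow]
          ring
        rw [e3, h6, sub_self]
      have h8 := (Fintype.linearIndependent_iff.1 he) _ h7 i
      have h9 : t * (b' * c i) = t * (h ^ N * a') := by
        have h10 : h0 ^ N * c i = h ^ N * c0 i := sub_eq_zero.1 h8
        rw [← hb', ← ha'] at h10
        calc t * (b' * c i) = t * b' * c i := by ring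
          _ = h ^ N * (t * a') := h10
          _ = t * (h ^ N * a') := by ring
      exact ⟨c i, (mul_left_cancel₀ htne h9).symm⟩
    have hunit : IsUnit b' := by
      by_contra hnu
      obtain ⟨ρ, hρ, hρb⟩ := WfDvdMonoid.exists_irreducible_factor hnu hbne
      have hρp : Prime ρ := UniqueFactorizationMonoid.irreducible_iff_prime.1 hρ
      apply hJ ρ hρp
      intro h hh
      have hh' : g h ∈ I := by simpa [Ideal.mem_comap] using hh
      rw [Ideal.mem_span_singleton]
      rcases hρp.dvd_or_dvd (hρb.trans (h4 h hh')) with h5 | h5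
      · exact hρp.dvd_of_dvd_pow h5
      · exact absurd (hrel h5 hρb) hρp.not_unit
    rw [← hb', ← ha']
    exact mul_dvd_mul_left t hunit.dvd
  choose D hD using h3
  refine ⟨∑ i, D i • e i, ?_⟩
  have hfin2 : g h0 ^ N * (g s1 * x) = g h0 ^ N * ((∑ i, D i • e i) * y) := by
    have e4 : ∑ i, c0 i • e i = g h0 ^ N * (∑ i, D i • e i) := by
      rw [Finset.mul_sum]
      refine Finset.sum_congr rfl fun j _ => ?_
      rw [hsm, hsm, hD j, map_mul, map_pow]
      ring
    calc g h0 ^ N * (g s1 * x) = g s1 * (g h0 ^ N * x) := by ring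
      _ = (∑ i, c0 i • e i) * y := hc0
      _ = g h0 ^ N * ((∑ i, D i • e i) * y) := by rw [e4, mul_assoc]
  exact mul_left_cancel₀ (pow_ne_zero N (hgne h0 h0ne)) hfin2

end Pool.LT2
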