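import Pool.Agent.Work.MP_03d391_lt2.Interface

/-!
# MP_03d391_ag, block UND (helper88): transcendence degree
-/

set_option autoImplicit false

noncomputable section

namespace Pool.LT2

open MvPolynomial Pool.LTO

theorem p_UND : Stmt_UND := by
  intro k _ r A _ _ _ g x hg hfin hx
  obtain ⟨y, hy⟩ : ∃ y : Fin r → A, ∀ i, y i = g (X i) := ⟨fun i => g (X i), fun _ => rfl⟩
  have hgy : g = MvPolynomial.aeval y := by
    apply MvPolynomial.algHom_ext
    intro i
    rw [aeval_X, hy]
  have hmem : ∀ p : MvPolynomial (Fin r) k, g p ∈ Algebra.adjoin k (Set.range y) := by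
    intro p
    rw [Algebra.adjoin_range_eq_range_aeval, hgy]
    exact ⟨p, rfl⟩
  have hal : Algebra.IsAlgebraic (Algebra.adjoin k (Set.range y)) A := by
    refine ⟨fun a => ?_⟩
    have h1 : g.toRingHom.IsIntegralElem a := RingHom.Finite.to_isIntegral hfin a
    have h2 : (algebraMap (Algebra.adjoin k (Set.range y)) A).comp
        (g.codRestrict (Algebra.adjoin k (Set.range y)) hmem).toRingHom = g.toRingHom := by
      ext p <;> rfl
    rw [← h2] at h1
    have h3 : IsIntegral (Algebra.adjoin k (Set.range y)) a := RingHom.IsIntegralElem.of_comp h1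
    exact h3.isAlgebraic
  have h1 : Algebra.trdeg k A ≤ Cardinal.mk (Set.range y) :=
    Algebra.IsAlgebraic.trdeg_le_cardinalMk k (Set.range y)
  have h2 : Cardinal.mk (Fin 4) ≤ Algebra.trdeg k A := hx.cardinalMk_le_trdeg
  have h3 : Cardinal.mk (Set.range y) ≤ Cardinal.mk (Fin r) := Cardinal.mk_range_le
  have h4 := (h2.trans h1).trans h3
  rw [Cardinal.mk_fin, Cardinal.mk_fin] at h4
  exact_mod_cast h4

end Pool.LT2
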