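import Pool.Agent.Work.MP_03d391_lt2.Interface

/-!
# MP_03d391_ag, block UNI (helper12): a uniform denominator for `S[u, w]`
-/

set_option autoImplicit false

noncomputable section

namespace Pool.LT2

open MvPolynomial Pool.LTO

/-- The images of the variables in a subalgebra of the fraction field are algebraically independent. -/
theorem UNI_indep (k : Type) [Field k] (A : Subalgebra (Sx k) (Kx k)) :
    AlgebraicIndependent k (fun i : Fin 4 => algebraMap (Sx k) A (X i)) := by
  rw [algebraicIndependent_iff_injective_aeval]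
  have h1 : ∀ P : MvPolynomial (Fin 4) k,
      aeval (fun i : Fin 4 => algebraMap (Sx k) A (X i)) P = algebraMap (Sx k) A P := by
    intro P
    induction P using MvPolynomial.induction_on with
    | C a =>
      rw [← MvPolynomial.algebraMap_eq, AlgHom.commutes]
      exact IsScalarTower.algebraMap_apply k (Sx k) A a
    | add p q hp hq => rw [map_add, hp, hq, map_add]
    | mul_X p i hp => rw [map_mul, hp, aeval_X, map_mul]
  intro P Q hPQ
  rw [h1, h1] at hPQ
  have h2 := congrArg (fun a : A => (a : Kx k)) hPQ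
  exact IsFractionRing.injective (Sx k) (Kx k) h2

/-- A polynomial minus its constant term lies in the ideal of the variables. -/
theorem UNI_const (k : Type) [Field k] (P : Sx k) :
    P - C (constantCoeff P) ∈ Ideal.span (Set.range (fun i : Fin 4 => (X i : Sx k))) := by
  induction P using MvPolynomial.induction_on with
  | C a => simp
  | add p q hp hq =>
    have h : p + q - C (constantCoeff (p + q)) = (p - C (constantCoeff p)) + (q - C (constantCoeff q)) := by
      rw [map_add, map_add]; ring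
    rw [h]
    exact Ideal.add_mem _ hp hq
  | mul_X p i hp =>
    have h : p * X i - C (constantCoeff (p * X i)) = p * X i := by
      rw [map_mul, constantCoeff_X, mul_zero, map_zero, sub_zero]
    rw [h]
    exact Ideal.mul_mem_left _ _ (Ideal.subset_span ⟨i, rfl⟩)

theorem p_UNI (h1 : Stmt_UNA) (h2 : Stmt_UNB) (h3 : Stmt_UND) : Stmt_UNI := by
  classical
  intro k _ u w
  obtain ⟨A, hA⟩ : ∃ A : Subalgebra (Sx k) (Kx k), A = Algebra.adjoin (Sx k) {u, w} := ⟨_, rfl⟩
  rw [← hA]
  have hu : u ∈ A := by rw [hA]; exact Algebra.subset_adjoin (by simp)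
  have hw : w ∈ A := by rw [hA]; exact Algebra.subset_adjoin (by simp)
  have hfg : A.FG := by
    rw [hA]
    exact ⟨{u, w}, by simp⟩
  have : Algebra.FiniteType (Sx k) A := A.fg_iff_finiteType.1 hfg
  have : Algebra.FiniteType k A := Algebra.FiniteType.trans (S := Sx k) inferInstance inferInstance
  obtain ⟨r, g, hginj, hgfin⟩ := exists_finite_inj_algHom_of_fg k A
  have hr : 4 ≤ r := h3 k r A g (fun i => algebraMap (Sx k) A (X i)) hginj hgfin (UNI_indep k A)
  obtain ⟨I, hI⟩ : ∃ I : Ideal A, I = Ideal.map (algebraMap (Sx k) A)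
    (Ideal.span (Set.range (fun i : Fin 4 => (X i : Sx k)))) := ⟨_, rfl⟩
  have hgen : ∀ x : A, ∃ P : MvPolynomial (Fin 2) k,
      x - aeval ![(⟨u, hu⟩ : A), (⟨w, hw⟩ : A)] P ∈ I := by
    have key : ∀ (x : Kx k) (hx : x ∈ Algebra.adjoin (Sx k) {u, w}), ∀ hx' : x ∈ A,
        ∃ P : MvPolynomial (Fin 2) k, (⟨x, hx'⟩ : A) - aeval ![(⟨u, hu⟩ : A), (⟨w, hw⟩ : A)] P ∈ I := by
      intro x hx
      induction hx using Algebra.adjoin_induction with
      | mem x hx =>
        intro hx'
        rcases hx with rfl | hx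
        · refine ⟨X 0, ?_⟩
          simp
        · rw [Set.mem_singleton_iff] at hx
          subst hx
          refine ⟨X 1, ?_⟩
          simp
      | algebraMap r =>
        intro hx'
        refine ⟨C (constantCoeff r), ?_⟩
        have h4 : (⟨algebraMap (Sx k) (Kx k) r, hx'⟩ : A) - aeval ![(⟨u, hu⟩ : A), (⟨w, hw⟩ : A)] (C (constantCoeff r))
            = algebraMap (Sx k) A (r - C (constantCoeff r)) := by
          rw [map_sub, ← MvPolynomial.algebraMap_eq, AlgHom.commutes, ← MvPolynomial.algebraMap_eq]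
          congr 1
        rw [h4, hI]
        exact Ideal.mem_map_of_mem _ (UNI_const k r)
      | add x y hx hy ihx ihy =>
        intro hxy
        rw [← hA] at hx hy
        obtain ⟨P, hP⟩ := ihx hx
        obtain ⟨Q, hQ⟩ := ihy hy
        refine ⟨P + Q, ?_⟩
        have h4 : (⟨x + y, hxy⟩ : A) - aeval ![(⟨u, hu⟩ : A), (⟨w, hw⟩ : A)] (P + Q)
            = ((⟨x, hx⟩ : A) - aeval ![(⟨u, hu⟩ : A), (⟨w, hw⟩ : A)] P)
              + ((⟨y, hy⟩ : A) - aeval ![(⟨u, hu⟩ : A), (⟨w, hw⟩ : A)] Q) := by
          have h5 : (⟨x + y, hxy⟩ : A) = (⟨x, hx⟩ : A) + (⟨y, hy⟩ : A) := rfl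
          rw [h5, map_add]; ring
        rw [h4]
        exact Ideal.add_mem _ hP hQ
      | mul x y hx hy ihx ihy =>
        intro hxy
        rw [← hA] at hx hy
        obtain ⟨P, hP⟩ := ihx hx
        obtain ⟨Q, hQ⟩ := ihy hy
        refine ⟨P * Q, ?_⟩
        have h4 : (⟨x * y, hxy⟩ : A) - aeval ![(⟨u, hu⟩ : A), (⟨w, hw⟩ : A)] (P * Q)
            = (⟨y, hy⟩ : A) * ((⟨x, hx⟩ : A) - aeval ![(⟨u, hu⟩ : A), (⟨w, hw⟩ : A)] P)
              + aeval ![(⟨u, hu⟩ : A), (⟨w, hw⟩ : A)] P * ((⟨y, hy⟩ : A) - aeval ![(⟨u, hu⟩ : A), (⟨w, hw⟩ : A)] Q) := by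
          have h5 : (⟨x * y, hxy⟩ : A) = (⟨x, hx⟩ : A) * (⟨y, hy⟩ : A) := rfl
          rw [h5, map_mul]; ring
        rw [h4]
        exact Ideal.add_mem _ (Ideal.mul_mem_left _ _ hP) (Ideal.mul_mem_left _ _ hQ)
    intro x
    have hx : (x : Kx k) ∈ Algebra.adjoin (Sx k) {u, w} := by rw [← hA]; exact x.2
    exact key x.1 hx x.2
  have hcom := h1 k r A g I (⟨u, hu⟩ : A) (⟨w, hw⟩ : A) hr hgen
  obtain ⟨s, hs0, hs⟩ := h2 k r A g I (by omega) hginj hgfin hcom
  obtain ⟨s1, t, ht, hst⟩ := IsFractionRing.div_surjective (A := Sx k) (s : Kx k)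
  have ht0 : (io t : Kx k) ≠ 0 := by
    intro h
    exact nonZeroDivisors.ne_zero ht ((map_eq_zero_iff _ (IsFractionRing.injective (Sx k) (Kx k))).1 h)
  have hs1 : io s1 = io t * (s : Kx k) := by
    rw [← hst]
    field_simp
  refine ⟨s1, ?_, ?_⟩
  · rintro rfl
    rw [map_zero] at hs1
    rcases mul_eq_zero.1 hs1.symm with h | h
    · exact ht0 h
    · exact hs0 (Subtype.ext h)
  · intro f hf
    obtain ⟨x, y, hy, hxy⟩ := IsFractionRing.div_surjective (A := Sx k) f
    have hy0 : (io y : Kx k) ≠ 0 := by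
      intro h
      exact nonZeroDivisors.ne_zero hy ((map_eq_zero_iff _ (IsFractionRing.injective (Sx k) (Kx k))).1 h)
    -- the ideal of all `i` with `i f` in `A`
    let Q : Ideal A :=
      { carrier := {i : A | (i : Kx k) * f ∈ A}
        add_mem' := by
          intro a b ha hb
          show ((a + b : A) : Kx k) * f ∈ A
          have h4 : ((a + b : A) : Kx k) * f = (a : Kx k) * f + (b : Kx k) * f := by
            push_cast; ring
          rw [h4]
          exact A.add_mem ha hb
        zero_mem' := by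
          show ((0 : A) : Kx k) * f ∈ A
          have h4 : ((0 : A) : Kx k) * f = 0 := by push_cast; ring
          rw [h4]
          exact A.zero_mem
        smul_mem' := by
          intro c a ha
          show ((c • a : A) : Kx k) * f ∈ A
          have h4 : ((c • a : A) : Kx k) * f = (c : Kx k) * ((a : Kx k) * f) := by
            rw [smul_eq_mul]; push_cast; ring
          rw [h4]
          exact A.mul_mem c.2 ha }
    have hQ : I ≤ Q.radical := by
      rw [hI, Ideal.map_le_iff_le_comap, Ideal.span_le]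
      rintro _ ⟨j, rfl⟩
      obtain ⟨N, hN⟩ := hf j
      refine ⟨N, ?_⟩
      show ((algebraMap (Sx k) A (X j) ^ N : A) : Kx k) * f ∈ A
      have h4 : ((algebraMap (Sx k) A (X j) ^ N : A) : Kx k) = io (X j ^ N : Sx k) := by
        rw [← map_pow]
        rfl
      rw [h4]
      exact hN
    have hIfg : I.FG := by
      rw [hI]
      exact Ideal.FG.map ⟨Finset.univ.image (fun i : Fin 4 => (X i : Sx k)), by simp⟩ _
    obtain ⟨N, hN⟩ := Ideal.exists_pow_le_of_le_radical_of_fg hQ hIfg
    obtain ⟨a, ha⟩ := hs (algebraMap (Sx k) A x) (algebraMap (Sx k) A y) (by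
      intro h
      apply hy0
      have h4 := congrArg (fun a : A => (a : Kx k)) h
      exact h4) ⟨N, by
        intro i hi
        have h4 : (i : Kx k) * f ∈ A := hN hi
        refine ⟨⟨(i : Kx k) * f, h4⟩, ?_⟩
        apply Subtype.ext
        show (i : Kx k) * io x = (i : Kx k) * f * io y
        rw [← hxy]
        field_simp⟩
    have ha' : (s : Kx k) * io x = (a : Kx k) * io y := congrArg (fun a : A => (a : Kx k)) ha
    have hsf : (s : Kx k) * f = (a : Kx k) := by
      rw [← hxy, ← mul_div_assoc, ha']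
      field_simp
    have h5 : io s1 * f = algebraMap (Sx k) A t * a := by
      show io s1 * f = io t * (a : Kx k)
      rw [hs1, mul_assoc, hsf]
    rw [h5]
    exact (algebraMap (Sx k) A t * a).2

end Pool.LT2
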