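import Pool.Agent.Work.MP_03d391_lt2.Interface
import Pool.Agent.Work.MP_03d391_lto.B_LA

set_option autoImplicit false

noncomputable section

namespace Pool.LT2

open MvPolynomial Pool.LTO

/-- component of a product with a form, degree too small -/
theorem GRDX_small {k : Type} [Field k] (s q : Sx k) (g N : ℕ) (hq : q.IsHomogeneous g) (hN : N < g) :
    homogeneousComponent N (s * q) = 0 := by
  have h1 : s * q = ∑ i ∈ Finset.range (s.totalDegree + 1), homogeneousComponent i s * q := by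
    rw [← Finset.sum_mul, sum_homogeneousComponent]
  rw [h1, map_sum]
  refine Finset.sum_eq_zero fun i _ => ?_
  have h2 : (homogeneousComponent i s * q).IsHomogeneous (i + g) :=
    (homogeneousComponent_isHomogeneous i s).mul hq
  rw [homogeneousComponent_of_mem (m := N) ((mem_homogeneousSubmodule _ _).mpr h2), if_neg (by omega)]

/-- the span of the `u^i w^j` with `a ≤ N + (i+j) c` -/
def GRDX_T {k : Type} [Field k] (u w : Kx k) (c a N : ℕ) : Submodule (Sx k) (Kx k) :=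
  Submodule.span (Sx k) {x | ∃ i j : ℕ, a ≤ N + (i + j) * c ∧ x = u ^ i * w ^ j}

/-- the predicate -/
def GRDX_Q {k : Type} [Field k] (u w : Kx k) (D : Sx k) (c d L : ℕ) (X : Kx k) : Prop :=
  ∃ Y : Sx k, io Y = io D ^ (2 * L) * X ∧ ∀ N : ℕ, ∃ Z ∈ GRDX_T u w c (2 * L * d) N,
    io (homogeneousComponent N Y) = io D ^ (2 * L) * Z

theorem GRDX_succ {k : Type} [Field k] {u w : Kx k} {D : Sx k} {c d L : ℕ} {X : Kx k} (hD : D.IsHomogeneous d)
    (h : GRDX_Q u w D c d L X) : GRDX_Q u w D c d (L + 1) X := by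
  obtain ⟨Y, hY, hN⟩ := h
  have hD2 : (D ^ 2).IsHomogeneous (2 * d) := by
    have := hD.pow 2
    rwa [mul_comm] at this
  refine ⟨Y * D ^ 2, ?_, ?_⟩
  · rw [map_mul, hY, map_pow]
    ring
  · intro N
    by_cases hlt : N < 2 * d
    · refine ⟨0, Submodule.zero_mem _, ?_⟩
      rw [GRDX_small _ _ _ _ hD2 hlt, map_zero, mul_zero]
    · obtain ⟨N', rfl⟩ : ∃ N', N = N' + 2 * d := ⟨N - 2 * d, by omega⟩
      obtain ⟨Z, hZ, hZ2⟩ := hN N'
      refine ⟨Z, ?_, ?_⟩
      · refine Submodule.span_mono ?_ hZ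
        rintro x ⟨i, j, hij, rfl⟩
        refine ⟨i, j, ?_, rfl⟩
        have : 2 * (L + 1) * d = 2 * L * d + 2 * d := by ring
        omega
      · rw [LAx.hc_mul Y (D ^ 2) hD2, map_mul, hZ2, map_pow]
        ring

theorem GRDX_mono {k : Type} [Field k] {u w : Kx k} {D : Sx k} {c d L L' : ℕ} {X : Kx k} (hD : D.IsHomogeneous d)
    (hL : L ≤ L') (h : GRDX_Q u w D c d L X) : GRDX_Q u w D c d L' X := by
  induction hL with
  | refl => exact h
  | step _ ih => exact GRDX_succ hD ih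

theorem GRDX_add {k : Type} [Field k] {u w : Kx k} {D : Sx k} {c d L : ℕ} {X X' : Kx k}
    (h : GRDX_Q u w D c d L X) (h' : GRDX_Q u w D c d L X') : GRDX_Q u w D c d L (X + X') := by
  obtain ⟨Y, hY, hN⟩ := h
  obtain ⟨Y', hY', hN'⟩ := h'
  refine ⟨Y + Y', by rw [map_add, hY, hY']; ring, ?_⟩
  intro N
  obtain ⟨Z, hZ, hZ2⟩ := hN N
  obtain ⟨Z', hZ', hZ2'⟩ := hN' N
  exact ⟨Z + Z', Submodule.add_mem _ hZ hZ', by rw [map_add, map_add, hZ2, hZ2']; ring⟩

theorem GRDX_gen {k : Type} [Field k] {b D q : Sx k} {c m : ℕ} (hb : b.IsHomogeneous m) (hD : D.IsHomogeneous (m + c))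
    (hq : q.IsHomogeneous (2 * m + c)) (hD0 : D ≠ 0) (r : Sx k) (i j : ℕ) :
    GRDX_Q (io b / io D) (io q / io D ^ 2) D c (m + c) (i + j) (io r * ((io b / io D) ^ i * (io q / io D ^ 2) ^ j)) := by
  have hD1 : io D ≠ (0 : Kx k) := by
    rw [Ne, FaithfulSMul.algebraMap_eq_zero_iff]
    exact hD0
  have hY : ∀ x : Sx k, io (x * (b ^ i * q ^ j * D ^ i)) =
      io D ^ (2 * (i + j)) * (io x * ((io b / io D) ^ i * (io q / io D ^ 2) ^ j)) := by
    intro x
    rw [map_mul, map_mul, map_mul, map_pow, map_pow, map_pow, div_pow, div_pow]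
    field_simp
    ring
  have hg : (b ^ i * q ^ j * D ^ i).IsHomogeneous ((i + j) * (2 * m + c)) := by
    have h1 := ((hb.pow i).mul (hq.pow j)).mul (hD.pow i)
    have h2 : m * i + (2 * m + c) * j + (m + c) * i = (i + j) * (2 * m + c) := by ring
    rwa [h2] at h1
  refine ⟨r * (b ^ i * q ^ j * D ^ i), hY r, ?_⟩
  intro N
  have hkey : 2 * (i + j) * (m + c) = (i + j) * (2 * m + c) + (i + j) * c := by ring
  by_cases hlt : N < (i + j) * (2 * m + c)
  · refine ⟨0, Submodule.zero_mem _, ?_⟩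
    rw [GRDX_small _ _ _ _ hg hlt, map_zero, mul_zero]
  · obtain ⟨N', rfl⟩ : ∃ N', N = N' + (i + j) * (2 * m + c) := ⟨N - (i + j) * (2 * m + c), by omega⟩
    rw [LAx.hc_mul r _ hg]
    refine ⟨io (homogeneousComponent N' r) * ((io b / io D) ^ i * (io q / io D ^ 2) ^ j), ?_, hY _⟩
    have h3 : (io b / io D) ^ i * (io q / io D ^ 2) ^ j ∈
        GRDX_T (io b / io D) (io q / io D ^ 2) c (2 * (i + j) * (m + c)) (N' + (i + j) * (2 * m + c)) := by
      refine Submodule.subset_span ⟨i, j, ?_, rfl⟩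
      rw [hkey]
      omega
    have h4 := Submodule.smul_mem _ (homogeneousComponent N' r) h3
    rwa [Algebra.smul_def] at h4

theorem GRDX_all {k : Type} [Field k] {b D q : Sx k} {c m : ℕ} (hb : b.IsHomogeneous m) (hD : D.IsHomogeneous (m + c))
    (hq : q.IsHomogeneous (2 * m + c)) (hD0 : D ≠ 0) (X : Kx k)
    (hX : X ∈ Algebra.adjoin (Sx k) {io b / io D, io q / io D ^ 2}) :
    ∃ L, GRDX_Q (io b / io D) (io q / io D ^ 2) D c (m + c) L X := by
  rw [← Subalgebra.mem_toSubmodule, Algebra.adjoin_eq_span] at hX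
  have hX2 : X ∈ Submodule.span (Sx k) {x : Kx k | ∃ i j : ℕ, x = (io b / io D) ^ i * (io q / io D ^ 2) ^ j} := by
    refine Submodule.span_mono ?_ hX
    intro x hx
    induction hx using Submonoid.closure_induction with
    | mem x hx =>
      rcases hx with rfl | rfl
      · exact ⟨1, 0, by rw [pow_one, pow_zero, mul_one]⟩
      · exact ⟨0, 1, by rw [pow_one, pow_zero, one_mul]⟩
    | one => exact ⟨0, 0, by rw [pow_zero, pow_zero, mul_one]⟩
    | mul x y _ _ hx hy =>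
      obtain ⟨i, j, rfl⟩ := hx
      obtain ⟨i', j', rfl⟩ := hy
      exact ⟨i + i', j + j', by rw [pow_add, pow_add]; ring⟩
  refine Submodule.span_induction (p := fun x _ => ∀ r : Sx k, ∃ L, GRDX_Q (io b / io D) (io q / io D ^ 2) D c (m + c) L (io r * x))
    ?_ ?_ ?_ ?_ hX2 1 |>.imp fun L h => ?_
  · rintro _ ⟨i, j, rfl⟩ r
    exact ⟨i + j, GRDX_gen hb hD hq hD0 r i j⟩
  · intro r
    refine ⟨0, 0, by simp, fun N => ⟨0, Submodule.zero_mem _, by simp⟩⟩
  · intro x y _ _ hx hy r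
    obtain ⟨L1, h1⟩ := hx r
    obtain ⟨L2, h2⟩ := hy r
    refine ⟨max L1 L2, ?_⟩
    rw [mul_add]
    exact GRDX_add (GRDX_mono hD (le_max_left _ _) h1) (GRDX_mono hD (le_max_right _ _) h2)
  · intro a x _ hx r
    obtain ⟨L, h⟩ := hx (r * a)
    refine ⟨L, ?_⟩
    rw [Algebra.smul_def, ← mul_assoc, ← map_mul]
    exact h
  · rw [map_one, one_mul] at h
    exact h

theorem GRDX_prod {k : Type} [Field k] (P : Fin 4 → Sx k) (g : ℕ) (hP : ∀ i, (P i).IsHomogeneous g) (M : ℕ)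
    (α : Fin M → Fin 4) : (∏ j, P (α j)).IsHomogeneous (M * g) := by
  have h := IsHomogeneous.prod Finset.univ (fun j => P (α j)) (fun _ => g) (fun j _ => hP _)
  simpa using h

theorem pX_GRD : Stmt_GRD := by
  intro k _ c m b D q s P hc hb hD hq hP hD0 hs0 H
  have hD1 : io D ≠ (0 : Kx k) := by
    rw [Ne, FaithfulSMul.algebraMap_eq_zero_iff]
    exact hD0
  obtain ⟨l, hl⟩ : ∃ l, homogeneousComponent l s ≠ 0 := by
    by_contra hcon
    push Not at hcon
    apply hs0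
    rw [← sum_homogeneousComponent s]
    exact Finset.sum_eq_zero fun m _ => hcon m
  refine ⟨l, homogeneousComponent l s, hl, ?_⟩
  intro M α
  obtain ⟨L0, h0⟩ := GRDX_all hb hD hq hD0 _ (H M α)
  obtain ⟨Y, hY, hN⟩ := GRDX_mono (L' := L0 + M) hD (by omega) h0
  have hprod : ∀ x : Sx k, io D ^ (2 * (L0 + M)) * (io x * ∏ j, (io (P (α j)) / io D ^ 2)) =
      io (x * ((∏ j, P (α j)) * D ^ (2 * L0))) := by
    intro x
    rw [Finset.prod_div_distrib, Finset.prod_const, Finset.card_univ, Fintype.card_fin, map_mul, map_mul, map_prod,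
      map_pow]
    field_simp
    ring
  have hYeq : Y = s * ((∏ j, P (α j)) * D ^ (2 * L0)) := by
    apply FaithfulSMul.algebraMap_injective (Sx k) (Kx k)
    exact hY.trans (hprod s)
  have hhom : ((∏ j, P (α j)) * D ^ (2 * L0)).IsHomogeneous (M * (2 * m + c - 1) + (m + c) * (2 * L0)) :=
    (GRDX_prod P _ hP M α).mul (hD.pow _)
  obtain ⟨Z, hZ, hZ2⟩ := hN (l + (M * (2 * m + c - 1) + (m + c) * (2 * L0)))
  rw [hYeq, LAx.hc_mul s _ hhom, ← hprod] at hZ2
  have hZ3 : io (homogeneousComponent l s) * ∏ j, (io (P (α j)) / io D ^ 2) = Z :=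
    mul_left_cancel₀ (pow_ne_zero _ hD1) hZ2
  rw [hZ3]
  refine Submodule.span_mono ?_ hZ
  rintro x ⟨i, j, hij, rfl⟩
  refine ⟨i, j, ?_, rfl⟩
  obtain ⟨e, he⟩ : ∃ e, 2 * m + c = e + 1 := ⟨2 * m + c - 1, by omega⟩
  have he2 : 2 * m + c - 1 = e := by omega
  rw [he2] at hij
  have h1 : 2 * (L0 + M) * (m + c) = (m + c) * (2 * L0) + M * (2 * m + c) + M * c := by ring
  rw [h1, he] at hij
  have h2 : M * (e + 1) = M * e + M := by ring
  have h3 : M * (c + 1) = M * c + M := by ring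
  rw [h2] at hij
  rw [h3]
  omega

end Pool.LT2
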