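import Pool.Agent.Work.MP_03d391_lt2.Interface

set_option autoImplicit false

noncomputable section

namespace Pool.LT2

open MvPolynomial Pool.LTO

theorem T2CX_comp_nat {k : Type} [Field k] (m : ℕ) (f : Sx k) : comp (m : ℤ) f = homogeneousComponent m f := by
  unfold comp
  rw [if_pos (Int.natCast_nonneg m), Int.toNat_natCast]

theorem T2CX_bundle {k : Type} [Field k] {n : ℕ} {E : Submodule (Polynomial (Sx k)) (Fr k)} (h : BundleC k 0 n E) :
    Bundle k n E := by
  refine ⟨?_, h.pow, h.sat, h.loc⟩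
  intro e he m
  obtain ⟨e', he', hc⟩ := h.hom e he (m : ℤ)
  refine ⟨e', he', ?_⟩
  intro a j
  have h1 := hc j
  rw [Nat.cast_zero, add_zero, T2CX_comp_nat, T2CX_comp_nat] at h1
  fin_cases a
  · exact h1.1
  · exact h1.2

theorem T2CX_const {k : Type} [Field k] (v : Fin 2 → Polynomial k) :
    Homog 0 (fun a => (v a).map (C : k →+* Sx k)) := by
  refine ⟨0, fun j => ?_⟩
  have h : ∀ x : k, comp (0 : ℤ) (C x : Sx k) = C x := by
    intro x
    have h1 := T2CX_comp_nat 0 (C x : Sx k)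
    rw [Nat.cast_zero] at h1
    rw [h1, homogeneousComponent_zero, coeff_C, if_pos rfl]
  rw [Nat.cast_zero, add_zero, Polynomial.coeff_map, Polynomial.coeff_map]
  exact ⟨h _, h _⟩

theorem pX_T2C (h1 : Stmt_FINC) (h2 : Stmt_LOWC) (h3 : Stmt_FIN) : Stmt_T2C := by
  intro k _ _ c n E hE hn
  rcases Nat.eq_zero_or_pos c with hc | hc
  · subst hc
    have hB := T2CX_bundle hE
    obtain ⟨v, w, hvw⟩ := h3 k n E hB hn
    exact ⟨_, _, T2CX_const v, T2CX_const w, hvw⟩
  · refine h1 k c n E hc hE ?_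
    rcases hn with h | h
    · exact h2 k c n E hE h
    · exact h

end Pool.LT2
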