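import Pool.Agent.Work.MP_03d391_lt2.Interface

set_option autoImplicit false

noncomputable section

namespace Pool.LT2

open MvPolynomial Pool.LTO

theorem pX_UNC : Stmt_UNC := by
  intro R A _ _ _ _ _
  classical
  obtain ⟨N, v, hv⟩ := Module.Finite.exists_fin (R := R) (M := A)
  obtain ⟨T, hT, hmax⟩ := exists_maximal_linearIndepOn R v
  have hall : ∀ i : Fin N, ∃ a : R, a ≠ 0 ∧ a • v i ∈ Submodule.span R (v '' T) := by
    intro i
    by_cases hi : i ∈ T
    · exact ⟨1, one_ne_zero, by rw [one_smul]; exact Submodule.subset_span ⟨i, hi, rfl⟩⟩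
    · exact hmax i hi
  choose a ha0 ha using hall
  let eT : Fin (Fintype.card T) ≃ T := (Fintype.equivFin T).symm
  have hrange : Set.range (fun j => v (eT j : Fin N)) = v '' T := by
    ext x
    constructor
    · rintro ⟨j, rfl⟩
      exact ⟨_, (eT j).2, rfl⟩
    · rintro ⟨i, hi, rfl⟩
      exact ⟨eT.symm ⟨i, hi⟩, by simp⟩
  refine ⟨Fintype.card T, fun j => v (eT j : Fin N), ∏ i, a i, ?_, ?_, ?_⟩
  · exact LinearIndependent.comp (v := fun x : T => v x) hT eT eT.injective
  · exact Finset.prod_ne_zero_iff.mpr fun i _ => ha0 i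
  · intro x
    rw [hrange]
    have hx : x ∈ Submodule.span R (Set.range v) := by rw [hv]; trivial
    refine Submodule.span_induction (p := fun x _ => (∏ i, a i) • x ∈ Submodule.span R (v '' T)) ?_ ?_ ?_ ?_ hx
    · rintro _ ⟨i, rfl⟩
      rw [← Finset.mul_prod_erase Finset.univ a (Finset.mem_univ i), mul_comm, mul_smul]
      exact Submodule.smul_mem _ _ (ha i)
    · rw [smul_zero]
      exact Submodule.zero_mem _
    · intro y z _ _ hy hz
      rw [smul_add]
      exact Submodule.add_mem _ hy hz
    · intro r y _ hy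
      rw [smul_comm]
      exact Submodule.smul_mem _ _ hy

end Pool.LT2
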