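import Pool.Agent.Work.MP_03d391_lt2.Interface

/-!
# MP_03d391_ag, THEOREM T2, block EUL: the Euler formula
-/

set_option autoImplicit false

noncomputable section

namespace Pool.LT2

open MvPolynomial Pool.LTO

theorem p_EUL : Stmt_EUL := by
  intro k _ _ c m l b D s' w hc hb hD hD0 H M
  have hD' : (io D : Kx k) ≠ 0 :=
    (map_ne_zero_iff _ (IsFractionRing.injective (Sx k) (Kx k))).2 hD0
  have e1 : ∑ i, X i * (D * pderiv i b - b * pderiv i D) = -((c : Sx k) * (b * D)) := by
    have h1 := hb.sum_X_mul_pderiv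
    have h2 := hD.sum_X_mul_pderiv
    have h3 : ∑ i, X i * (D * pderiv i b - b * pderiv i D) =
        D * ∑ i, X i * pderiv i b - b * ∑ i, X i * pderiv i D := by
      rw [Finset.mul_sum, Finset.mul_sum, ← Finset.sum_sub_distrib]
      refine Finset.sum_congr rfl fun i _ => ?_
      ring
    rw [h3, h1, h2]
    simp only [nsmul_eq_mul]
    push_cast
    ring
  have e2 : ∑ i, (io (X i) : Kx k) * (io (D * pderiv i b - b * pderiv i D) / io D ^ 2) =
      -(c : Kx k) * (io b / io D) := by
    have h4 : ∑ i, (io (X i) : Kx k) * (io (D * pderiv i b - b * pderiv i D) / io D ^ 2) =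
        io (∑ i, X i * (D * pderiv i b - b * pderiv i D)) / io D ^ 2 := by
      rw [map_sum, Finset.sum_div]
      refine Finset.sum_congr rfl fun i _ => ?_
      rw [map_mul, mul_div_assoc]
    rw [h4, e1]
    simp only [map_neg, map_mul, map_natCast]
    field_simp
  have e3 : io s' * (-(c : Kx k) * (io b / io D)) ^ M ∈ Sp (io b / io D) w c l M := by
    rw [← e2, Fintype.sum_pow, Finset.mul_sum]
    refine Submodule.sum_mem _ fun α _ => ?_
    have h5 : io s' * ∏ j, ((io (X (α j)) : Kx k) *
          (io (D * pderiv (α j) b - b * pderiv (α j) D) / io D ^ 2)) =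
        (∏ j, X (α j) : Sx k) • (io s' * ∏ j,
          ((io (D * pderiv (α j) b - b * pderiv (α j) D) : Kx k) / io D ^ 2)) := by
      rw [Finset.prod_mul_distrib, Algebra.smul_def, map_prod]
      ring
    rw [h5]
    exact Submodule.smul_mem _ _ (H M α)
  have hc' : (-(c : k)) ≠ 0 := neg_ne_zero.2 (Nat.cast_ne_zero.2 (by omega))
  have h7 : (io (C ((-(c : k))⁻¹ ^ M) : Sx k) : Kx k) * (-(c : Kx k)) ^ M = 1 := by
    have h8 : (-(c : Kx k)) = io (C (-(c : k)) : Sx k) := by
      rw [map_neg, map_neg, map_natCast, map_natCast]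
    rw [h8, ← map_pow, ← map_pow, ← map_mul, ← map_mul, ← mul_pow, inv_mul_cancel₀ hc', one_pow,
      map_one, map_one]
  have h6 : (io s' : Kx k) * (io b / io D) ^ M =
      (C ((-(c : k))⁻¹ ^ M) : Sx k) • (io s' * (-(c : Kx k) * (io b / io D)) ^ M) := by
    rw [Algebra.smul_def, mul_pow]
    linear_combination (-(io s' * (io b / io D) ^ M)) * h7
  rw [h6]
  exact Submodule.smul_mem _ _ e3

end Pool.LT2
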