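import Pool.Agent.Work.MP_03d391_lt2.Interface
import Pool.Agent.Work.MP_03d391_lto.B_LA

/-! Block GRD of MP_03d391_lt2 (typed by helper10). -/

set_option autoImplicit false

noncomputable section

namespace Pool.LT2

open MvPolynomial Pool.LTO

local instance {k : Type} [Field k] : GradedAlgebra (homogeneousSubmodule (Fin 4) k) := MvPolynomial.gradedAlgebra

theorem GRD_hc {k : Type} [Field k] {m : ℕ} (a q : Sx k) (hq : q.IsHomogeneous m) (N : ℕ) :
    homogeneousComponent N (a * q) = (if m ≤ N then homogeneousComponent (N - m) a else 0) * q := by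
  split_ifs with h
  · obtain ⟨n, rfl⟩ := Nat.exists_eq_add_of_le' h
    rw [Nat.add_sub_cancel]
    exact LAx.hc_mul a q hq
  · rw [zero_mul]
    have h1 := DirectSum.coe_decompose_mul_of_right_mem_of_not_le (homogeneousSubmodule (Fin 4) k) (a := a) (n := N)
      (i := m) (b := q) ((mem_homogeneousSubmodule _ _).2 hq) h
    have e1 := decomposition.decompose'_apply (a * q) N
    rw [← e1]
    exact h1

theorem GRD_uw {K : Type} [Field K] (b D q : K) (hD : D ≠ 0) (i j L : ℕ) (h : i + 2 * j ≤ 2 * L) :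
    (b / D) ^ i * (q / D ^ 2) ^ j * D ^ (2 * L) = b ^ i * q ^ j * D ^ (2 * L - (i + 2 * j)) := by
  obtain ⟨e, he⟩ := Nat.exists_eq_add_of_le h
  have e1 : 2 * L - (i + 2 * j) = e := by omega
  have e2 : D ^ (2 * L) = D ^ i * (D ^ 2) ^ j * D ^ e := by
    rw [he, ← pow_mul, ← pow_add, ← pow_add]
  rw [e1, e2, div_pow, div_pow]
  field_simp

theorem GRD_pr {K : Type} [Field K] (D : K) (hD : D ≠ 0) (M L : ℕ) (f : Fin M → K) (h : M ≤ L) :
    (∏ j, (f j / D ^ 2)) * D ^ (2 * L) = (∏ j, f j) * D ^ (2 * L - 2 * M) := by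
  obtain ⟨e, rfl⟩ := Nat.exists_eq_add_of_le h
  have e1 : 2 * (M + e) - 2 * M = 2 * e := by omega
  have e2 : D ^ (2 * (M + e)) = (D ^ 2) ^ M * D ^ (2 * e) := by
    rw [← pow_mul, ← pow_add]
    congr 1
    ring
  rw [e1, e2, Finset.prod_div_distrib, Finset.prod_const, Finset.card_univ, Fintype.card_fin]
  field_simp

theorem p_GRD : Stmt_GRD := by
  intro k _ c m b D q s P hc hb hD hq hP hD0 hs hall
  obtain ⟨l, hl⟩ : ∃ l, homogeneousComponent l s ≠ 0 := by
    by_contra hcon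
    push Not at hcon
    apply hs
    rw [← sum_homogeneousComponent s]
    exact Finset.sum_eq_zero fun i _ => hcon i
  refine ⟨l, homogeneousComponent l s, hl, fun M α => ?_⟩
  have h1 := hall M α
  have hinj : Function.Injective (io : Sx k →+* Kx k) := IsFractionRing.injective (Sx k) (Kx k)
  have hD' : io D ≠ 0 := by
    intro h0
    exact hD0 (hinj (by rw [h0, map_zero]))
  set u : Kx k := io b / io D with hu
  set w : Kx k := io q / io D ^ 2 with hw
  obtain ⟨Q, hQ⟩ : ∃ Q : MvPolynomial (Fin 2) (Sx k), aeval ![u, w] Q = io s * ∏ j, (io (P (α j)) / io D ^ 2) := by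
    have h2 : ({u, w} : Set (Kx k)) = Set.range ![u, w] := by
      simp [Matrix.range_cons, Set.pair_comm]
    rw [h2, Algebra.adjoin_range_eq_range_aeval] at h1
    exact h1
  rw [MvPolynomial.aeval_def, MvPolynomial.eval₂_eq'] at hQ
  simp only [Fin.prod_univ_two, Matrix.cons_val_zero, Matrix.cons_val_one] at hQ
  set L : ℕ := M + ∑ d ∈ Q.support, (d 0 + 2 * d 1) with hLdef
  have hL : ∀ d ∈ Q.support, d 0 + 2 * d 1 ≤ 2 * L := by
    intro d hd
    have := Finset.single_le_sum (f := fun d : Fin 2 →₀ ℕ => d 0 + 2 * d 1) (fun _ _ => Nat.zero_le _) hd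
    have h9 : d 0 + 2 * d 1 ≤ ∑ d ∈ Q.support, (d 0 + 2 * d 1) := this
    omega
  have hML : M ≤ L := by omega
  have key : ∀ d ∈ Q.support, ∀ g : Sx k, io g * (u ^ (d 0) * w ^ (d 1)) * io D ^ (2 * L) =
      io (g * (b ^ (d 0) * q ^ (d 1) * D ^ (2 * L - (d 0 + 2 * d 1)))) := by
    intro d hd g
    rw [mul_assoc (io g), GRD_uw (io b) (io D) (io q) hD' _ _ L (hL d hd), map_mul io g]
    simp only [map_mul, map_pow]
  have E1 : s * ((∏ j, P (α j)) * D ^ (2 * L - 2 * M)) =
      ∑ d ∈ Q.support, coeff d Q * (b ^ (d 0) * q ^ (d 1) * D ^ (2 * L - (d 0 + 2 * d 1))) := by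
    apply hinj
    have e3 := congrArg (fun x => x * io D ^ (2 * L)) hQ
    rw [mul_assoc, GRD_pr (io D) hD' M L (fun j => io (P (α j))) hML, Finset.sum_mul] at e3
    rw [map_mul, map_mul, map_prod, map_pow, map_sum, ← e3]
    exact Finset.sum_congr rfl fun d hd => key d hd _
  have hform : ((∏ j, P (α j)) * D ^ (2 * L - 2 * M)).IsHomogeneous (M * (2 * m + c - 1) + (m + c) * (2 * L - 2 * M)) := by
    refine IsHomogeneous.mul ?_ (hD.pow _)
    have := IsHomogeneous.prod Finset.univ (fun j : Fin M => P (α j)) (fun _ => 2 * m + c - 1) (fun j _ => hP (α j))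
    simpa using this
  have hform2 : ∀ d ∈ Q.support, (b ^ (d 0) * q ^ (d 1) * D ^ (2 * L - (d 0 + 2 * d 1))).IsHomogeneous
      (m * d 0 + (2 * m + c) * d 1 + (m + c) * (2 * L - (d 0 + 2 * d 1))) := fun d _ =>
    IsHomogeneous.mul (IsHomogeneous.mul (hb.pow _) (hq.pow _)) (hD.pow _)
  set N : ℕ := l + (M * (2 * m + c - 1) + (m + c) * (2 * L - 2 * M)) with hN
  have E2 : homogeneousComponent l s * ((∏ j, P (α j)) * D ^ (2 * L - 2 * M)) =
      ∑ d ∈ Q.support, (if m * d 0 + (2 * m + c) * d 1 + (m + c) * (2 * L - (d 0 + 2 * d 1)) ≤ N then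
        homogeneousComponent (N - (m * d 0 + (2 * m + c) * d 1 + (m + c) * (2 * L - (d 0 + 2 * d 1)))) (coeff d Q) else 0) *
        (b ^ (d 0) * q ^ (d 1) * D ^ (2 * L - (d 0 + 2 * d 1))) := by
    rw [← LAx.hc_mul s _ hform, ← hN, E1, map_sum]
    exact Finset.sum_congr rfl fun d hd => GRD_hc _ _ (hform2 d hd) N
  have E3 : io (homogeneousComponent l s) * ∏ j, (io (P (α j)) / io D ^ 2) =
      ∑ d ∈ Q.support, io (if m * d 0 + (2 * m + c) * d 1 + (m + c) * (2 * L - (d 0 + 2 * d 1)) ≤ N then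
        homogeneousComponent (N - (m * d 0 + (2 * m + c) * d 1 + (m + c) * (2 * L - (d 0 + 2 * d 1)))) (coeff d Q) else 0) *
        (u ^ (d 0) * w ^ (d 1)) := by
    have hDL : io D ^ (2 * L) ≠ 0 := pow_ne_zero _ hD'
    apply mul_right_cancel₀ hDL
    rw [mul_assoc, GRD_pr (io D) hD' M L (fun j => io (P (α j))) hML, Finset.sum_mul]
    have e4 := congrArg io E2
    rw [map_mul, map_mul, map_prod, map_pow, map_sum] at e4
    rw [e4]
    exact Finset.sum_congr rfl fun d hd => (key d hd _).symm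
  rw [E3]
  refine Submodule.sum_mem _ fun d hd => ?_
  split_ifs with hcond
  · rw [← Algebra.smul_def]
    refine Submodule.smul_mem _ _ (Submodule.subset_span ⟨d 0, d 1, ?_, rfl⟩)
    have h5 := hL d hd
    obtain ⟨e, he⟩ := Nat.exists_eq_add_of_le h5
    obtain ⟨f, hf⟩ := Nat.exists_eq_add_of_le hML
    have e5 : 2 * L - (d 0 + 2 * d 1) = e := by omega
    have e6 : 2 * L - 2 * M = 2 * f := by omega
    obtain ⟨c', rfl⟩ := Nat.exists_eq_add_of_le' hc
    have e7 : 2 * m + (c' + 1) - 1 = 2 * m + c' := by omega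
    rw [hN, e5, e6, e7] at hcond
    have e8 : 2 * f + 2 * M = d 0 + 2 * d 1 + e := by omega
    have e9 : (m + (c' + 1)) * (2 * f + 2 * M) = (m + (c' + 1)) * (d 0 + 2 * d 1 + e) := by rw [e8]
    nlinarith [hcond, e9]
  · rw [map_zero, zero_mul]
    exact Submodule.zero_mem _

end Pool.LT2
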