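import Pool.Agent.Work.MP_03d391_lt2.Interface

set_option autoImplicit false

noncomputable section

namespace Pool.LT2

open MvPolynomial Pool.LTO

theorem SF_cc {k : Type} [Field k] (f : Sx k) (n : ℕ) (hf : f.IsHomogeneous n) (hn : 1 ≤ n) :
    constantCoeff f = 0 := by
  rw [constantCoeff_eq]
  apply hf.coeff_eq_zero
  simp only [map_zero]
  omega

theorem SF_unit {k : Type} [Field k] (f : Sx k) (hf : f.IsHomogeneous 0) (h0 : f ≠ 0) : IsUnit f := by
  have h1 : f.totalDegree = 0 := hf.totalDegree h0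
  have h2 : f = C (f.coeff 0) := totalDegree_eq_zero_iff_eq_C.mp h1
  have h3 : f.coeff 0 ≠ 0 := by
    intro h
    rw [h, map_zero] at h2
    exact h0 h2
  rw [h2]
  exact (isUnit_iff_ne_zero.mpr h3).map C

theorem p_SF (h1 : Stmt_FAC) (h2 : Stmt_CC) (h3 : Stmt_CD) (h4 : Stmt_NEG) : Stmt_SF := by
  intro k _ c n d r E B D' N M hc hS hB hD' hN hM hNM hN0 hM0 hRel
  by_contra hBu
  have hB0 : B ≠ 0 := hS.B0
  obtain ⟨π, hirr, hπB⟩ := WfDvdMonoid.exists_irreducible_factor hBu hB0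
  have hprime : Prime π := UniqueFactorizationMonoid.irreducible_iff_prime.mp hirr
  have hπu : ¬ IsUnit π := hirr.not_isUnit
  have hπ0 : π ≠ 0 := hirr.ne_zero
  obtain ⟨B', hB'⟩ := hπB
  obtain ⟨i, j, hi, -, -⟩ := h1 k π B' d (by rw [← hB']; exact hB) (by rw [← hB']; exact hB0)
  have hi1 : 1 ≤ i := by
    rcases Nat.eq_zero_or_pos i with h | h
    · subst h
      exact absurd (SF_unit π hi hπ0) hπu
    · exact h
  have hπB : π ∣ B := ⟨B', hB'⟩
  have hπc : constantCoeff π = 0 := SF_cc π i hi hi1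
  have hDc : constantCoeff D' = 0 := SF_cc D' (d + c) hD' (by omega)
  have hπN : π ∣ N := h2 k c n E B D' N M hS hNM hN0 hM0 hRel π hprime hπB hπc hDc
  have hπM : ¬ π ∣ M := fun h => hπu (hNM hπN h)
  have hfin : FiniteMultiplicity π N := FiniteMultiplicity.of_not_isUnit hπu hN0
  obtain ⟨N1, hN1, hπN1⟩ := hfin.exists_eq_pow_mul_and_not_dvd
  set l := multiplicity π N with hl
  have hl1 : 1 ≤ l := by
    rcases Nat.eq_zero_or_pos l with h | h
    · rw [h, pow_zero, one_mul] at hN1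
      rw [hN1] at hπN
      exact absurd hπN hπN1
    · exact h
  obtain ⟨i', r1, hi', hr1, hir⟩ := h1 k (π ^ l) N1 r (by rw [← hN1]; exact hN)
    (by rw [← hN1]; exact hN0)
  have hpl : (π ^ l).IsHomogeneous (i * l) := hi.pow l
  have hii : i' = i * l := hi'.inj_right hpl (pow_ne_zero l hπ0)
  have hlt : r1 < r := by
    have : 0 < i * l := Nat.mul_pos hi1 hl1
    omega
  let I : Ideal (Sx k) := Submodule.comap (LinearMap.mulRight (Sx k) N1) (Ideal.span {M, π})
  have hI : ∀ s : Sx k, s ∈ I ↔ s * N1 ∈ Ideal.span {M, π} := fun s => Iff.rfl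
  have hrad : ∀ j : Fin 4, (X j : Sx k) ∈ I.radical := by
    intro j
    rw [Ideal.radical_eq_sInf, Ideal.mem_sInf]
    rintro p ⟨hIp, hp⟩
    by_contra hj
    obtain ⟨s, hs, hs2⟩ := h3 k c n E B D' N M hS hNM hN0 hM0 hRel π N1 l hprime hπB hl1 hN1 hπM
      p hp ⟨j, hj⟩
    exact hs (hIp ((hI s).mpr hs2))
  refine hπN1 (h4 k π M N1 i r r1 hprime hi hM hr1 hlt hπM ?_)
  intro j
  obtain ⟨K, hK⟩ := hrad j
  exact ⟨K, (hI _).mp hK⟩

end Pool.LT2
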