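import Pool.Agent.Work.MP_03d391_lto.Interface

/-!
# MP_03d391_ag, THEOREM T2 (helper65): vector bundles of rank two with any pair of degrees `(a, b)`

`k` a field of characteristic `0`, `S = k[x_0,..,x_3]`, `F = S[t] ⊕ S[t](c)`: the first coordinate of an element of degree `m` has degree `m`, the second one
`m + c`. `E ≤ F` graded, saturated, containing `t^N F`, locally free of rank `2` with determinant `t^n`, of types `(n,0)` or `(n-1,1)` at all points (true for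
`n ≤ 3`). Then `E` is generated by two homogeneous elements. `c = 0` is THEOREM T1 (namespace `Pool.LTO`, reused); all blocks below are for `c ≥ 1`.

Notation in the hints: `ι` is the map from `S` to the fraction field `K = Kx k`; for `e ∈ F` write `β_j = (e 0).coeff j`, `δ_j = (e 1).coeff j`; a point is a prime `p` of
`S` with some `x_i ∉ p`. PROOF for `c ≥ 1`: `z ∈ E` homogeneous, `b = β_0(z)`, `D = δ_0(z)`, `q = Qd z`, `P_i = Pd i z`; locally `P_i ∈ (q, D², Db, b²)` (CLM of T1). `u = b/D`,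
`w = q/D²`, `λ = bD/q = u/w`, `p_i = P_i/D²`, `Σ x_i p_i = - c u` (Euler). One `s ≠ 0` clears all products of the `p_i` in `A = S[u,w]` (UNI). Degrees: `u`, `w` have degree `-c`,
`p_i` has degree `-c-1`, so a product of `M` factors `p_i` times `s` lies in `(u,w)^{(M(c+1)-l)/c} A`, so (Euler) `s u^M` does: so `s` lies in all `u^j A'`, `A' = k(λ)[S][u]`: `u` is a unit of `A'`,
and `y = D/b` is integral over `k(λ)[S]` (`Rel`). Then for a prime `π` dividing `B = b/gcd(b,D)` two local arguments (CC, CD) and a count of dimensions (NEG) give a contradiction: `b ∣ D`.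
-/

set_option autoImplicit false

noncomputable section

namespace Pool.LT2

open MvPolynomial Pool.LTO

/-- The component of degree `m` of `f` (`0` if `m < 0`). -/
def comp {k : Type} [Field k] (m : ℤ) (f : Sx k) : Sx k :=
  if 0 ≤ m then homogeneousComponent m.toNat f else 0

/-- A vector bundle of rank `2` on `ℙ³ × Spec k[[t]]` inside `F = S[t] ⊕ S[t](c)`, equal to `F` outside `t = 0`, with determinant `t^n`. -/
structure BundleC (k : Type) [Field k] (c n : ℕ) (E : Submodule (Polynomial (Sx k)) (Fr k)) : Prop where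
  hom : ∀ e ∈ E, ∀ m : ℤ, ∃ e' ∈ E, ∀ j, (e' 0).coeff j = comp m ((e 0).coeff j) ∧ (e' 1).coeff j = comp (m + c) ((e 1).coeff j)
  pow : ∃ N : ℕ, ∀ e : Fr k, (Polynomial.X : Polynomial (Sx k)) ^ N • e ∈ E
  sat : ∀ e : Fr k, (∀ i : Fin 4, ∃ N : ℕ, (Polynomial.C (X i ^ N : Sx k)) • e ∈ E) → e ∈ E
  loc : ∀ p : Ideal (Sx k), p.IsPrime → (∃ i : Fin 4, (X i : Sx k) ∉ p) →
    ∃ v ∈ E, ∃ w ∈ E, ∃ h u : Polynomial (Sx k), h.coeff 0 ∉ p ∧ u.coeff 0 ∉ p ∧
      (∀ e ∈ E, ∃ a b : Polynomial (Sx k), h • e = a • v + b • w) ∧ v 0 * w 1 - v 1 * w 0 = Polynomial.X ^ n * u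

/-- `v` is homogeneous in `S[t] ⊕ S[t](c)`. -/
def Homog {k : Type} [Field k] (c : ℕ) (v : Fr k) : Prop :=
  ∃ m : ℤ, ∀ j, comp m ((v 0).coeff j) = (v 0).coeff j ∧ comp (m + c) ((v 1).coeff j) = (v 1).coeff j

/-- The fraction field `K` of `S`. -/
abbrev Kx (k : Type) [Field k] : Type := FractionRing (Sx k)

/-- The map from `S` to `K`. -/
abbrev io {k : Type} [Field k] : Sx k →+* Kx k := algebraMap (Sx k) (Kx k)

/-- The relation of integral dependence of `y` over `k(λ)[S]`, denominators in `k[λ]` cleared. -/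
def Rel {k : Type} [Field k] (y la : Kx k) : Prop :=
  ∃ (J : ℕ) (s : Polynomial k) (W : ℕ → Polynomial (Sx k)), Polynomial.aeval la s ≠ 0 ∧
    Polynomial.aeval la s * y ^ (J + 1) = ∑ j ∈ Finset.range (J + 1), Polynomial.aeval la (W j) * y ^ j

/-- The `S`-span of the `u^i w^j` with `M (c + 1) ≤ l + (i + j) c`. -/
def Sp {k : Type} [Field k] (u w : Kx k) (c l M : ℕ) : Submodule (Sx k) (Kx k) :=
  Submodule.span (Sx k) {x | ∃ i j : ℕ, M * (c + 1) ≤ l + (i + j) * c ∧ x = u ^ i * w ^ j}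

/-- `z_0` is proportional to `(B, D')` for all `z ∈ E`, and the same to the next order: the data used in the last part. `N q = M b D`, `b = G B`, `D = G D'`. -/
structure Sit (k : Type) [Field k] (c n : ℕ) (E : Submodule (Polynomial (Sx k)) (Fr k)) (B D' N M : Sx k) : Prop where
  n1 : 1 ≤ n
  bun : BundleC k c n E
  typ : TypeLeOne k E
  rel : IsRelPrime B D'
  B0 : B ≠ 0
  r0 : ∀ e ∈ E, (e 1).coeff 0 * B = D' * (e 0).coeff 0
  r1 : 2 ≤ n → ∀ e ∈ E, B * N * (e 1).coeff 1 = D' * (N * (e 0).coeff 1 - M * (e 0).coeff 0)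

/-! ### Copies of blocks of T1 (no use of `hom`) -/

/-- **CLMC** = `Pool.LTO.Stmt_CLM` for `BundleC` (file `B_CLM.lean` of MP_03d391_lto). `theorem p_CLMC (h : Stmt_LOC) : Stmt_CLMC`. -/
def Stmt_CLMC : Prop := ∀ (k : Type) [Field k] (c n : ℕ) (E : Submodule (Polynomial (Sx k)) (Fr k)), 1 ≤ n → BundleC k c n E → TypeLeOne k E →
  ∀ z ∈ E, (z 0).coeff 0 ≠ 0 → (z 1).coeff 0 ≠ 0 → ∀ p : Ideal (Sx k), p.IsPrime → (∃ i : Fin 4, (X i : Sx k) ∉ p) →
  ∀ i : Fin 4, ∃ s : Sx k, s ∉ p ∧ s * Pd i z ∈ Jd z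

/-- **DETC** = `CLM_R` of `B_CLM.lean`. -/
def Stmt_DETC : Prop := ∀ (k : Type) [Field k] (c n : ℕ) (E : Submodule (Polynomial (Sx k)) (Fr k)), BundleC k c n E →
  ∀ e ∈ E, ∀ e' ∈ E, ∀ m < n, (e 0 * e' 1 - e 1 * e' 0).coeff m = 0

/-- **ZERC** = `Stmt_ZER` for `BundleC`. -/
def Stmt_ZERC : Prop := ∀ (k : Type) [Field k] (c : ℕ) (E : Submodule (Polynomial (Sx k)) (Fr k)), BundleC k c 0 E → E = ⊤

/-- **LOWC** = `Stmt_LOW` for `BundleC`. -/
def Stmt_LOWC : Prop := ∀ (k : Type) [Field k] (c n : ℕ) (E : Submodule (Polynomial (Sx k)) (Fr k)), BundleC k c n E → n ≤ 3 → TypeLeOne k E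

/-! ### General algebra -/

/-- **FAC** (60; uses nothing). FACTORS OF FORMS ARE FORMS. Scaling `φ : S → S[T]`, `x_i ↦ x_i T` (`aeval`); `φ f = Σ_j T^j f_j` (`f_j` the component of degree `j`; for a form of degree `n`: `φ f = T^n f`), `φ f ≠ 0` if `f ≠ 0`. `φ(f) φ(g) = φ(f g) = T^n (f g)`: so
`natTrailingDegree` and `natDegree` of the product are equal (`n`); both are additive (domain `S[T]`), so `natTrailingDegree = natDegree` for `φ f` and for `φ g`: `f = f_i`, `g = g_j`. Or: the components of least and of largest degree of `f` and of `g`. -/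
def Stmt_FAC : Prop := ∀ (k : Type) [Field k] (f g : Sx k) (n : ℕ), (f * g).IsHomogeneous n → f * g ≠ 0 →
  ∃ i j : ℕ, f.IsHomogeneous i ∧ g.IsHomogeneous j ∧ i + j = n

/-- **KRU** (80; uses nothing). TWO ELEMENTS OF THE MAXIMAL IDEAL HAVE A COMMON POINT. `m = (x_0,..,x_3)` = kernel of `constantCoeff`. Let `p ≤ m` be a minimal prime over `(f, g)` (`Ideal.exists_minimalPrimes_le`): height `≤ 2` (`Ideal.height_le_spanRank_toENat_of_mem_minimalPrimes` or
a variant with `spanFinrank`, `Ideal.height_le_iff..`). If all `x_i ∈ p` then `p = m`, which contains the chain of primes `0 < (x_0) < (x_0,x_1) < (x_0,x_1,x_2)` (kernels of the evaluations `x_j ↦ 0` for `j < i`), so its height is `≥ 3`. Contradiction. -/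
def Stmt_KRU : Prop := ∀ (k : Type) [Field k] (f g : Sx k), constantCoeff f = 0 → constantCoeff g = 0 →
  ∃ p : Ideal (Sx k), p.IsPrime ∧ f ∈ p ∧ g ∈ p ∧ ∃ i : Fin 4, (X i : Sx k) ∉ p

/-- **UNC** (50; uses nothing). A finite module over a domain contains a free module with torsion quotient. A maximal linearly independent subset `e` of a finite set `G` of generators; each `a ∈ G` satisfies `r_a • a ∈ span e` with `r_a ≠ 0`; `s = ∏ r_a`. -/
def Stmt_UNC : Prop := ∀ (R A : Type) [CommRing R] [IsDomain R] [AddCommGroup A] [Module R A] [Module.Finite R A],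
  ∃ (d : ℕ) (e : Fin d → A) (s : R), LinearIndependent R e ∧ s ≠ 0 ∧ ∀ a : A, s • a ∈ Submodule.span R (Set.range e)

/-- **UNA** (80; uses nothing). `J = I.comap g` is contained in no `(ρ)`. Suppose it is. `ρ` is not constant, so `degreeOf l ρ > 0` for some `l`. Take different `l_1, l_2, l_3 ≠ l` (`r ≥ 4`) and `P_i` with `g (X l_i) - P_i(a,b) ∈ I`. The three elements `P_i` of `MvPolynomial (Fin 2) k` are
algebraically dependent (`MvPolynomial.trdeg_of_isDomain`: trdeg `2`; `AlgebraicIndependent.lift_cardinalMk_le_trdeg` or similar): `Q ≠ 0` in `MvPolynomial (Fin 3) k` with `Q(P_1,P_2,P_3) = 0`. Then `g(Q(X l_1, X l_2, X l_3)) ∈ I`, so `Q(X l_1,..) = rename Q` lies in `J ⊆ (ρ)`;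
it is not `0` (`rename_injective`) and its `degreeOf l` is `0`, but it is a multiple of `ρ`: contradiction (`degreeOf_mul_eq` in a domain). -/
def Stmt_UNA : Prop := ∀ (k : Type) [Field k] (r : ℕ) (A : Type) [CommRing A] [Algebra k A] (g : MvPolynomial (Fin r) k →ₐ[k] A) (I : Ideal A) (a b : A),
  4 ≤ r → (∀ x : A, ∃ P : MvPolynomial (Fin 2) k, x - aeval ![a, b] P ∈ I) →
  ∀ ρ : MvPolynomial (Fin r) k, Prime ρ → ¬ I.comap (g : MvPolynomial (Fin r) k →+* A) ≤ Ideal.span {ρ}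

/-- **UNB** (100; uses UNC). THE UNIFORM DENOMINATOR. `R = MvPolynomial (Fin r) k` acts on `A` by `g` (`Module.Finite`). `e_1,..,e_d`, `s_1` from UNC; `s = g(s_1)`. Let `J = I.comap g`, `J ≠ 0` (else `J ≤ (X 0)`; here `r ≥ 1`). Let `x, y, N` be as in the statement. For `h ∈ J`: `g(h)^N ∈ I^N`, so `g(h)^N x = a_h y`; `s a_h = Σ g(c_{h,i}) e_i`.
For `h, h' ∈ J`: `g(h')^N a_h = g(h)^N a_h'` (cancel `y`), so `h'^N c_{h,i} = h^N c_{h',i}` (linear independence). Fix `h ∈ J`, `h ≠ 0`. CLAIM `h^N ∣ c_{h,i}`: write `c_{h,i} = t a'`, `h^N = t b'`, `a'`, `b'` relatively prime (`exists_reduced_factors'` or gcd); `h'^N a' = b' c_{h',i}` for all `h' ∈ J`; a prime `ρ ∣ b'`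
divides `h'^N`, so `h'`, for all `h' ∈ J`: contradiction; so `b'` is a unit. So `c_{h,i} = h^N d_i`, `s a_h = g(h)^N Σ g(d_i) e_i`, `g(h)^N s x = s a_h y = g(h)^N (Σ g(d_i) e_i) y`, cancel `g(h)^N`. -/
def Stmt_UNB : Prop := ∀ (k : Type) [Field k] (r : ℕ) (A : Type) [CommRing A] [IsDomain A] [Algebra k A] (g : MvPolynomial (Fin r) k →ₐ[k] A) (I : Ideal A),
  1 ≤ r → Function.Injective g → g.Finite → (∀ ρ : MvPolynomial (Fin r) k, Prime ρ → ¬ I.comap (g : MvPolynomial (Fin r) k →+* A) ≤ Ideal.span {ρ}) →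
  ∃ s : A, s ≠ 0 ∧ ∀ x y : A, y ≠ 0 → (∃ N : ℕ, ∀ i ∈ I ^ N, ∃ a : A, i * x = a * y) → ∃ a : A, s * x = a * y

/-- **UND** (30; uses nothing). Transcendence degree: `A` is integral over the image of `MvPolynomial (Fin r) k` and contains `4` algebraically independent elements. -/
def Stmt_UND : Prop := ∀ (k : Type) [Field k] (r : ℕ) (A : Type) [CommRing A] [IsDomain A] [Algebra k A] (g : MvPolynomial (Fin r) k →ₐ[k] A)
  (x : Fin 4 → A), Function.Injective g → g.Finite → AlgebraicIndependent k x → 4 ≤ r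

/-- **UNI** (110; uses UNA, UNB, UND). `A = Algebra.adjoin S {u, w}`, a domain of finite type over `k`; Noether normalization `g` (`exists_finite_inj_algHom_of_fg`), `r ≥ 4` by UND (`x_i` are algebraically independent in `K`). `I = (x_0,..,x_3) A`: each element of `A` is a polynomial in `u, w` with coefficients in
`S`, modulo `I` the coefficients may be replaced by their constant terms: the hypothesis of UNA with `a = u`, `b = w`. UNB gives `s ∈ A`. If `x_j^{N_j} f ∈ A` for all `j` then `I^N f ⊆ A` for large `N` (`I^{4N} ≤ (x_0^N,..,x_3^N)`, `Ideal.span_pow_le..`, or `Ideal.exists_pow_le_of_le_radical_of_fg`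
for the ideal `{i : i f ∈ A}`), write `f = x / y` with `x, y ∈ S`: UNB gives `s f ∈ A`. Finally `s = s_1 / t` with `s_1, t ∈ S` (`IsFractionRing.div_surjective`): `s_1` works. -/
def Stmt_UNI : Prop := ∀ (k : Type) [Field k] (u w : Kx k), ∃ s : Sx k, s ≠ 0 ∧ ∀ f : Kx k,
  (∀ j : Fin 4, ∃ N : ℕ, io (X j ^ N : Sx k) * f ∈ Algebra.adjoin (Sx k) {u, w}) → io s * f ∈ Algebra.adjoin (Sx k) {u, w}

/-- **GRD** (120; uses nothing). DEGREES. `u = b/D`, `w = q/D²`, `p_i = P_i/D²`. Let `l` be a degree with `s' =` component of degree `l` of `s` not zero. For `α : Fin M → Fin 4`: `s ∏ p_{α j} = Σ a_{ij} u^i w^j` (finite sum, `a_{ij} ∈ S`: `adjoin` is the range of `aeval ![u, w]`). Choose `L ≥ M` with `i + 2 j ≤ 2 L` for all terms and multiply by `D^(2L)`: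
in `S` (`io` injective) `s ∏ P_{α j} D^(2L-2M) = Σ a_{ij} b^i q^j D^(2L-i-2j)`. Take the component of degree `l + M (2m+c-1) + (2L-2M)(m+c)`: (`LAx.hc_mul` in `B_LA.lean` of MP_03d391_lto: component of a product with a form) `b^i q^j D^(2L-i-2j)` is a form of degree `2L(m+c) - (i+j)c`, so
`s' ∏ P_{α j} D^(2L-2M) = Σ a'_{ij} b^i q^j D^(2L-i-2j)`, `a'_{ij}` = the component of `a_{ij}` of degree `l + (i+j) c - M (c+1)`, zero if this is negative. Divide by `D^(2L)`. -/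
def Stmt_GRD : Prop := ∀ (k : Type) [Field k] (c m : ℕ) (b D q s : Sx k) (P : Fin 4 → Sx k), 1 ≤ c → b.IsHomogeneous m → D.IsHomogeneous (m + c) →
  q.IsHomogeneous (2 * m + c) → (∀ i, (P i).IsHomogeneous (2 * m + c - 1)) → D ≠ 0 → s ≠ 0 →
  (∀ (M : ℕ) (α : Fin M → Fin 4), io s * ∏ j, (io (P (α j)) / io D ^ 2) ∈ Algebra.adjoin (Sx k) {io b / io D, io q / io D ^ 2}) →
  ∃ (l : ℕ) (s' : Sx k), s' ≠ 0 ∧ ∀ (M : ℕ) (α : Fin M → Fin 4), io s' * ∏ j, (io (P (α j)) / io D ^ 2) ∈ Sp (io b / io D) (io q / io D ^ 2) c l M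

/-- **EUL** (60; uses nothing). EULER. `Σ x_i P_i = D Σ x_i ∂_i b - b Σ x_i ∂_i D = m b D - (m + c) b D = - c b D` (`IsHomogeneous.sum_X_mul_pderiv` or similar), so `Σ_i x_i p_i = - c u`, `u = b/D`. `(Σ_i x_i p_i)^M = Σ_{α : Fin M → Fin 4} ∏_j x_{α j} p_{α j}` (`Finset.prod_univ_sum`, `Fintype.piFinset`),
so `s' (-c)^M u^M` is a sum of elements `io (∏ x_{α j}) (s' ∏ p_{α j})` of `Sp`, a module over `S ⊇ k`; divide by `(-c)^M ∈ k`. -/
def Stmt_EUL : Prop := ∀ (k : Type) [Field k] [CharZero k] (c m l : ℕ) (b D s' : Sx k) (w : Kx k), 1 ≤ c → b.IsHomogeneous m → D.IsHomogeneous (m + c) → D ≠ 0 →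
  (∀ (M : ℕ) (α : Fin M → Fin 4), io s' * ∏ j, (io (D * pderiv (α j) b - b * pderiv (α j) D) / io D ^ 2) ∈ Sp (io b / io D) w c l M) →
  ∀ M : ℕ, io s' * (io b / io D) ^ M ∈ Sp (io b / io D) w c l M

/-- **KRA** (100; uses nothing). KRULL. `K' = k(λ)`, `A' = Algebra.adjoin K' (range (io ∘ X) ∪ {u})` is a Noetherian domain (finite type over a field). For `t : ℕ` put `M = l + c t`: a generator `u^i w^j = u^(i+j) λ^(-j)` of `Sp` has `(i+j) c ≥ M (c+1) - l`, so `i + j ≥ M + t`, and `s' u^M ∈ u^(M+t) A'`, so `s' ∈ u^t A'`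
(cancel `u^M`; `S ⊆ A'`). So `s' ≠ 0` lies in all powers of the ideal `u A'`, which is then `A'` (`Ideal.iInf_pow_eq_bot_of_isDomain`): `u⁻¹ ∈ A'`. -/
def Stmt_KRA : Prop := ∀ (k : Type) [Field k] (c l : ℕ) (u w la : Kx k) (s' : Sx k), 1 ≤ c → u ≠ 0 → w = u * la⁻¹ → s' ≠ 0 → (∀ M : ℕ, io s' * u ^ M ∈ Sp u w c l M) →
  u⁻¹ ∈ Algebra.adjoin (IntermediateField.adjoin k {la}) (Set.range (fun i : Fin 4 => io (X i : Sx k)) ∪ {u})

/-- **KRB** (110; uses nothing). FROM `A'` TO `Rel`. `W = Algebra.adjoin K' (range (io ∘ X))`. `A' = W[u]` (`Algebra.adjoin_union`, `Algebra.adjoin_singleton_eq_range_aeval`): `u⁻¹ = Σ_{j ≤ J} κ_j u^j`, `κ_j ∈ W`. Multiply by `y^J`, `y = u⁻¹`: `y^(J+1) = Σ_{j ≤ J} κ_j y^(J-j)`. Let `𝒲` be the set of all `x : K` such that there are `s ∈ k[T]` with `s(λ) ≠ 0` and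
`V ∈ S[T]` with `s(λ) x = V(λ)`: it is closed under `+` and `*`, contains `io` and `K' = k(λ)` (`IntermediateField.mem_adjoin_simple_iff`), so it contains `W` (`Algebra.adjoin_induction`). Multiply by the product of the `s` for all `κ_j`. -/
def Stmt_KRB : Prop := ∀ (k : Type) [Field k] (u la : Kx k), u ≠ 0 →
  u⁻¹ ∈ Algebra.adjoin (IntermediateField.adjoin k {la}) (Set.range (fun i : Fin 4 => io (X i : Sx k)) ∪ {u}) → Rel u⁻¹ la

/-- **RLA** (110; uses CLMC, UNI, GRD, EUL, KRA, KRB). `u = b/D`, `w = q/D²`, `λ = bD/q`, so `w = u λ⁻¹`; `p_i = io (Pd i z) / io D ^ 2`. (1) For all `i, j` there is `N` with `x_j^N Pd i z ∈ Jd z` (CLMC and `Ideal.radical_eq_sInf`, as in `DIR_Pd` of `B_DIR.lean` of MP_03d391_lto). So `x_j^N p_i ∈ A = adjoin S {u, w}` (`Jd z = (q, D², D b, b²)`, divide by `D²`: `w, 1, u, u²`).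
(2) so `x_j^N ∏ p_{α j} ∈ A` for some `N` (product), so `s ∏ p_{α j} ∈ A` (UNI). (3) GRD (`Pd i z` is a form of degree `2m+c-1`; for `m = 0` the first derivatives of `b` vanish), EUL, KRA, KRB; `u⁻¹ = D/b`. -/
def Stmt_RLA : Prop := ∀ (k : Type) [Field k] [CharZero k] (c n m : ℕ) (E : Submodule (Polynomial (Sx k)) (Fr k)), 1 ≤ c → 1 ≤ n → BundleC k c n E → TypeLeOne k E →
  ∀ z ∈ E, (z 0).coeff 0 ≠ 0 → (z 1).coeff 0 ≠ 0 → Qd z ≠ 0 → ((z 0).coeff 0).IsHomogeneous m → ((z 1).coeff 0).IsHomogeneous (m + c) → (Qd z).IsHomogeneous (2 * m + c) →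
  Rel (io ((z 1).coeff 0) / io ((z 0).coeff 0)) (io ((z 0).coeff 0 * (z 1).coeff 0) / io (Qd z))

/-! ### Local arguments -/

/-- **KZ** (60; uses nothing). `P(N/M) = 0` with `N, M` relatively prime in `p`: all coefficients of `P` lie in `p`. Induction on `d`: if `Σ_{i ≤ d} P_i N^i M^(d-i) = 0` then all `P_i ∈ p`. `d = 0`: `P_0 = 0`. Step: `M ∣ P_d N^d`, so `P_d = M Q` (relatively prime), `P_d ∈ p`; divide by `M`: `Q N^d + Σ_{i<d} P_i N^i M^(d-1-i) = 0`, so the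
induction hypothesis applies to `P_0,..,P_{d-2}, P_{d-1} + Q N`; `N ∈ p`. The equation comes from `aeval` (`Polynomial.aeval_eq_sum_range`) times `M^d`. (`M = 0` would make `N` a unit.) -/
def Stmt_KZ : Prop := ∀ (k : Type) [Field k] (N M : Sx k) (p : Ideal (Sx k)), IsRelPrime N M → M ≠ 0 → p.IsPrime → N ∈ p → M ∈ p →
  ∀ P : Polynomial (Sx k), Polynomial.aeval (io N / io M) P = 0 → ∀ i, P.coeff i ∈ p

/-- **KO** (80; uses KZ). `y = D'/B`, `λ = N/M`, `J, s, W` from `Rel`. In `K`: `λ a = y (λ c1 - c2)` (from `a B N = D' (c1 N - c2 M)`). Multiply `Rel` by `(λ c1 - c2)^(J+1)`: `s(λ) (λ a)^(J+1) = Σ_{j ≤ J} W_j(λ) (λ a)^j (λ c1 - c2)^(J+1-j)`. So `P(λ) = 0` for `P = s (a T)^(J+1) - Σ_{j ≤ J} W_j (a T)^j (c1 T - c2)^(J+1-j) ∈ S[T]`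
(`s` mapped by `C : k → S`). By KZ its coefficients are in `p`; those of the sum are in `p` (each term has a factor `c1 T - c2` with coefficients in `p`: the ideal `Ideal.map Polynomial.C p`, `Ideal.mem_map_C_iff`). So `s_i a^(J+1) ∈ p` for all `i`, some `s_i ≠ 0` is a unit: `a ∈ p`. -/
def Stmt_KO : Prop := ∀ (k : Type) [Field k] (B D' N M : Sx k) (p : Ideal (Sx k)), B ≠ 0 → IsRelPrime N M → N ≠ 0 → M ≠ 0 → Rel (io D' / io B) (io N / io M) →
  p.IsPrime → N ∈ p → M ∈ p → ∀ a c1 c2 : Sx k, c1 ∈ p → c2 ∈ p → a * B * N = D' * (c1 * N - c2 * M) → a ∈ p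

/-- **PT** (90; uses KO). Let `π ∣ B`, `π, N, M ∈ p`. For `e ∈ E`: `B ∣ D' β_0`, so `B ∣ β_0` (relatively prime), so `β_0 ∈ p`. `δ_0 B N = D' (β_0 N - 0 M)` and KO: `δ_0 ∈ p`. So all `e_0 ∈ p`. `n = 1` is impossible (`bun.loc` at `p`: the coefficient of `t` in `det(v,w)` is in `p`, as in `B_CLM.lean` of MP_03d391_lto). `TypeLeOne`: some `e` has `β_1 ∉ p` or `δ_1 ∉ p`.
If `β_1 ∈ p` then KO with `a = δ_1`, `c1 = β_1`, `c2 = β_0` (`r1`) gives `δ_1 ∈ p`: contradiction. So `β_1 ∉ p`. -/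
def Stmt_PT : Prop := ∀ (k : Type) [Field k] (c n : ℕ) (E : Submodule (Polynomial (Sx k)) (Fr k)) (B D' N M : Sx k), Sit k c n E B D' N M →
  IsRelPrime N M → N ≠ 0 → M ≠ 0 → Rel (io D' / io B) (io N / io M) → ∀ (π : Sx k) (p : Ideal (Sx k)), Prime π → π ∣ B → p.IsPrime → (∃ i : Fin 4, (X i : Sx k) ∉ p) →
  π ∈ p → N ∈ p → M ∈ p → 2 ≤ n ∧ ∃ e ∈ E, (e 0).coeff 0 ∈ p ∧ (e 0).coeff 1 ∉ p

/-- **CA** (70; uses nothing). Let `π, D' ∈ p`, `π ∣ B`. For `e ∈ E`: `B ∣ β_0`, `β_0 = g B`, `δ_0 = g D'`: both in `p`. `n = 1` is impossible (see PT). Some `e` has `β_1 ∉ p` or `δ_1 ∉ p`. Suppose `N ∉ p`. By `r1`: `D' ∣ B N δ_1`, so `D' ∣ N δ_1`, so `δ_1 ∈ p`; `B ∣ D' (N β_1 - M β_0)`, so `B ∣ N β_1 - M β_0`, so `B ∣ N β_1`, so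
`N β_1 ∈ p`, `β_1 ∈ p`. Contradiction. -/
def Stmt_CA : Prop := ∀ (k : Type) [Field k] (c n : ℕ) (E : Submodule (Polynomial (Sx k)) (Fr k)) (B D' N M : Sx k), Sit k c n E B D' N M →
  ∀ (π : Sx k) (p : Ideal (Sx k)), Prime π → π ∣ B → p.IsPrime → (∃ i : Fin 4, (X i : Sx k) ∉ p) → π ∈ p → D' ∈ p → N ∈ p

/-- **CB** (80; uses nothing). Multiply `Rel` (`y = D'/B`, `λ = N/M`) by `M^L B^(J+1)`, `L` at least all degrees of `s` and `W_j`: in `S`: `s^h D'^(J+1) = Σ_{j ≤ J} W_j^h D'^j B^(J+1-j)`, `s^h = Σ_i s_i N^i M^(L-i)`. So `π ∣ B ∣ s^h D'^(J+1)`, `π ∤ D'` (relatively prime), `π ∣ s^h`. Suppose `π ∤ N`. Let `a` be minimal with `s_a ≠ 0` (`s ≠ 0`):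
`s^h = N^a Σ_{i ≥ a} s_i N^(i-a) M^(L-i)`, so `π` divides the sum, which is in `p`; `N ∈ p`, so `s_a M^(L-a) ∈ p`, `M ∈ p`. Contradiction. -/
def Stmt_CB : Prop := ∀ (k : Type) [Field k] (B D' N M : Sx k), B ≠ 0 → M ≠ 0 → IsRelPrime B D' → Rel (io D' / io B) (io N / io M) →
  ∀ (π : Sx k) (p : Ideal (Sx k)), Prime π → π ∣ B → p.IsPrime → π ∈ p → N ∈ p → M ∉ p → π ∣ N

/-- **CC** (70; uses KRU, PT, CA, CB). Choose `p ∋ π, D'` by KRU. `N ∈ p` by CA. If `M ∉ p`: CB. If `M ∈ p`: `e` from PT; `r1`: `N (β_1 D' - δ_1 B) = D' M β_0` and `π ∣ β_0` (`B ∣ β_0` as in PT), so `π ∣ N (β_1 D' - δ_1 B)`; if `π ∤ N` then `π ∣ β_1 D'`, `π ∤ D'`, so `π ∣ β_1 ∈ p`: contradiction. -/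
def Stmt_CC : Prop := ∀ (k : Type) [Field k] (c n : ℕ) (E : Submodule (Polynomial (Sx k)) (Fr k)) (B D' N M : Sx k), Sit k c n E B D' N M →
  IsRelPrime N M → N ≠ 0 → M ≠ 0 → Rel (io D' / io B) (io N / io M) → ∀ π : Sx k, Prime π → π ∣ B → constantCoeff π = 0 → constantCoeff D' = 0 → π ∣ N

/-- **CD** (70; uses PT). Let `N = π^l N1`. If `M ∉ p`: `s = M`. If `π ∉ p`: `s = π`. Otherwise `N ∈ p` (`l ≥ 1`) and PT gives `e` with `β_1 ∉ p`. `D' M β_0 = π^l N1 (β_1 D' - δ_1 B)`; `π` divides neither `D'` nor `M`, so `π^l ∣ β_0` (`Prime.pow_dvd_of_dvd_mul_left`), `β_0 = π^l β'`, `D' M β' = N1 (β_1 D' - δ_1 B)`, so `π ∣ D' (β' M - β_1 N1)`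
(`π ∣ B`), `π ∣ β' M - β_1 N1`: `s = β_1`. -/
def Stmt_CD : Prop := ∀ (k : Type) [Field k] (c n : ℕ) (E : Submodule (Polynomial (Sx k)) (Fr k)) (B D' N M : Sx k), Sit k c n E B D' N M →
  IsRelPrime N M → N ≠ 0 → M ≠ 0 → Rel (io D' / io B) (io N / io M) → ∀ (π N1 : Sx k) (l : ℕ), Prime π → π ∣ B → 1 ≤ l → N = π ^ l * N1 → ¬ π ∣ M →
  ∀ p : Ideal (Sx k), p.IsPrime → (∃ i : Fin 4, (X i : Sx k) ∉ p) → ∃ s : Sx k, s ∉ p ∧ s * N1 ∈ Ideal.span {M, π}

/-- **NEG** (130; uses nothing). NO SECTIONS OF NEGATIVE DEGREE. Suppose `π ∤ N1`; `G = S/(π)` is a domain, `G_n` the image of the forms of degree `n` (finite dimensional over `k`). Let `K` be a common exponent, `n ≥ 4K`, `s` a form of degree `n`: every monomial of `s` is divisible by some `x_j^K`, so `s N1 = a M + a' π`, and `a`, `a'` may be taken homogeneous, `a` of degree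
`n - (r - r1)` (components of degree `n + r1`; `LAx.mul_mem`, `LAx.hc_mul` of `B_LA.lean` of MP_03d391_lto). In the fraction field of `G`: multiplication by `N1/M` maps `G_n` injectively to `G_{n-(r-r1)}`, so `finrank G_n ≤ finrank G_{n-(r-r1)}` for `n ≥ 4K + r`: so `finrank G_n` is bounded on an arithmetic progression. But `finrank G_n ≥ n + 1`: `degreeOf l π > 0` for some
`l` (`π` is not constant), take `i ≠ j` different from `l`: the monomials `x_i^a x_j^(n-a)` are linearly independent modulo `π` (a combination has `degreeOf l = 0`, a nonzero multiple of `π` has not). -/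
def Stmt_NEG : Prop := ∀ (k : Type) [Field k] (π M N1 : Sx k) (e r r1 : ℕ), Prime π → π.IsHomogeneous e → M.IsHomogeneous r → N1.IsHomogeneous r1 → r1 < r → ¬ π ∣ M →
  (∀ j : Fin 4, ∃ K : ℕ, (X j : Sx k) ^ K * N1 ∈ Ideal.span {M, π}) → π ∣ N1

/-- **SF** (80; uses FAC, CC, CD, NEG). Suppose `B` is not a unit, `π ∣ B` a prime (`WfDvdMonoid.exists_irreducible_factor`). `π` is a form of positive degree (FAC; a form of degree `0` is a constant), so `constantCoeff π = 0`; the same for `D'` (`d + c ≥ 1`). CC: `π ∣ N`, so `π ∤ M`. `N = π^l N1`, `π ∤ N1`, `l ≥ 1` (`exists_eq_pow_mul_and_not_dvd`, `FiniteMultiplicity`).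
FAC: `N1` is a form of degree `r1 < r`. By CD the ideal `{s : s N1 ∈ (M, π)}` lies in no prime `p` with some `x_i ∉ p`, so its radical contains all `x_j` (`Ideal.radical_eq_sInf`). NEG: `π ∣ N1`. Contradiction. -/
def Stmt_SF : Prop := ∀ (k : Type) [Field k] (c n d r : ℕ) (E : Submodule (Polynomial (Sx k)) (Fr k)) (B D' N M : Sx k), 1 ≤ c → Sit k c n E B D' N M →
  B.IsHomogeneous d → D'.IsHomogeneous (d + c) → N.IsHomogeneous r → M.IsHomogeneous r →
  IsRelPrime N M → N ≠ 0 → M ≠ 0 → Rel (io D' / io B) (io N / io M) → IsUnit B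

/-- **DIRC** (150; uses DETC, FAC, KRU, CA, RLA, SF). THE DIRECTION. Suppose some `e ∈ E` has `β_0 ≠ 0`; `hom` gives `z ∈ E` all of whose coefficients are forms, of degree `m` (first coordinate, `m ≥ 0`) and `m + c` (second), with `b = β_0(z) ≠ 0`. `D = δ_0(z)`. DETC (coefficient `0`): `β_0(e) D = δ_0(e) b` for `e ∈ E`. If `D = 0`: `h = 0`. Otherwise `b = G B`,
`D = G D'`, `B, D'` relatively prime (`exists_reduced_factors'` or gcd), forms of degrees `d`, `d + c` (FAC); `δ_0(e) B = D' β_0(e)` (cancel `G`; this is `r0`). It is enough to show that `B` is a unit: then `h = B⁻¹ D'`, `b h = D`, so `h` is a form of degree `c` (FAC), and cancel `b`.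
For `n ≥ 2` DETC (coefficient `1`) times `b` gives `b² δ_1(e) = b D β_1(e) - q β_0(e)`, `q = Qd z = b_1 D - b D_1`. If `N q = M b D` then (times `N`, cancel `G² B`) `B N δ_1 = D' (N β_1 - M β_0)`: `r1`. CASE `q = 0`: `N = 1`, `M = 0`; if `B` is not a unit take a prime `π ∣ B` and (KRU) `p ∋ π, D'`: CA gives `1 ∈ p`. CASE `q ≠ 0`: `b D = G2 N`, `q = G2 M`, `N, M`
relatively prime forms of the same degree; RLA and SF (`D/b = D'/B`, `bD/q = N/M`). -/
def Stmt_DIRC : Prop := ∀ (k : Type) [Field k] [CharZero k] (c n : ℕ) (E : Submodule (Polynomial (Sx k)) (Fr k)), 1 ≤ c → 1 ≤ n → BundleC k c n E → TypeLeOne k E →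
  (∀ e ∈ E, (e 0).coeff 0 = 0) ∨ ∃ h : Sx k, h.IsHomogeneous c ∧ ∀ e ∈ E, (e 1).coeff 0 = h * (e 0).coeff 0

/-! ### The induction -/

/-- `(f, g) ↦ (t f, g)`. -/
def Ta {k : Type} [Field k] : Fr k →ₗ[Polynomial (Sx k)] Fr k where
  toFun e := ![Polynomial.X * e 0, e 1]
  map_add' x y := by
    funext a
    fin_cases a
    · show Polynomial.X * (x 0 + y 0) = Polynomial.X * x 0 + Polynomial.X * y 0
      ring
    · rfl
  map_smul' r x := by
    funext a
    fin_cases a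
    · show Polynomial.X * (r * x 0) = r * (Polynomial.X * x 0)
      ring
    · rfl

/-- `(f, g) ↦ (f, h f + t g)`. -/
def Tb {k : Type} [Field k] (h : Sx k) : Fr k →ₗ[Polynomial (Sx k)] Fr k where
  toFun e := ![e 0, Polynomial.C h * e 0 + Polynomial.X * e 1]
  map_add' x y := by
    funext a
    fin_cases a
    · rfl
    · show Polynomial.C h * (x 0 + y 0) + Polynomial.X * (x 1 + y 1) =
        (Polynomial.C h * x 0 + Polynomial.X * x 1) + (Polynomial.C h * y 0 + Polynomial.X * y 1)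
      ring
  map_smul' r x := by
    funext a
    fin_cases a
    · rfl
    · show Polynomial.C h * (r * x 0) + Polynomial.X * (r * x 1) =
        r * (Polynomial.C h * x 0 + Polynomial.X * x 1)
      ring

/-- **CHA** (120; uses nothing). CHANGE OF THE LATTICE, first case (compare `B_CHG.lean` of MP_03d391_lto). Every `e ∈ E` is `Ta e'` for a unique `e'` (`Polynomial.divX`), `det(Ta v', Ta w') = t det(v', w')`. `hom`: components commute with `Ta`. `pow`, `sat`: clear. `TypeLeOne`: `β_1(Ta e') = β_0(e')`, `δ_j(Ta e') = δ_j(e')`. -/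
def Stmt_CHA : Prop := ∀ (k : Type) [Field k] (c n : ℕ) (E : Submodule (Polynomial (Sx k)) (Fr k)), BundleC k c (n + 1) E → (∀ e ∈ E, (e 0).coeff 0 = 0) →
  BundleC k c n (E.comap Ta) ∧ (TypeLeOne k E → TypeLeOne k (E.comap Ta)) ∧ E = (E.comap Ta).map Ta

/-- **CHB** (140; uses nothing). CHANGE OF THE LATTICE, second case. Every `e ∈ E` is `Tb h e'` for a unique `e'`: `e' 0 = e 0`, `t (e' 1) = e 1 - h (e 0)`; `det(Tb v', Tb w') = t det(v', w')`. `hom`: `comp (m + c) (h f) = h comp m f` for a form `h` of degree `c` (also for `m < 0`; `LAx.hc_mul` of `B_LA.lean` of MP_03d391_lto).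
`TypeLeOne`: `β_j(Tb e') = β_j(e')`, `δ_0(Tb e') = h β_0(e')`, `δ_1(Tb e') = h β_1(e') + δ_0(e')`. -/
def Stmt_CHB : Prop := ∀ (k : Type) [Field k] (c n : ℕ) (E : Submodule (Polynomial (Sx k)) (Fr k)) (h : Sx k), h.IsHomogeneous c → BundleC k c (n + 1) E →
  (∀ e ∈ E, (e 1).coeff 0 = h * (e 0).coeff 0) →
  BundleC k c n (E.comap (Tb h)) ∧ (TypeLeOne k E → TypeLeOne k (E.comap (Tb h))) ∧ E = (E.comap (Tb h)).map (Tb h)

/-- **FINC** (90; uses DIRC, ZERC, CHA, CHB). Induction on `n`. `n = 0`: `E = ⊤` is spanned by `(1, 0)` (`m = 0`) and `(0, 1)` (`m = -c`). Step: DIRC, CHA or CHB, the induction hypothesis; `Ta` and `Tb h` map homogeneous elements to homogeneous elements of the same degree; `Submodule.map_span`. -/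
def Stmt_FINC : Prop := ∀ (k : Type) [Field k] [CharZero k] (c n : ℕ) (E : Submodule (Polynomial (Sx k)) (Fr k)), 1 ≤ c → BundleC k c n E → TypeLeOne k E →
  ∃ v w : Fr k, Homog c v ∧ Homog c w ∧ E = Submodule.span (Polynomial (Sx k)) {v, w}

/-- **T2C** (70; uses FINC, LOWC and `Stmt_FIN` of `Pool.LTO`). `c = 0`: `BundleC k 0 n E` gives `Bundle k n E` (`hom` with `m : ℕ`, `comp (m : ℤ) = homogeneousComponent m`), `Stmt_FIN` gives two vectors with coordinates in `k[t]`: homogeneous with `m = 0` (`homogeneousComponent 0 (C a) = C a`). `c ≥ 1`: LOWC, FINC. -/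
def Stmt_T2C : Prop := ∀ (k : Type) [Field k] [CharZero k] (c n : ℕ) (E : Submodule (Polynomial (Sx k)) (Fr k)), BundleC k c n E → (n ≤ 3 ∨ TypeLeOne k E) →
  ∃ v w : Fr k, Homog c v ∧ Homog c w ∧ E = Submodule.span (Polynomial (Sx k)) {v, w}

end Pool.LT2
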